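import Pool.Agent.K3h97.BP.Csq

/-! The logarithmic derivative of the decaying exterior solution. -/

set_option autoImplicit false

open Complex Filter Topology Set

namespace Pool.Agent.K3h97.BP

lemma alg_ineq {lam c k x y : ℝ} (hlam : 0 < lam) (hk0 : 0 ≤ k) (hk1 : k ≤ 1) (hc : c ≤ lam)
    (hc0 : 0 ≤ c) (hck : 2 * c = 5 / 4 * (k * lam)) (hx : 0 ≤ x) (hy : 0 ≤ y) :
    lam / 2 * (x ^ 2 - k ^ 2 * y ^ 2) ≤
      2 * lam * (x ^ 2 + k ^ 2 * y ^ 2) - c * (x + y) * x - k ^ 2 * (c * (x + y) * y) := by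
  have h1 : 0 ≤ x * y := mul_nonneg hx hy
  have hk2 : k ^ 2 ≤ 1 := by nlinarith
  have h2 : c * (k ^ 2 * (x * y)) ≤ c * (x * y) := by
    refine mul_le_mul_of_nonneg_left ?_ hc0
    nlinarith
  have h3 : c * x ^ 2 ≤ lam * x ^ 2 := mul_le_mul_of_nonneg_right hc (sq_nonneg x)
  have h4 : c * (k ^ 2 * y ^ 2) ≤ lam * (k ^ 2 * y ^ 2) :=
    mul_le_mul_of_nonneg_right hc (by positivity)
  have h5 : 0 ≤ lam * (2 * x ^ 2 - 5 * x * (k * y) + 6 * (k * y) ^ 2) := by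
    refine mul_nonneg hlam.le ?_
    nlinarith [sq_nonneg (x - 5 / 4 * (k * y)), sq_nonneg (k * y)]
  have h6 : 2 * c * (x * y) = 5 / 4 * (k * lam) * (x * y) := by rw [hck]
  nlinarith

lemma inner_conj (a b : ℂ) : inner ℝ a b = ((starRingEnd ℂ) a * b).re := by
  rw [Complex.inner, mul_comm]

lemma real_ineq {lam Pim h β r rn k c x y X1 X2 : ℝ} (hh : 0 < h) (hr : 0 < r) (hrn : 0 < rn)
    (hlam0 : 0 < lam) (hk0 : 0 ≤ k) (hk1 : k ≤ 1) (hclam : c ≤ lam) (hc0 : 0 ≤ c)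
    (hck : 2 * c = 5 / 4 * (k * lam)) (hx0 : 0 ≤ x) (hy0 : 0 ≤ y) (hlamP : lam ≤ Pim / h)
    (i1 : 2 * |X1| ≤ c * (x + y) * x) (i2 : 2 * |X2| ≤ c * (x + y) * y) :
    lam / 2 * (rn * (x ^ 2 - k ^ 2 * y ^ 2)) ≤
      rn * (β / (h * r)) * (x ^ 2 - k ^ 2 * y ^ 2) + rn *
        (2 * ((-(β / (2 * r)) + Pim) / h * x ^ 2 - X1) - k ^ 2 *
          (2 * ((-(β / (2 * r)) - Pim) / h * y ^ 2 - X2))) := by
  have i1' := le_abs_self X1
  have i2' := neg_abs_le X2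
  have hq := alg_ineq hlam0 hk0 hk1 hclam hc0 hck hx0 hy0
  have e5 : rn * (β / (h * r)) * (x ^ 2 - k ^ 2 * y ^ 2) + rn *
        (2 * ((-(β / (2 * r)) + Pim) / h * x ^ 2 - X1) - k ^ 2 *
          (2 * ((-(β / (2 * r)) - Pim) / h * y ^ 2 - X2))) =
        rn * (2 * (Pim / h) * (x ^ 2 + k ^ 2 * y ^ 2) - 2 * X1 + k ^ 2 * (2 * X2)) := by
    field_simp
    ring
  rw [e5]
  have e6 : lam / 2 * (rn * (x ^ 2 - k ^ 2 * y ^ 2)) =
      rn * (lam / 2 * (x ^ 2 - k ^ 2 * y ^ 2)) := by ring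
  rw [e6]
  refine mul_le_mul_of_nonneg_left ?_ hrn.le
  have h8 : 2 * lam * (x ^ 2 + k ^ 2 * y ^ 2) ≤ 2 * (Pim / h) * (x ^ 2 + k ^ 2 * y ^ 2) := by
    refine mul_le_mul_of_nonneg_right ?_ (by positivity)
    linarith
  have h9 : -(k ^ 2 * (c * (x + y) * y)) ≤ k ^ 2 * (2 * X2) := by
    have h10 : -(c * (x + y) * y) ≤ 2 * X2 := by linarith
    have h11 := mul_le_mul_of_nonneg_left h10 (sq_nonneg k)
    linarith
  linarith

lemma re_conj_mul_le (a b c : ℂ) : |((starRingEnd ℂ) a * (b * c)).re| ≤ ‖a‖ * (‖b‖ * ‖c‖) := by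
  refine (Complex.abs_re_le_norm _).trans ?_
  rw [norm_mul, norm_mul, RCLike.norm_conj]

section

variable {h η : ℝ} {n : ℕ} {f f1 : ℝ → ℂ} {ε : ℂ}

/-- the momentum -/
noncomputable def mom (ε : ℂ) (β r : ℝ) : ℂ := csq (ε - β ^ 2 / (4 * r ^ 2))

lemma mom_prop {β r : ℝ} (hη : 0 < η) (hβ0 : 0 ≤ β) (hβ : β ≤ 1 / 2) (hε : η ≤ ε.im)
    (hεn : ‖ε‖ ≤ 5) (hr : 1 ≤ r) :
    mom ε β r ^ 2 = ε - β ^ 2 / (4 * r ^ 2) ∧ ‖mom ε β r‖ ≤ 5 / 2 ∧ η ≤ ‖mom ε β r‖ ^ 2 ∧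
      η / 5 ≤ (mom ε β r).im ∧
      HasDerivAt (mom ε β) (β ^ 2 / (4 * r ^ 3 * mom ε β r)) r := by
  have hr0 : 0 < r := by linarith
  set z : ℂ := ε - β ^ 2 / (4 * r ^ 2) with hz
  have hzz : z = ε - ((β ^ 2 / (4 * r ^ 2) : ℝ) : ℂ) := by rw [hz]; push_cast; ring
  have him : z.im = ε.im := by rw [hzz, Complex.sub_im, Complex.ofReal_im, sub_zero]
  have hzi : 0 < z.im := by rw [him]; linarith
  have hzs : z ∈ slitPlane := mem_slit_of_im_pos hzi
  have hz0 : z ≠ 0 := slitPlane_ne_zero hzs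
  have hb : β ^ 2 / (4 * r ^ 2) ≤ 1 / 16 := by
    rw [div_le_iff₀ (by positivity)]
    nlinarith
  have hb0 : 0 ≤ β ^ 2 / (4 * r ^ 2) := by positivity
  have hn : ‖z‖ ≤ (5 / 2) ^ 2 := by
    rw [hzz]
    refine (norm_sub_le _ _).trans ?_
    rw [Complex.norm_real, Real.norm_of_nonneg hb0]
    norm_num
    linarith
  obtain ⟨h1, h2, h3⟩ := csq_bounds hη (by rw [him]; exact hε) hn (by norm_num)
  refine ⟨csq_sq hz0, h1, h2, ?_, ?_⟩
  · refine le_trans (le_of_eq ?_) h3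
    norm_num
  · have hd : HasDerivAt (fun r : ℝ => ε - β ^ 2 / (4 * (r : ℂ) ^ 2)) (β ^ 2 / (2 * (r : ℂ) ^ 3)) r := by
      have hrc : (r : ℂ) ≠ 0 := by exact_mod_cast hr0.ne'
      have e1 : HasDerivAt (fun r : ℝ => (r : ℂ)) 1 r := Complex.ofRealCLM.hasDerivAt
      have e2 : HasDerivAt (fun r : ℝ => 4 * (r : ℂ) ^ 2) (4 * (2 * (r : ℂ))) r := by
        have := (e1.fun_pow 2).const_mul (4 : ℂ)
        simpa using this
      have e3 := (e2.fun_inv (by simpa using hrc)).const_mul ((β : ℂ) ^ 2)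
      have e4 := e3.const_sub ε
      refine (e4.congr_deriv ?_)
      field_simp
      ring
    have hc : HasDerivAt (mom ε β) _ r := (csq_hasDerivAt hzs).scomp r hd
    refine hc.congr_deriv ?_
    rw [smul_eq_mul]
    change _ * (1 / (2 * mom ε β r)) = _
    have : mom ε β r ≠ 0 := csq_ne_zero _
    have hrc : (r : ℂ) ≠ 0 := by exact_mod_cast hr0.ne'
    field_simp
    ring

theorem ext_cone (hh : 0 < h) (hη : 0 < η) (hη1 : η ≤ 1) (hβ : h * n ≤ 1 / 2) (hε : η ≤ ε.im)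
    (hεn : ‖ε‖ ≤ 5) (hsmall : 4 * h ≤ η ^ 3)
    (hf : ∀ r, 1 ≤ r → HasDerivAt f (f1 r / h) r)
    (hf1 : ∀ r : ℝ, 1 ≤ r → HasDerivAt f1 ((-((h * n) / r) * f1 r - ε * f r) / h) r)
    (hlim : Tendsto (fun r : ℝ => r ^ n * (‖f r‖ ^ 2 + ‖f1 r‖ ^ 2)) atTop (𝓝 0)) :
    ‖f1 1 + ((h * n : ℝ) / 2) * f 1 - I * mom ε (h * n) 1 * f 1‖ ≤
      4 * h / η ^ 3 * ‖f1 1 + ((h * n : ℝ) / 2) * f 1 + I * mom ε (h * n) 1 * f 1‖ := by
  obtain ⟨β, hβd⟩ : ∃ β : ℝ, β = h * n := ⟨_, rfl⟩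
  have hβc : ((h : ℂ) * n) = (β : ℂ) := by rw [hβd]; push_cast; ring
  rw [hβc] at hf1
  rw [← hβd] at hβ ⊢
  have hβ0 : 0 ≤ β := by rw [hβd]; positivity
  obtain ⟨P, hP⟩ : ∃ P : ℝ → ℂ, P = mom ε β := ⟨_, rfl⟩
  have hPr := fun r (hr : 1 ≤ r) => mom_prop (η := η) (β := β) (ε := ε) hη hβ0 hβ hε hεn hr
  rw [← hP] at hPr ⊢
  have hP0 : ∀ r, P r ≠ 0 := fun r => by rw [hP]; exact csq_ne_zero _
  set Bp : ℝ → ℂ := fun r => f1 r + (β / (2 * r)) * f r - I * P r * f r with hBp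
  set Bm : ℝ → ℂ := fun r => f1 r + (β / (2 * r)) * f r + I * P r * f r with hBm
  set k : ℝ := 4 * h / η ^ 3 with hk
  have hk0 : 0 ≤ k := by positivity
  have hk1 : k ≤ 1 := by rw [hk, div_le_one (by positivity)]; exact hsmall
  set lam : ℝ := η / (5 * h) with hlam
  have hlam0 : 0 < lam := by positivity
  set c : ℝ := 1 / (2 * η ^ 2) with hc
  have hc0 : 0 ≤ c := by positivity
  have hclam : c ≤ lam := by
    rw [hc, hlam, div_le_div_iff₀ (by positivity) (by positivity)]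
    nlinarith [pow_pos hη 3]
  have hck : 2 * c = 5 / 4 * (k * lam) := by
    rw [hc, hk, hlam]
    field_simp
  -- derivatives of B
  have hdiv : ∀ r : ℝ, 1 ≤ r → HasDerivAt (fun r : ℝ => (β : ℂ) / (2 * r)) (-(β / (2 * (r : ℂ) ^ 2))) r := by
    intro r hr
    have hrc : (r : ℂ) ≠ 0 := by exact_mod_cast (by linarith : r ≠ 0)
    have e1 : HasDerivAt (fun r : ℝ => (r : ℂ)) 1 r := Complex.ofRealCLM.hasDerivAt
    have e2 := (e1.const_mul (2 : ℂ))
    have e3 := (e2.fun_inv (by simpa using hrc)).const_mul (β : ℂ)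
    refine e3.congr_deriv ?_
    field_simp
  have hdBp : ∀ r : ℝ, 1 ≤ r → HasDerivAt Bp
      ((-(β / (2 * r)) - I * P r) * Bp r / h -
        (β / (2 * (r : ℂ) ^ 2) + I * (β ^ 2 / (4 * r ^ 3 * P r))) * f r) r := by
    intro r hr
    have hrc : (r : ℂ) ≠ 0 := by exact_mod_cast (by linarith : r ≠ 0)
    have hhc : (h : ℂ) ≠ 0 := by exact_mod_cast hh.ne'
    obtain ⟨h1, -, -, -, h5⟩ := hPr r hr
    have e1 := ((hf1 r hr).add ((hdiv r hr).mul (hf r hr))).sub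
      ((h5.const_mul I).mul (hf r hr))
    refine e1.congr_deriv ?_
    rw [show Bp r = f1 r + (β / (2 * r)) * f r - I * P r * f r from rfl]
    have h6 : ε = P r ^ 2 + β ^ 2 / (4 * (r : ℂ) ^ 2) := by rw [h1]; ring
    have hI : I ^ 2 = -1 := Complex.I_sq
    rw [h6]
    have := hP0 r
    field_simp
    ring_nf
    rw [hI]
    ring
  have hdBm : ∀ r : ℝ, 1 ≤ r → HasDerivAt Bm
      ((-(β / (2 * r)) + I * P r) * Bm r / h -
        (β / (2 * (r : ℂ) ^ 2) - I * (β ^ 2 / (4 * r ^ 3 * P r))) * f r) r := by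
    intro r hr
    have hrc : (r : ℂ) ≠ 0 := by exact_mod_cast (by linarith : r ≠ 0)
    have hhc : (h : ℂ) ≠ 0 := by exact_mod_cast hh.ne'
    obtain ⟨h1, -, -, -, h5⟩ := hPr r hr
    have e1 := ((hf1 r hr).add ((hdiv r hr).mul (hf r hr))).add
      ((h5.const_mul I).mul (hf r hr))
    refine e1.congr_deriv ?_
    rw [show Bm r = f1 r + (β / (2 * r)) * f r + I * P r * f r from rfl]
    have h6 : ε = P r ^ 2 + β ^ 2 / (4 * (r : ℂ) ^ 2) := by rw [h1]; ring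
    have hI : I ^ 2 = -1 := Complex.I_sq
    rw [h6]
    have := hP0 r
    field_simp
    ring_nf
    rw [hI]
    ring
  -- the function D
  set D : ℝ → ℝ := fun r => r ^ n * (‖Bp r‖ ^ 2 - k ^ 2 * ‖Bm r‖ ^ 2) with hD
  have hcb : ∀ r : ℝ, 1 ≤ r →
      2 * (‖(β / (2 * (r : ℂ) ^ 2) + I * (β ^ 2 / (4 * r ^ 3 * P r)) : ℂ)‖ * ‖f r‖) ≤
        c * (‖Bp r‖ + ‖Bm r‖) ∧
      2 * (‖(β / (2 * (r : ℂ) ^ 2) - I * (β ^ 2 / (4 * r ^ 3 * P r)) : ℂ)‖ * ‖f r‖) ≤
        c * (‖Bp r‖ + ‖Bm r‖) := by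
    intro r hr
    obtain ⟨h1, h2, h3, h4, h5⟩ := hPr r hr
    have hr0 : 0 < r := by linarith
    have hr2 : 1 ≤ r ^ 2 := one_le_pow₀ hr
    have hr3 : 1 ≤ r ^ 3 := one_le_pow₀ hr
    have hPn : η ≤ ‖P r‖ := by
      by_contra hcon
      push Not at hcon
      have h6 : ‖P r‖ ^ 2 < η ^ 2 := by
        have := norm_nonneg (P r)
        nlinarith
      nlinarith
    have hPpos : 0 < ‖P r‖ := lt_of_lt_of_le hη hPn
    have ha : ‖((β : ℂ) / (2 * (r : ℂ) ^ 2))‖ ≤ 1 / (4 * η) := by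
      rw [norm_div, norm_mul, norm_pow, Complex.norm_real, Complex.norm_real,
        Real.norm_of_nonneg hβ0, Real.norm_of_nonneg hr0.le, Complex.norm_ofNat]
      rw [div_le_div_iff₀ (by positivity) (by positivity)]
      nlinarith
    have hb : ‖I * ((β : ℂ) ^ 2 / (4 * (r : ℂ) ^ 3 * P r))‖ ≤ 1 / (4 * η) := by
      rw [norm_mul, Complex.norm_I, one_mul, norm_div, norm_mul, norm_mul, norm_pow, norm_pow,
        Complex.norm_real, Complex.norm_real,
        Real.norm_of_nonneg hβ0, Real.norm_of_nonneg hr0.le, Complex.norm_ofNat]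
      rw [div_le_div_iff₀ (by positivity) (by positivity)]
      have h7 : β ^ 2 ≤ 1 := by nlinarith
      have h8 : η ≤ r ^ 3 * ‖P r‖ := by nlinarith
      nlinarith
    have hsum : (1 : ℝ) / (4 * η) + 1 / (4 * η) = 1 / (2 * η) := by field_simp; ring
    have hf' : ‖f r‖ ≤ (‖Bp r‖ + ‖Bm r‖) / (2 * η) := by
      have h6 : Bm r - Bp r = 2 * I * P r * f r := by simp only [hBp, hBm]; ring
      have h7 : ‖Bm r - Bp r‖ = 2 * ‖P r‖ * ‖f r‖ := by
        rw [h6, norm_mul, norm_mul, norm_mul, Complex.norm_I, Complex.norm_ofNat, mul_one]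
      have h8 := norm_sub_le (Bm r) (Bp r)
      rw [le_div_iff₀ (by positivity)]
      have h9 : η * ‖f r‖ ≤ ‖P r‖ * ‖f r‖ := mul_le_mul_of_nonneg_right hPn (norm_nonneg _)
      nlinarith
    have hfn := norm_nonneg (f r)
    have hBB : 0 ≤ ‖Bp r‖ + ‖Bm r‖ := by positivity
    have key : ∀ w : ℂ, ‖w‖ ≤ 1 / (2 * η) → 2 * (‖w‖ * ‖f r‖) ≤ c * (‖Bp r‖ + ‖Bm r‖) := by
      intro w hw
      have h10 : ‖w‖ * ‖f r‖ ≤ 1 / (2 * η) * ((‖Bp r‖ + ‖Bm r‖) / (2 * η)) :=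
        mul_le_mul hw hf' hfn (by positivity)
      have h11 : 2 * (1 / (2 * η) * ((‖Bp r‖ + ‖Bm r‖) / (2 * η))) = c * (‖Bp r‖ + ‖Bm r‖) := by
        rw [hc]; field_simp
      linarith
    refine ⟨key _ ?_, key _ ?_⟩
    · exact (norm_add_le _ _).trans (by rw [← hsum]; exact add_le_add ha hb)
    · exact (norm_sub_le _ _).trans (by rw [← hsum]; exact add_le_add ha hb)
  have hDd : ∀ r : ℝ, 1 ≤ r → ∃ D' : ℝ, HasDerivAt D D' r ∧ lam / 2 * D r ≤ D' := by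
    intro r hr
    obtain ⟨h1, h2, h3, h4, h5⟩ := hPr r hr
    have hr0 : 0 < r := by linarith
    have hrn : 0 < r ^ n := pow_pos hr0 n
    have e1 := (hdBp r hr).norm_sq
    have e2 := (hdBm r hr).norm_sq
    have e3 := (hasDerivAt_pow n r).mul (e1.sub (e2.const_mul (k ^ 2)))
    refine ⟨_, e3, ?_⟩
    have hn : (n : ℝ) = β / h := by rw [hβd]; field_simp
    have hpow : (n : ℝ) * r ^ (n - 1) = r ^ n * (β / (h * r)) := by
      rcases Nat.eq_zero_or_pos n with h0 | h0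
      · have : β = 0 := by rw [hβd, h0]; simp
        rw [this, h0]; simp
      · have : r ^ n = r ^ (n - 1) * r := by
          conv_lhs => rw [show n = n - 1 + 1 by omega]
          rw [pow_succ]
        rw [this, hn]
        field_simp
    rw [hpow]
    -- compute the inner products
    set x := ‖Bp r‖ with hx
    set y := ‖Bm r‖ with hy
    set cp : ℂ := (β / (2 * (r : ℂ) ^ 2) + I * (β ^ 2 / (4 * r ^ 3 * P r))) with hcp
    set cm : ℂ := (β / (2 * (r : ℂ) ^ 2) - I * (β ^ 2 / (4 * r ^ 3 * P r))) with hcm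
    have ip : inner ℝ (Bp r) ((-(β / (2 * r)) - I * P r) * Bp r / h - cp * f r) =
        (-(β / (2 * r)) + (P r).im) / h * x ^ 2 - ((starRingEnd ℂ) (Bp r) * (cp * f r)).re := by
      rw [inner_sub_right, inner_conj, inner_conj]
      congr 1
      have h6 : (starRingEnd ℂ) (Bp r) * ((-(β / (2 * r)) - I * P r) * Bp r / h) =
          ((-(β / (2 * r)) - I * P r) / h) * ((x ^ 2 : ℝ) : ℂ) := by
        rw [hx, ← Complex.normSq_eq_norm_sq, Complex.normSq_eq_conj_mul_self]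
        ring
      rw [h6, Complex.re_mul_ofReal, Complex.div_ofReal_re]
      congr 2
      simp only [Complex.sub_re, Complex.neg_re, Complex.mul_re, Complex.I_re, Complex.I_im]
      rw [show (β : ℂ) / (2 * r) = ((β / (2 * r) : ℝ) : ℂ) by push_cast; ring, Complex.ofReal_re]
      ring
    have im' : inner ℝ (Bm r) ((-(β / (2 * r)) + I * P r) * Bm r / h - cm * f r) =
        (-(β / (2 * r)) - (P r).im) / h * y ^ 2 - ((starRingEnd ℂ) (Bm r) * (cm * f r)).re := by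
      rw [inner_sub_right, inner_conj, inner_conj]
      congr 1
      have h6 : (starRingEnd ℂ) (Bm r) * ((-(β / (2 * r)) + I * P r) * Bm r / h) =
          ((-(β / (2 * r)) + I * P r) / h) * ((y ^ 2 : ℝ) : ℂ) := by
        rw [hy, ← Complex.normSq_eq_norm_sq, Complex.normSq_eq_conj_mul_self]
        ring
      rw [h6, Complex.re_mul_ofReal, Complex.div_ofReal_re]
      congr 2
      simp only [Complex.add_re, Complex.neg_re, Complex.mul_re, Complex.I_re, Complex.I_im]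
      rw [show (β : ℂ) / (2 * r) = ((β / (2 * r) : ℝ) : ℂ) by push_cast; ring, Complex.ofReal_re]
      ring
    obtain ⟨hc1, hc2⟩ := hcb r hr
    have hx0 : 0 ≤ x := norm_nonneg _
    have hy0 : 0 ≤ y := norm_nonneg _
    have i1 : 2 * |((starRingEnd ℂ) (Bp r) * (cp * f r)).re| ≤ c * (x + y) * x := by
      have := re_conj_mul_le (Bp r) cp (f r)
      have h7 : x * (2 * (‖cp‖ * ‖f r‖)) ≤ x * (c * (x + y)) := mul_le_mul_of_nonneg_left hc1 hx0
      linarith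
    have i2 : 2 * |((starRingEnd ℂ) (Bm r) * (cm * f r)).re| ≤ c * (x + y) * y := by
      have := re_conj_mul_le (Bm r) cm (f r)
      have h7 : y * (2 * (‖cm‖ * ‖f r‖)) ≤ y * (c * (x + y)) := mul_le_mul_of_nonneg_left hc2 hy0
      linarith
    have hlamP : lam ≤ (P r).im / h := by
      rw [hlam, div_le_div_iff₀ (by positivity) hh]
      have := mul_le_mul_of_nonneg_right h4 (by positivity : (0 : ℝ) ≤ 5 * h)
      linarith
    refine (real_ineq (β := β) hh hr0 hrn hlam0 hk0 hk1 hclam hc0 hck hx0 hy0 hlamP i1 i2).trans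
      (le_of_eq ?_)
    rw [← ip, ← im']
    rfl
  -- the limit of D
  have hDlim : Tendsto D atTop (𝓝 0) := by
    have hb : ∀ r : ℝ, 1 ≤ r → |D r| ≤ 32 * (r ^ n * (‖f r‖ ^ 2 + ‖f1 r‖ ^ 2)) := by
      intro r hr
      obtain ⟨h1, h2, h3, h4, h5⟩ := hPr r hr
      have hr0 : 0 < r := by linarith
      have hrn : 0 < r ^ n := pow_pos hr0 n
      have hbr : ‖((β : ℂ) / (2 * r))‖ ≤ 1 / 4 := by
        rw [norm_div, norm_mul, Complex.norm_real, Complex.norm_real,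
          Real.norm_of_nonneg hβ0, Real.norm_of_nonneg hr0.le, Complex.norm_ofNat]
        rw [div_le_div_iff₀ (by positivity) (by positivity)]
        nlinarith
      have hfn := norm_nonneg (f r)
      have hf1n := norm_nonneg (f1 r)
      have a1 : ‖(β / (2 * r) : ℂ) * f r‖ ≤ 1 / 4 * ‖f r‖ := by
        rw [norm_mul]; exact mul_le_mul_of_nonneg_right hbr hfn
      have a2 : ‖I * P r * f r‖ ≤ 5 / 2 * ‖f r‖ := by
        rw [norm_mul, norm_mul, Complex.norm_I, one_mul]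
        exact mul_le_mul_of_nonneg_right h2 hfn
      have b1 : ‖Bp r‖ ≤ ‖f1 r‖ + 11 / 4 * ‖f r‖ := by
        have := norm_sub_le (f1 r + (β / (2 * r)) * f r) (I * P r * f r)
        have h3 := norm_add_le (f1 r) ((β / (2 * r)) * f r)
        simp only [hBp]
        linarith
      have b2 : ‖Bm r‖ ≤ ‖f1 r‖ + 11 / 4 * ‖f r‖ := by
        have := norm_add_le (f1 r + (β / (2 * r)) * f r) (I * P r * f r)
        have h3 := norm_add_le (f1 r) ((β / (2 * r)) * f r)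
        simp only [hBm]
        linarith
      have c1 : ‖Bp r‖ ^ 2 ≤ 16 * (‖f r‖ ^ 2 + ‖f1 r‖ ^ 2) := by
        have := norm_nonneg (Bp r)
        nlinarith [sq_nonneg (‖f1 r‖ - ‖f r‖)]
      have c2 : ‖Bm r‖ ^ 2 ≤ 16 * (‖f r‖ ^ 2 + ‖f1 r‖ ^ 2) := by
        have := norm_nonneg (Bm r)
        nlinarith [sq_nonneg (‖f1 r‖ - ‖f r‖)]
      have hk2 : k ^ 2 ≤ 1 := by nlinarith
      have d1 : |‖Bp r‖ ^ 2 - k ^ 2 * ‖Bm r‖ ^ 2| ≤ 32 * (‖f r‖ ^ 2 + ‖f1 r‖ ^ 2) := by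
        have h9 : k ^ 2 * ‖Bm r‖ ^ 2 ≤ ‖Bm r‖ ^ 2 := by nlinarith [sq_nonneg ‖Bm r‖]
        have h10 : 0 ≤ k ^ 2 * ‖Bm r‖ ^ 2 := by positivity
        have h11 : 0 ≤ ‖Bp r‖ ^ 2 := by positivity
        rw [abs_le]
        constructor <;> nlinarith
      simp only [hD]
      rw [abs_mul, abs_of_pos hrn]
      nlinarith
    refine squeeze_zero_norm' ?_ (by simpa using hlim.const_mul 32)
    filter_upwards [eventually_ge_atTop 1] with r hr
    exact hb r hr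
  -- monotonicity
  have hmono : MonotoneOn (fun r => D r * Real.exp (-(lam / 2) * r)) (Ici 1) := by
    have hder : ∀ r, 1 ≤ r → ∃ G' : ℝ, HasDerivAt (fun r => D r * Real.exp (-(lam / 2) * r)) G' r ∧
        0 ≤ G' := by
      intro r hr
      obtain ⟨D', hD', hle⟩ := hDd r hr
      have e1 : HasDerivAt (fun r : ℝ => Real.exp (-(lam / 2) * r))
          (Real.exp (-(lam / 2) * r) * (-(lam / 2))) r := by
        have := ((hasDerivAt_id r).const_mul (-(lam / 2))).exp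
        simpa using this
      refine ⟨_, hD'.mul e1, ?_⟩
      have h9 := Real.exp_pos (-(lam / 2) * r)
      nlinarith
    apply monotoneOn_of_deriv_nonneg (convex_Ici 1)
    · intro r hr
      obtain ⟨G', hG', -⟩ := hder r hr
      exact hG'.continuousAt.continuousWithinAt
    · intro r hr
      rw [interior_Ici] at hr
      obtain ⟨G', hG', -⟩ := hder r (le_of_lt hr)
      exact hG'.differentiableAt.differentiableWithinAt
    · intro r hr
      rw [interior_Ici] at hr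
      obtain ⟨G', hG', h0⟩ := hder r (le_of_lt hr)
      rw [hG'.deriv]
      exact h0
  have hD1 : D 1 ≤ 0 := by
    by_contra hcon
    push Not at hcon
    have h9 : ∀ r, 1 ≤ r → D 1 ≤ D r := by
      intro r hr
      have h10 := hmono (mem_Ici.2 (le_refl (1 : ℝ))) (mem_Ici.2 hr) hr
      simp only at h10
      have h11 : Real.exp (-(lam / 2) * r) ≤ Real.exp (-(lam / 2) * 1) := by
        apply Real.exp_le_exp.2
        nlinarith
      have h12 := Real.exp_pos (-(lam / 2) * r)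
      have h13 : D 1 * Real.exp (-(lam / 2) * r) ≤ D 1 * Real.exp (-(lam / 2) * 1) :=
        mul_le_mul_of_nonneg_left h11 hcon.le
      exact le_of_mul_le_mul_right (h13.trans h10) h12
    have h10 : D 1 ≤ 0 := by
      refine ge_of_tendsto hDlim ?_
      filter_upwards [eventually_ge_atTop 1] with r hr using h9 r hr
    linarith
  have hfin : ‖Bp 1‖ ^ 2 ≤ (k * ‖Bm 1‖) ^ 2 := by
    simp only [hD, one_pow, one_mul] at hD1
    nlinarith
  have hfin2 : ‖Bp 1‖ ≤ k * ‖Bm 1‖ := by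
    have h0 : 0 ≤ k * ‖Bm 1‖ := by positivity
    nlinarith [norm_nonneg (Bp 1)]
  simp only [hBp, hBm] at hfin2
  simpa using hfin2

end

end Pool.Agent.K3h97.BP
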