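import Mathlib

/-! Zeros of the matching function, locally. -/

set_option autoImplicit false

open Complex Filter Topology Set

namespace Pool.Agent.K3h97.BP

/-- minimum modulus principle -/
lemma exists_zero_of_lt {f : ℂ → ℂ} {c : ℂ} {r m : ℝ} (hr : 0 < r)
    (hf : ∀ z, ‖z - c‖ ≤ r → DifferentiableAt ℂ f z) (hc : ‖f c‖ < m)
    (hm : ∀ z, ‖z - c‖ = r → m ≤ ‖f z‖) : ∃ z, ‖z - c‖ ≤ r ∧ f z = 0 := by
  by_contra hcon
  push Not at hcon
  have hm0 : 0 < m := lt_of_le_of_lt (norm_nonneg _) hc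
  have hd : DiffContOnCl ℂ (fun z => (f z)⁻¹) (Metric.ball c r) := by
    have h1 : DifferentiableOn ℂ (fun z => (f z)⁻¹) (Metric.closedBall c r) := by
      intro z hz
      have hz' : ‖z - c‖ ≤ r := by rwa [Metric.mem_closedBall, dist_eq_norm] at hz
      exact ((hf z hz').inv (hcon z hz')).differentiableWithinAt
    refine ⟨h1.mono Metric.ball_subset_closedBall, ?_⟩
    rw [closure_ball c hr.ne']
    exact h1.continuousOn
  have h2 := Complex.norm_le_of_forall_mem_frontier_norm_le (Metric.isBounded_ball) hd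
    (C := m⁻¹) (z := c) (by
      intro z hz
      rw [frontier_ball c hr.ne', mem_sphere_iff_norm] at hz
      rw [norm_inv]
      exact inv_anti₀ hm0 (hm z hz))
    (by rw [closure_ball c hr.ne']; exact Metric.mem_closedBall_self hr.le)
  rw [norm_inv] at h2
  have h3 : 0 < ‖f c‖ := norm_pos_iff.2 (hcon c (by simpa using hr.le))
  have h4 := (inv_le_inv₀ h3 hm0).1 h2
  linarith

lemma pert {a : ℂ} {R δ : ℝ} {B e : ℂ → ℂ} (hR : 0 ≤ R) (ha : ‖a‖ ≤ 1) (hδ : 0 ≤ δ)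
    (hB : ∀ z, ‖z‖ ≤ R → HasDerivAt B (-a * B z + e z) z) (he : ∀ z, ‖z‖ ≤ R → ‖e z‖ ≤ δ)
    (z : ℂ) (hz : ‖z‖ ≤ R) :
    ‖B z - B 0 * cexp (-(a * z))‖ ≤ Real.exp R ^ 2 * R * δ := by
  have hexp : ∀ w : ℂ, ‖w‖ ≤ R → ‖cexp (a * w)‖ ≤ Real.exp R ∧ ‖cexp (-(a * w))‖ ≤ Real.exp R := by
    intro w hw
    have h1 : ‖a * w‖ ≤ R := by
      rw [norm_mul]
      have := norm_nonneg w
      nlinarith
    constructor
    · refine (Complex.norm_exp_le_exp_norm _).trans (Real.exp_le_exp.2 h1)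
    · refine (Complex.norm_exp_le_exp_norm _).trans (Real.exp_le_exp.2 ?_)
      rwa [norm_neg]
  have hG : ∀ w ∈ Metric.closedBall (0 : ℂ) R, HasDerivWithinAt (fun z => cexp (a * z) * B z)
      (cexp (a * w) * e w) (Metric.closedBall (0 : ℂ) R) w := by
    intro w hw
    rw [mem_closedBall_zero_iff] at hw
    have h1 : HasDerivAt (fun z : ℂ => a * z) a w := by
      simpa using (hasDerivAt_id w).const_mul a
    have h2 := h1.cexp.mul (hB w hw)
    refine HasDerivAt.hasDerivWithinAt (h2.congr_deriv ?_)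
    ring
  have h3 := Convex.norm_image_sub_le_of_norm_hasDerivWithin_le (C := Real.exp R * δ) hG
    (by
      intro w hw
      rw [mem_closedBall_zero_iff] at hw
      rw [norm_mul]
      exact mul_le_mul (hexp w hw).1 (he w hw) (norm_nonneg _) (Real.exp_pos _).le)
    (convex_closedBall 0 R) (Metric.mem_closedBall_self hR) (mem_closedBall_zero_iff.2 hz)
  rw [mul_zero, Complex.exp_zero, one_mul, sub_zero] at h3
  have h4 : B z - B 0 * cexp (-(a * z)) = cexp (-(a * z)) * (cexp (a * z) * B z - B 0) := by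
    rw [mul_sub, ← mul_assoc, ← Complex.exp_add, neg_add_cancel, Complex.exp_zero, one_mul]
    ring
  rw [h4, norm_mul]
  have h5 : Real.exp R * δ * ‖z‖ ≤ Real.exp R * δ * R :=
    mul_le_mul_of_nonneg_left hz (by positivity)
  calc ‖cexp (-(a * z))‖ * ‖cexp (a * z) * B z - B 0‖ ≤ Real.exp R * (Real.exp R * δ * R) :=
        mul_le_mul (hexp z hz).2 (h3.trans h5) (norm_nonneg _) (Real.exp_pos _).le
    _ = _ := by ring

lemma one_sub_exp_lb {p : ℝ} {w : ℂ} (hp : 9 / 10 ≤ p) (hp1 : p ≤ 1) (hw : ‖w‖ = p / 2) :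
    1 / 5 ≤ ‖1 - cexp w‖ := by
  have h5 := Complex.norm_exp_sub_one_sub_id_le (x := w) (by rw [hw]; linarith)
  have h6 : ‖w‖ ≤ ‖cexp w - 1 - w‖ + ‖1 - cexp w‖ := by
    have h7 : w = -(cexp w - 1 - w) - (1 - cexp w) := by ring
    calc ‖w‖ = ‖-(cexp w - 1 - w) - (1 - cexp w)‖ := by rw [← h7]
      _ ≤ ‖-(cexp w - 1 - w)‖ + ‖1 - cexp w‖ := norm_sub_le _ _
      _ = _ := by rw [norm_neg]
  rw [hw] at h5 h6
  have h8 : (p / 2) ^ 2 ≤ 1 / 4 := by nlinarith
  linarith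

lemma mul_two_le {A B p : ℝ} (hA : 0 ≤ A) (hAB : A ≤ B) (hp : p ≤ 1) : A * (2 * p) ≤ B * 2 := by
  nlinarith

theorem local_zero {τ σ β h δ R : ℝ} {q : ℂ} {J J1 y : ℂ → ℂ}
    (hτ : 0 < τ) (hτ1 : τ ≤ 1) (hσ1 : 7 / 5 ≤ σ) (hσ2 : σ ≤ 17 / 10) (hβ0 : 0 ≤ β)
    (hβ : β ≤ 1 / 2) (hh : 0 < h) (hδ : 0 ≤ δ) (hR : R = Real.log (25 / τ) + 5)
    (hq : q ^ 2 = ((σ ^ 2 - β ^ 2 / 4 : ℝ) : ℂ) + I * τ) (hqre : 0 < q.re)
    (hJ : ∀ z, ‖z‖ ≤ R → HasDerivAt J (J1 z) z)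
    (hJ1 : ∀ z, ‖z‖ ≤ R → HasDerivAt J1 (-(β / (σ + h * z)) * J1 z - J z) z)
    (hr0 : (starRingEnd ℂ) (J 0) = J 0) (hr1 : (starRingEnd ℂ) (J1 0) = J1 0)
    (hne : J 0 = 0 → J1 0 = 0 → False)
    (hy : ∀ z, ‖z‖ ≤ R → ‖y z + β / 2 - I * q‖ ≤ δ)
    (hyd : ∀ z, ‖z‖ ≤ R → DifferentiableAt ℂ y z)
    (hsmall : (h + δ) * (17000 * Real.exp R ^ 6) ≤ τ) :
    ∃ z, ‖z‖ ≤ R ∧ |z.re| ≤ 2 ∧ (σ + h * z) * J1 z - y z * J z = 0 := by
  -- constants
  have hσ0 : 0 < σ := by linarith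
  have hlog : 0 ≤ Real.log (25 / τ) := by
    apply Real.log_nonneg
    rw [le_div_iff₀ hτ]
    linarith
  have hR5 : 5 ≤ R := by linarith
  have hR0 : 0 ≤ R := by linarith
  obtain ⟨E, hE⟩ : ∃ E : ℝ, E = Real.exp R := ⟨_, rfl⟩
  have hER : R ≤ E := by
    rw [hE]
    have := Real.add_one_le_exp R
    linarith
  have hE1 : 1 ≤ E := by linarith
  have hE0 : 0 < E := by linarith
  rw [← hE] at hsmall
  have hE6 : E ^ 4 ≤ E ^ 6 := pow_le_pow_right₀ hE1 (by norm_num)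
  have hE5 : E ≤ E ^ 6 := by
    calc E = E ^ 1 := (pow_one E).symm
      _ ≤ E ^ 6 := pow_le_pow_right₀ hE1 (by norm_num)
  have hhE : h * (17000 * E ^ 6) ≤ 1 := by
    have : h * (17000 * E ^ 6) ≤ (h + δ) * (17000 * E ^ 6) := by
      refine mul_le_mul_of_nonneg_right (by linarith) (by positivity)
    linarith
  have hhE4 : 2 * (E ^ 4 * h) ≤ 1 / 8 := by
    have e1 := mul_le_mul_of_nonneg_left hE6 hh.le
    linarith only [e1, hhE, mul_pos hh (pow_pos hE0 6)]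
  have hhR : h * R ≤ 1 / 100 := by
    have : h * R ≤ h * E ^ 6 := mul_le_mul_of_nonneg_left (hER.trans hE5) hh.le
    linarith only [this, hhE, mul_pos hh (pow_pos hE0 6)]
  obtain ⟨p, hp⟩ : ∃ p : ℝ, p = Real.sqrt (1 - β ^ 2 / (4 * σ ^ 2)) := ⟨_, rfl⟩
  have hb4 : β ^ 2 / (4 * σ ^ 2) ≤ 1 / 25 := by
    rw [div_le_iff₀ (by positivity)]
    nlinarith only [hβ0, hβ, hσ1]
  have hb40 : 0 ≤ β ^ 2 / (4 * σ ^ 2) := by positivity
  have hp2 : p ^ 2 = 1 - β ^ 2 / (4 * σ ^ 2) := by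
    rw [hp, Real.sq_sqrt (by linarith)]
  have hp0 : 0 ≤ p := by rw [hp]; exact Real.sqrt_nonneg _
  have hp1 : p ≤ 1 := by nlinarith only [hp2, hb40, hp0]
  have hp49 : 49 / 50 - 1/500 ≤ p := by nlinarith only [hp2, hb4, hp0]
  have hppos : 0 < p := by linarith
  obtain ⟨q₀, hq₀⟩ : ∃ q₀ : ℝ, q₀ = σ * p := ⟨_, rfl⟩
  have hq₀2 : q₀ ^ 2 = σ ^ 2 - β ^ 2 / 4 := by
    rw [hq₀, mul_pow, hp2]
    field_simp
  have hq₀1 : 13 / 10 ≤ q₀ := by rw [hq₀]; nlinarith only [hp49, hσ1]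
  have hq₀u : q₀ ≤ 17 / 10 := by rw [hq₀]; nlinarith only [hp1, hσ2, hp0, hσ0]
  rw [← hq₀2] at hq
  -- bounds for q
  have hqq : (q - q₀) * (q + q₀) = I * τ := by
    have : (q - q₀) * (q + q₀) = q ^ 2 - ((q₀ ^ 2 : ℝ) : ℂ) := by push_cast; ring
    rw [this, hq]
    ring
  have hqn : ‖q‖ ≤ 2 := by
    have h1 : ‖q‖ ^ 2 ≤ 4 := by
      rw [← norm_pow, hq]
      refine (norm_add_le _ _).trans ?_
      rw [Complex.norm_real, norm_mul, Complex.norm_I, one_mul, Complex.norm_real,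
        Real.norm_of_nonneg (by positivity), Real.norm_of_nonneg hτ.le]
      nlinarith only [hq₀1, hq₀u, hτ1]
    nlinarith only [norm_nonneg q, h1]
  have hqpn : ‖q + q₀‖ ≤ 5 := by
    refine (norm_add_le _ _).trans ?_
    rw [Complex.norm_real, Real.norm_of_nonneg (by linarith)]
    linarith
  have hqre2 : q₀ ≤ q.re := by
    have h1 : q.re ^ 2 - q.im ^ 2 = q₀ ^ 2 := by
      have := congrArg Complex.re hq
      rw [pow_two, Complex.mul_re] at this
      simp only [Complex.add_re, Complex.ofReal_re, Complex.mul_re, Complex.I_re, Complex.I_im,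
        Complex.ofReal_im] at this
      linarith only [this]
    by_contra hcon
    push Not at hcon
    nlinarith only [sq_nonneg q.im, h1, hcon, hqre, hq₀1]
  have hqpl : 2 ≤ ‖q + q₀‖ := by
    have h1 := (le_abs_self _).trans (Complex.abs_re_le_norm (q + q₀))
    simp only [Complex.add_re, Complex.ofReal_re] at h1
    linarith
  have hqmn : ‖q - q₀‖ * ‖q + q₀‖ = τ := by
    rw [← norm_mul, hqq, norm_mul, Complex.norm_I, one_mul, Complex.norm_real,
      Real.norm_of_nonneg hτ.le]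
  have hqml : τ / 5 ≤ ‖q - q₀‖ := by
    rw [div_le_iff₀ (by norm_num)]
    calc τ = ‖q - q₀‖ * ‖q + q₀‖ := hqmn.symm
      _ ≤ ‖q - q₀‖ * 5 := mul_le_mul_of_nonneg_left hqpn (norm_nonneg _)
  have hqm0 : q - q₀ ≠ 0 := by
    intro h0
    rw [h0, norm_zero] at hqml
    linarith
  have hqp0 : q + q₀ ≠ 0 := by
    intro h0
    rw [h0, norm_zero] at hqpl
    linarith
  -- the exponents
  obtain ⟨a, ha⟩ : ∃ a : ℂ, a = ((β / (2 * σ) : ℝ) : ℂ) + I * p := ⟨_, rfl⟩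
  obtain ⟨a', ha'⟩ : ∃ a' : ℂ, a' = ((β / (2 * σ) : ℝ) : ℂ) - I * p := ⟨_, rfl⟩
  have hconj : (starRingEnd ℂ) a = a' := by
    rw [ha, ha']
    simp only [map_add, map_mul, Complex.conj_ofReal, Complex.conj_I]
    ring
  have haa : a * a' = 1 := by
    rw [ha, ha']
    have h1 : (((β / (2 * σ) : ℝ) : ℂ) + I * p) * (((β / (2 * σ) : ℝ) : ℂ) - I * p) =
        (((β / (2 * σ)) ^ 2 + p ^ 2 : ℝ) : ℂ) := by
      push_cast
      linear_combination -(p : ℂ) ^ 2 * Complex.I_sq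
    rw [h1, hp2]
    have h2 : (β / (2 * σ)) ^ 2 + (1 - β ^ 2 / (4 * σ ^ 2)) = 1 := by field_simp; ring
    rw [h2, Complex.ofReal_one]
  have hna : ‖a‖ = 1 := by
    have h1 : ‖a‖ ^ 2 = 1 := by
      have h2 : ‖a‖ * ‖a'‖ = 1 := by rw [← norm_mul, haa, norm_one]
      rw [← hconj, RCLike.norm_conj] at h2
      rw [pow_two, h2]
    nlinarith only [norm_nonneg a, h1]
  have hna' : ‖a'‖ = 1 := by rw [← hconj, RCLike.norm_conj, hna]
  have hsub : a - a' = 2 * I * p := by rw [ha, ha']; ring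
  have hadd : a + a' = ((β / σ : ℝ) : ℂ) := by
    rw [ha, ha']; push_cast; field_simp; ring
  have hpc : (p : ℂ) ≠ 0 := by exact_mod_cast hppos.ne'
  -- the combinations
  set Bp : ℂ → ℂ := fun z => J1 z + a' * J z with hBp
  set Bm : ℂ → ℂ := fun z => J1 z + a * J z with hBm
  set e : ℂ → ℂ := fun z => (β / σ - β / (σ + h * z)) * J1 z with he
  have hdBp : ∀ z, ‖z‖ ≤ R → HasDerivAt Bp (-a * Bp z + e z) z := by
    intro z hz
    have h1 := (hJ1 z hz).add ((hJ z hz).const_mul a')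
    refine HasDerivAt.congr_deriv (f := Bp) h1 ?_
    simp only [hBp, he]
    have h2 : ((β : ℂ) / σ) = a + a' := by rw [hadd]; push_cast; ring
    rw [h2]
    linear_combination (J z) * haa
  have hdBm : ∀ z, ‖z‖ ≤ R → HasDerivAt Bm (-a' * Bm z + e z) z := by
    intro z hz
    have h1 := (hJ1 z hz).add ((hJ z hz).const_mul a)
    refine HasDerivAt.congr_deriv (f := Bm) h1 ?_
    simp only [hBm, he]
    have h2 : ((β : ℂ) / σ) = a + a' := by rw [hadd]; push_cast; ring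
    rw [h2]
    linear_combination (J z) * haa
  have hJB : ∀ z, J z = (Bm z - Bp z) / (2 * I * p) := by
    intro z
    simp only [hBm, hBp]
    rw [eq_div_iff (mul_ne_zero (mul_ne_zero two_ne_zero Complex.I_ne_zero) hpc), ← hsub]
    ring
  have hJ1B : ∀ z, J1 z = Bp z - a' * J z := by
    intro z
    simp only [hBp]
    ring
  -- a maximum
  have hcJ : ContinuousOn J (Metric.closedBall 0 R) := fun z hz =>
    (hJ z (mem_closedBall_zero_iff.1 hz)).continuousAt.continuousWithinAt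
  have hcJ1 : ContinuousOn J1 (Metric.closedBall 0 R) := fun z hz =>
    (hJ1 z (mem_closedBall_zero_iff.1 hz)).continuousAt.continuousWithinAt
  obtain ⟨z₁, hz₁, hmax⟩ := (isCompact_closedBall (0 : ℂ) R).exists_isMaxOn
    ⟨0, Metric.mem_closedBall_self hR0⟩ (hcJ.norm.add hcJ1.norm)
  obtain ⟨S, hS⟩ : ∃ S : ℝ, S = ‖J z₁‖ + ‖J1 z₁‖ := ⟨_, rfl⟩
  have hSle : ∀ z, ‖z‖ ≤ R → ‖J z‖ + ‖J1 z‖ ≤ S := by
    intro z hz
    rw [hS]
    exact hmax (mem_closedBall_zero_iff.2 hz)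
  have hS0 : 0 ≤ S := by rw [hS]; positivity
  have hsz : ∀ z : ℂ, ‖z‖ ≤ R → 1 ≤ ‖(σ : ℂ) + h * z‖ := by
    intro z hz
    have h1 : ‖(σ : ℂ)‖ ≤ ‖(σ : ℂ) + h * z‖ + ‖(h : ℂ) * z‖ := by
      have := norm_sub_le ((σ : ℂ) + h * z) (h * z)
      rwa [add_sub_cancel_right] at this
    rw [Complex.norm_real, Real.norm_of_nonneg hσ0.le, norm_mul, Complex.norm_real,
      Real.norm_of_nonneg hh.le] at h1
    have h2 : h * ‖z‖ ≤ h * R := mul_le_mul_of_nonneg_left hz hh.le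
    linarith
  have hen : ∀ z, ‖z‖ ≤ R → ‖e z‖ ≤ h * R / 2 * S := by
    intro z hz
    have h1 := hsz z hz
    have h0 : (σ : ℂ) + h * z ≠ 0 := by
      intro h0
      rw [h0, norm_zero] at h1
      linarith
    have hσc : (σ : ℂ) ≠ 0 := by exact_mod_cast hσ0.ne'
    have h2 : (β / σ - β / (σ + h * z) : ℂ) = β * (h * z) / (σ * (σ + h * z)) := by
      field_simp
      ring
    simp only [he]
    rw [norm_mul, h2, norm_div, norm_mul, norm_mul, norm_mul, Complex.norm_real, Complex.norm_real,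
      Complex.norm_real, Real.norm_of_nonneg hβ0, Real.norm_of_nonneg hh.le,
      Real.norm_of_nonneg hσ0.le]
    have h3 : β * (h * ‖z‖) / (σ * ‖(σ : ℂ) + h * z‖) ≤ h * R / 2 := by
      rw [div_le_iff₀ (by positivity)]
      have h4 : h * ‖z‖ ≤ h * R := mul_le_mul_of_nonneg_left hz hh.le
      have h5 : 1 ≤ σ * ‖(σ : ℂ) + h * z‖ := by nlinarith only [h1, hσ1]
      have h6 : 0 ≤ h * ‖z‖ := by positivity
      have h7 : β * (h * ‖z‖) ≤ 1 / 2 * (h * R) :=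
        mul_le_mul hβ h4 h6 (by norm_num)
      have h8 : h * R / 2 * 1 ≤ h * R / 2 * (σ * ‖(σ : ℂ) + h * z‖) :=
        mul_le_mul_of_nonneg_left h5 (by positivity)
      linarith
    have h4 : ‖J1 z‖ ≤ S := by
      have := hSle z hz
      have := norm_nonneg (J z)
      linarith
    exact mul_le_mul h3 h4 (norm_nonneg _) (by positivity)
  obtain ⟨η₁, hη₁⟩ : ∃ η₁ : ℝ, η₁ = E ^ 2 * R * (h * R / 2) := ⟨_, rfl⟩
  have hη₁0 : 0 ≤ η₁ := by rw [hη₁]; positivity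
  have hη₁le : η₁ ≤ E ^ 4 * h / 2 := by
    rw [hη₁]
    have h1 : R * R ≤ E * E := mul_le_mul hER hER hR0 hE0.le
    have h2 : 0 ≤ E ^ 2 * h := by positivity
    have h3 := mul_le_mul_of_nonneg_left h1 h2
    linarith only [h3]
  have hη₁s : 4 * η₁ ≤ 1 / 2 := by linarith
  have hpp := fun z hz => pert hR0 hna.le (by positivity : 0 ≤ h * R / 2 * S) hdBp hen z hz
  have hpm := fun z hz => pert hR0 hna'.le (by positivity : 0 ≤ h * R / 2 * S) hdBm hen z hz
  have hηS : Real.exp R ^ 2 * R * (h * R / 2 * S) = η₁ * S := by rw [← hE, hη₁]; ring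
  rw [hηS] at hpp hpm
  have hexpR : ∀ b : ℂ, ‖b‖ = 1 → ∀ z : ℂ, ‖z‖ ≤ R → ‖cexp (-(b * z))‖ ≤ E ∧
      1 / E ≤ ‖cexp (-(b * z))‖ := by
    intro b hb z hz
    have h1 : ‖b * z‖ ≤ R := by rw [norm_mul, hb, one_mul]; exact hz
    have h2 : |(b * z).re| ≤ R := (Complex.abs_re_le_norm _).trans h1
    rw [abs_le] at h2
    rw [Complex.norm_exp, Complex.neg_re, hE]
    constructor
    · apply Real.exp_le_exp.2; linarith
    · rw [one_div, ← Real.exp_neg]
      apply Real.exp_le_exp.2; linarith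
  obtain ⟨M0, hM0⟩ : ∃ M0 : ℝ, M0 = ‖J 0‖ + ‖J1 0‖ := ⟨_, rfl⟩
  have hBp0 : ‖Bp 0‖ ≤ M0 := by
    simp only [hBp]
    refine (norm_add_le _ _).trans ?_
    rw [norm_mul, hna', one_mul, hM0]
    linarith
  have hBm0 : ‖Bm 0‖ ≤ M0 := by
    simp only [hBm]
    refine (norm_add_le _ _).trans ?_
    rw [norm_mul, hna, one_mul, hM0]
    linarith
  have hM00 : 0 ≤ M0 := by rw [hM0]; positivity
  have hBpn : ∀ z, ‖z‖ ≤ R → ‖Bp z‖ ≤ E * M0 + η₁ * S := by
    intro z hz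
    have h1 := hpp z hz
    have h2 : ‖Bp z‖ ≤ ‖Bp z - Bp 0 * cexp (-(a * z))‖ + ‖Bp 0 * cexp (-(a * z))‖ := by
      have := norm_add_le (Bp z - Bp 0 * cexp (-(a * z))) (Bp 0 * cexp (-(a * z)))
      rwa [sub_add_cancel] at this
    have h3 : ‖Bp 0 * cexp (-(a * z))‖ ≤ M0 * E := by
      rw [norm_mul]
      exact mul_le_mul hBp0 (hexpR a hna z hz).1 (norm_nonneg _) hM00
    linarith
  have hBmn : ∀ z, ‖z‖ ≤ R → ‖Bm z‖ ≤ E * M0 + η₁ * S := by
    intro z hz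
    have h1 := hpm z hz
    have h2 : ‖Bm z‖ ≤ ‖Bm z - Bm 0 * cexp (-(a' * z))‖ + ‖Bm 0 * cexp (-(a' * z))‖ := by
      have := norm_add_le (Bm z - Bm 0 * cexp (-(a' * z))) (Bm 0 * cexp (-(a' * z)))
      rwa [sub_add_cancel] at this
    have h3 : ‖Bm 0 * cexp (-(a' * z))‖ ≤ M0 * E := by
      rw [norm_mul]
      exact mul_le_mul hBm0 (hexpR a' hna' z hz).1 (norm_nonneg _) hM00
    linarith
  have hdivn : ∀ u v : ℂ, ∀ x : ℝ, ‖u‖ ≤ x → ‖v‖ ≤ x → ‖(u - v) / (2 * I * p)‖ ≤ 11 / 10 * x := by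
    intro u v x hu hv
    rw [norm_div, norm_mul, norm_mul, Complex.norm_I, Complex.norm_ofNat, Complex.norm_real,
      Real.norm_of_nonneg hp0, mul_one]
    rw [div_le_iff₀ (by positivity)]
    have h1 := norm_sub_le u v
    have hx : 0 ≤ x := (norm_nonneg _).trans hu
    nlinarith only [h1, hu, hv, hx, hp49]
  have hSb : S ≤ 8 * (E * M0) := by
    have hz₁' : ‖z₁‖ ≤ R := mem_closedBall_zero_iff.1 hz₁
    have h1 := hBpn z₁ hz₁'
    have h2 := hBmn z₁ hz₁'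
    have h3 : ‖J z₁‖ ≤ 11 / 10 * (E * M0 + η₁ * S) := by
      rw [hJB z₁]
      exact hdivn _ _ _ h2 h1
    have h4 : ‖J1 z₁‖ ≤ ‖Bp z₁‖ + ‖J z₁‖ := by
      rw [hJ1B z₁]
      refine (norm_sub_le _ _).trans ?_
      rw [norm_mul, hna', one_mul]
    have h5 : S ≤ 4 * (E * M0) + 4 * η₁ * S := by
      have hEM : 0 ≤ E * M0 := by positivity
      have hηS0 : 0 ≤ η₁ * S := by positivity
      rw [hS] at *
      linarith
    have h6 : 4 * η₁ * S ≤ 1 / 2 * S := mul_le_mul_of_nonneg_right hη₁s hS0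
    linarith
  -- the initial value
  obtain ⟨b₀, hb₀⟩ : ∃ b₀ : ℂ, b₀ = Bm 0 := ⟨_, rfl⟩
  have hb₀' : Bp 0 = (starRingEnd ℂ) b₀ := by
    rw [hb₀]
    simp only [hBp, hBm, map_add, map_mul, hr0, hr1, hconj]
  have hM0b : M0 ≤ 4 * ‖b₀‖ := by
    have h1 : ‖J 0‖ ≤ 11 / 10 * ‖b₀‖ := by
      rw [hJB 0, ← hb₀, hb₀']
      exact hdivn _ _ _ le_rfl (by rw [RCLike.norm_conj])
    have h2 : ‖J1 0‖ ≤ ‖b₀‖ + ‖J 0‖ := by
      rw [hJ1B 0, hb₀']
      refine (norm_sub_le _ _).trans ?_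
      rw [norm_mul, hna', one_mul, RCLike.norm_conj]
    rw [hM0]
    have := norm_nonneg b₀
    linarith
  have hb₀pos : 0 < ‖b₀‖ := by
    rcases (norm_nonneg b₀).lt_or_eq with h1 | h1
    · exact h1
    · exfalso
      rw [← h1] at hM0b
      have h2 : M0 = 0 := by linarith
      rw [hM0] at h2
      have h3 : ‖J 0‖ = 0 := by linarith [norm_nonneg (J 0), norm_nonneg (J1 0)]
      have h4 : ‖J1 0‖ = 0 := by linarith [norm_nonneg (J 0), norm_nonneg (J1 0)]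
      exact hne (norm_eq_zero.1 h3) (norm_eq_zero.1 h4)
  have hSb2 : S ≤ 32 * E * ‖b₀‖ := by
    have h1 : E * M0 ≤ E * (4 * ‖b₀‖) := mul_le_mul_of_nonneg_left hM0b hE0.le
    linarith
  -- the model function
  set T0 : ℂ → ℂ := fun z => ((q₀ + q) * ((starRingEnd ℂ) b₀ * cexp (-(a * z))) +
    (q₀ - q) * (b₀ * cexp (-(a' * z)))) / (2 * p) with hT0
  set T : ℂ → ℂ := fun z => (σ + h * z) * J1 z - y z * J z with hT
  have hTT0 : ∀ z, ‖z‖ ≤ R → ‖T z - T0 z‖ ≤ 160 * E ^ 5 * (h + δ) * ‖b₀‖ := by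
    intro z hz
    have e1 := hpp z hz
    have e2 := hpm z hz
    rw [hb₀'] at e1
    rw [← hb₀] at e2
    obtain ⟨u, hu⟩ : ∃ u : ℂ, u = Bp z - (starRingEnd ℂ) b₀ * cexp (-(a * z)) := ⟨_, rfl⟩
    obtain ⟨v, hv⟩ : ∃ v : ℂ, v = Bm z - b₀ * cexp (-(a' * z)) := ⟨_, rfl⟩
    rw [← hu] at e1
    rw [← hv] at e2
    have h1 : (starRingEnd ℂ) b₀ * cexp (-(a * z)) = Bp z - u := by rw [hu]; ring
    have h2 : b₀ * cexp (-(a' * z)) = Bm z - v := by rw [hv]; ring
    have h3 : T z - T0 z = h * z * J1 z - (y z + β / 2 - I * q) * J z +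
        ((q₀ + q) * u + (q₀ - q) * v) / (2 * p) := by
      simp only [hT, hT0]
      rw [h1, h2, hJ1B z, hJB z]
      have h4 : (q₀ : ℂ) = σ * p := by rw [hq₀]; push_cast; ring
      have h5 : a' = ((β / (2 * σ) : ℝ) : ℂ) - I * p := ha'
      have hσc : (σ : ℂ) ≠ 0 := by exact_mod_cast hσ0.ne'
      rw [h4, h5]
      push_cast
      have hI := Complex.I_sq
      have hI0 := Complex.I_ne_zero
      field_simp
      ring_nf
    rw [h3]
    have hJz := hSle z hz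
    have hJn := norm_nonneg (J z)
    have hJ1n := norm_nonneg (J1 z)
    have n1 : ‖(h : ℂ) * z * J1 z‖ ≤ h * R * S := by
      rw [norm_mul, norm_mul, Complex.norm_real, Real.norm_of_nonneg hh.le]
      have : h * ‖z‖ ≤ h * R := mul_le_mul_of_nonneg_left hz hh.le
      exact mul_le_mul this (by linarith) hJ1n (by positivity)
    have n2 : ‖(y z + β / 2 - I * q) * J z‖ ≤ δ * S := by
      rw [norm_mul]
      exact mul_le_mul (hy z hz) (by linarith) hJn hδ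
    have n3 : ‖((q₀ + q) * u + (q₀ - q) * v) / (2 * p)‖ ≤ 5 * (η₁ * S) := by
      rw [norm_div, norm_mul, Complex.norm_ofNat, Complex.norm_real, Real.norm_of_nonneg hp0,
        div_le_iff₀ (by positivity)]
      have m1 : ‖(q₀ + q) * u‖ ≤ 4 * (η₁ * S) := by
        rw [norm_mul]
        refine mul_le_mul ?_ e1 (norm_nonneg _) (by norm_num)
        refine (norm_add_le _ _).trans ?_
        rw [Complex.norm_real, Real.norm_of_nonneg (by linarith)]
        linarith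
      have m2 : ‖(q₀ - q) * v‖ ≤ 4 * (η₁ * S) := by
        rw [norm_mul]
        refine mul_le_mul ?_ e2 (norm_nonneg _) (by norm_num)
        refine (norm_sub_le _ _).trans ?_
        rw [Complex.norm_real, Real.norm_of_nonneg (by linarith)]
        linarith
      have m3 := norm_add_le ((q₀ + q) * u) ((q₀ - q) * v)
      have m4 : 0 ≤ η₁ * S := by positivity
      nlinarith only [m1, m2, m3, m4, hp49]
    have n4 := norm_add_le ((h : ℂ) * z * J1 z - (y z + β / 2 - I * q) * J z)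
      (((q₀ + q) * u + (q₀ - q) * v) / (2 * p))
    have n5 := norm_sub_le ((h : ℂ) * z * J1 z) ((y z + β / 2 - I * q) * J z)
    have n6 : ‖(h : ℂ) * z * J1 z - (y z + β / 2 - I * q) * J z +
        ((q₀ + q) * u + (q₀ - q) * v) / (2 * p)‖ ≤ (h * R + δ + 5 * η₁) * S := by
      linarith
    refine n6.trans ?_
    have n7 : h * R + δ + 5 * η₁ ≤ 5 * (E ^ 4 * (h + δ)) := by
      have k1 : R ≤ E ^ 4 := hER.trans (by
        calc E = E ^ 1 := (pow_one E).symm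
          _ ≤ E ^ 4 := pow_le_pow_right₀ hE1 (by norm_num))
      have k2 : h * R ≤ h * E ^ 4 := mul_le_mul_of_nonneg_left k1 hh.le
      have k3 : 1 ≤ E ^ 4 := one_le_pow₀ hE1
      have k4 : δ ≤ E ^ 4 * δ := by nlinarith only [k3, hδ]
      linarith only [k2, k4, hη₁le, mul_nonneg (pow_nonneg hE0.le 4) hh.le,
        mul_nonneg (pow_nonneg hE0.le 4) hδ]
    calc (h * R + δ + 5 * η₁) * S ≤ 5 * (E ^ 4 * (h + δ)) * (32 * E * ‖b₀‖) := by
          refine mul_le_mul n7 hSb2 hS0 (by positivity)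
      _ = 160 * E ^ 5 * (h + δ) * ‖b₀‖ := by ring
  -- the zero of the model function
  obtain ⟨X, hX⟩ : ∃ X : ℂ, X = (q + q₀) * (starRingEnd ℂ) b₀ / ((q - q₀) * b₀) := ⟨_, rfl⟩
  have hb₀0 : b₀ ≠ 0 := norm_pos_iff.1 hb₀pos
  have hcb₀0 : (starRingEnd ℂ) b₀ ≠ 0 := by
    rw [Ne, map_eq_zero]
    exact hb₀0
  have hX0 : X ≠ 0 := by
    rw [hX]
    exact div_ne_zero (mul_ne_zero hqp0 hcb₀0) (mul_ne_zero hqm0 hb₀0)
  have hXn : ‖X‖ * τ = ‖q + q₀‖ ^ 2 := by
    rw [hX, norm_div, norm_mul, norm_mul, RCLike.norm_conj, ← hqmn]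
    have h1 : ‖q - q₀‖ ≠ 0 := norm_ne_zero_iff.2 hqm0
    field_simp
  have hXu : ‖X‖ ≤ 25 / τ := by
    rw [le_div_iff₀ hτ, hXn]
    nlinarith only [norm_nonneg (q + q₀), hqpn]
  have hXl : 1 ≤ ‖X‖ := by
    have : 4 ≤ ‖X‖ * τ := by rw [hXn]; nlinarith only [hqpl]
    have h0 := norm_nonneg X
    nlinarith only [this, h0, hτ, hτ1]
  obtain ⟨z₀, hz₀⟩ : ∃ z₀ : ℂ, z₀ = Complex.log X / (2 * I * p) := ⟨_, rfl⟩
  have hlogn : ‖Complex.log X‖ ≤ Real.log (25 / τ) + Real.pi := by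
    have h1 : Complex.log X = ((Real.log ‖X‖ : ℝ) : ℂ) + (X.arg : ℂ) * I := rfl
    rw [h1]
    refine (norm_add_le _ _).trans ?_
    rw [norm_mul, Complex.norm_I, mul_one, Complex.norm_real, Complex.norm_real,
      Real.norm_of_nonneg (Real.log_nonneg hXl)]
    refine add_le_add (Real.log_le_log (by linarith) hXu) ?_
    exact Complex.abs_arg_le_pi X
  have hpi : Real.pi ≤ 3.15 := Real.pi_lt_d2.le
  have hz₀n : ‖z₀‖ ≤ R - 1 := by
    rw [hz₀, norm_div, norm_mul, norm_mul, Complex.norm_I, Complex.norm_ofNat, Complex.norm_real,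
      Real.norm_of_nonneg hp0, mul_one, div_le_iff₀ (by positivity)]
    nlinarith only [hlogn, hpi, hR, hlog, hp49]
  have hz₀re : |z₀.re| ≤ 7 / 4 := by
    have h1 : z₀ = ((X.arg / (2 * p) : ℝ) : ℂ) - I * ((Real.log ‖X‖ / (2 * p) : ℝ) : ℂ) := by
      have h2 : Complex.log X = ((Real.log ‖X‖ : ℝ) : ℂ) + (X.arg : ℂ) * I := rfl
      rw [hz₀, h2]
      push_cast
      have hI0 := Complex.I_ne_zero
      field_simp
      linear_combination (Real.log ‖X‖ : ℂ) * Complex.I_sq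
    have h3 : z₀.re = X.arg / (2 * p) := by
      rw [h1]
      simp only [Complex.sub_re, Complex.ofReal_re, Complex.mul_re, Complex.I_re, Complex.I_im,
        Complex.ofReal_im]
      ring
    rw [h3, abs_div, abs_of_pos (by positivity : 0 < 2 * p), div_le_iff₀ (by positivity)]
    have := Complex.abs_arg_le_pi X
    nlinarith only [this, hpi, hp49]
  have hTmodel : ∀ z, T0 z = (q₀ - q) * b₀ * cexp (-(a' * z)) / (2 * p) *
      (1 - cexp (-(2 * I * p) * (z - z₀))) := by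
    intro z
    simp only [hT0]
    have h1 : cexp (-(2 * I * p) * (z - z₀)) = cexp (-(2 * I * p) * z) * X := by
      have : -(2 * I * p) * (z - z₀) = -(2 * I * p) * z + Complex.log X := by
        rw [hz₀]
        have hI0 := Complex.I_ne_zero
        field_simp
        ring
      rw [this, Complex.exp_add, Complex.exp_log hX0]
    have h2 : cexp (-(a * z)) = cexp (-(a' * z)) * cexp (-(2 * I * p) * z) := by
      rw [← Complex.exp_add]
      congr 1
      have : a = a' + 2 * I * p := by rw [← hsub]; ring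
      rw [this]
      ring
    rw [h1, h2, hX]
    field_simp
    ring
  -- conclusion
  obtain ⟨c0, hc0⟩ : ∃ c0 : ℝ, c0 = τ * ‖b₀‖ / (50 * E) := ⟨_, rfl⟩
  have herr : 160 * E ^ 5 * (h + δ) * ‖b₀‖ * 2 < c0 := by
    rw [hc0, lt_div_iff₀ (by positivity)]
    have h1 : 16000 * E ^ 6 * (h + δ) < τ := by
      have : 0 < E ^ 6 * (h + δ) := by positivity
      linarith only [this, hsmall]
    calc 160 * E ^ 5 * (h + δ) * ‖b₀‖ * 2 * (50 * E) = 16000 * E ^ 6 * (h + δ) * ‖b₀‖ := by ring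
      _ < τ * ‖b₀‖ := mul_lt_mul_of_pos_right h1 hb₀pos
  have hzin : ∀ z : ℂ, ‖z - z₀‖ ≤ 1 / 4 → ‖z‖ ≤ R := by
    intro z hz
    have := norm_add_le (z - z₀) z₀
    rw [sub_add_cancel] at this
    linarith
  obtain ⟨z, hz, hTz⟩ := exists_zero_of_lt (f := T) (c := z₀) (r := 1 / 4)
    (m := c0 - 160 * E ^ 5 * (h + δ) * ‖b₀‖) (by norm_num)
    (by
      intro z hz
      have hzR := hzin z hz
      simp only [hT]
      refine DifferentiableAt.sub (DifferentiableAt.mul ?_ (hJ1 z hzR).differentiableAt)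
        ((hyd z hzR).mul (hJ z hzR).differentiableAt)
      fun_prop)
    (by
      have h1 := hTT0 z₀ (by linarith)
      have h2 : T0 z₀ = 0 := by
        rw [hTmodel z₀, sub_self, mul_zero, Complex.exp_zero, sub_self, mul_zero]
      rw [h2, sub_zero] at h1
      linarith)
    (by
      intro z hz
      have hzR := hzin z hz.le
      have h1 := hTT0 z hzR
      have h2 : c0 ≤ ‖T0 z‖ := by
        rw [hTmodel z, norm_mul, norm_div, norm_mul, norm_mul, norm_mul, Complex.norm_ofNat,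
          Complex.norm_real, Real.norm_of_nonneg hp0]
        have k1 : 1 / 5 ≤ ‖1 - cexp (-(2 * I * p) * (z - z₀))‖ := by
          refine one_sub_exp_lb (p := p) (by linarith) hp1 ?_
          rw [norm_mul, norm_neg, norm_mul, norm_mul, Complex.norm_I, Complex.norm_ofNat,
            Complex.norm_real, Real.norm_of_nonneg hp0, hz]
          ring
        have k2 : 1 / E ≤ ‖cexp (-(a' * z))‖ := (hexpR a' hna' z hzR).2
        have k3 : τ / 5 ≤ ‖(q₀ : ℂ) - q‖ := by rw [norm_sub_rev]; exact hqml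
        have k4 : τ / 5 * ‖b₀‖ * (1 / E) / 2 ≤
            ‖(q₀ : ℂ) - q‖ * ‖b₀‖ * ‖cexp (-(a' * z))‖ / (2 * p) := by
          rw [div_le_div_iff₀ (by norm_num) (by positivity)]
          have k5 : τ / 5 * ‖b₀‖ * (1 / E) ≤ ‖(q₀ : ℂ) - q‖ * ‖b₀‖ * ‖cexp (-(a' * z))‖ := by
            gcongr
          have k6 : 0 ≤ τ / 5 * ‖b₀‖ * (1 / E) := by positivity
          exact mul_two_le k6 k5 hp1
        calc c0 = τ / 5 * ‖b₀‖ * (1 / E) / 2 * (1 / 5) := by rw [hc0]; field_simp; norm_num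
          _ ≤ _ := mul_le_mul k4 k1 (by norm_num) (by positivity)
      have h3 : ‖T0 z‖ ≤ ‖T z - T0 z‖ + ‖T z‖ := by
        have := norm_sub_le (T z) (T z - T0 z)
        rw [sub_sub_cancel] at this
        linarith
      linarith)
  refine ⟨z, hzin z hz, ?_, hTz⟩
  have h1 := Complex.abs_re_le_norm (z - z₀)
  rw [Complex.sub_re] at h1
  have h2 := abs_add_le (z.re - z₀.re) z₀.re
  rw [sub_add_cancel] at h2
  linarith

end Pool.Agent.K3h97.BP
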