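import Mathlib

/-! The regular radial solution as a power series. -/

set_option autoImplicit false

open Complex Filter Topology Set

namespace Pool.Agent.K3h97.BP

/-- `∏_{k<n} (4k+2D)` -/
noncomputable def cc (D n : ℕ) : ℝ := ∏ k ∈ Finset.range n, (4 * (k : ℝ) + 2 * D)

lemma cc_zero (D : ℕ) : cc D 0 = 1 := by simp [cc]

lemma cc_succ (D n : ℕ) : cc D (n + 1) = cc D n * (4 * n + 2 * D) := by
  rw [cc, Finset.prod_range_succ, cc]

lemma cc_pos {D : ℕ} (hD : 1 ≤ D) (n : ℕ) : 0 < cc D n := by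
  refine Finset.prod_pos fun k _ => ?_
  have : (1 : ℝ) ≤ D := by exact_mod_cast hD
  positivity

lemma cc_ge_one {D : ℕ} (hD : 1 ≤ D) (n : ℕ) : 1 ≤ cc D n := by
  induction n with
  | zero => rw [cc_zero]
  | succ n ih =>
    rw [cc_succ]
    have h1 : (1 : ℝ) ≤ D := by exact_mod_cast hD
    have h2 : (1 : ℝ) ≤ 4 * n + 2 * D := by
      have : (0 : ℝ) ≤ n := Nat.cast_nonneg n
      linarith
    nlinarith

lemma cc_shift (D n : ℕ) : cc D (n + 1) = 2 * D * cc (D + 2) n := by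
  induction n with
  | zero => simp [cc]
  | succ n ih =>
    rw [cc_succ, ih, cc_succ]
    push_cast
    ring

lemma cc_rel (D n : ℕ) : cc (D + 2) n * (2 * D) = cc D n * (2 * D + 4 * n) := by
  have h1 := cc_shift D n
  have h2 := cc_succ D n
  rw [h2] at h1
  linarith

/-- the terms of the series -/
noncomputable def pt (D n : ℕ) (w : ℂ) : ℂ := (-w) ^ n / ((n.factorial * cc D n : ℝ) : ℂ)

/-- `Σ (-w)^n / (n! ∏_{k<n} (4k+2D))` -/
noncomputable def Phi (D : ℕ) (w : ℂ) : ℂ := ∑' n, pt D n w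

lemma norm_pt_le {D : ℕ} (hD : 1 ≤ D) (n : ℕ) (w : ℂ) : ‖pt D n w‖ ≤ ‖w‖ ^ n / n.factorial := by
  rw [pt, norm_div, norm_pow, norm_neg, Complex.norm_real]
  have h1 := cc_ge_one hD n
  have h2 : (0 : ℝ) < n.factorial := by positivity
  rw [Real.norm_of_nonneg (by positivity)]
  gcongr
  nlinarith

lemma pt_summable {D : ℕ} (hD : 1 ≤ D) (w : ℂ) : Summable fun n => pt D n w :=
  Summable.of_norm_bounded (Real.summable_pow_div_factorial ‖w‖) fun n => norm_pt_le hD n w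

lemma Phi_zero {D : ℕ} : Phi D 0 = 1 := by
  rw [Phi, tsum_eq_single 0]
  · simp [pt, cc_zero]
  · intro n hn
    simp [pt, hn]

lemma Phi_hasDerivAt {D : ℕ} (hD : 1 ≤ D) (w : ℂ) :
    HasDerivAt (Phi D) (-(1 / (2 * D)) * Phi (D + 2) w) w := by
  obtain ⟨R, hR⟩ : ∃ R : ℝ, R = ‖w‖ + 1 := ⟨_, rfl⟩
  have hR0 : 0 < R := by rw [hR]; positivity
  have hterm : ∀ n : ℕ, ∀ y : ℂ, HasDerivAt (fun z => pt D n z)
      (-(n * (-y) ^ (n - 1)) / ((n.factorial * cc D n : ℝ) : ℂ)) y := by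
    intro n y
    have h1 : HasDerivAt (fun z : ℂ => (-z) ^ n) (n * (-y) ^ (n - 1) * (-1)) y :=
      (hasDerivAt_neg y).fun_pow n
    have h2 := h1.div_const ((n.factorial * cc D n : ℝ) : ℂ)
    refine h2.congr_deriv ?_
    ring
  have hsum : Summable (fun n : ℕ => (n : ℝ) * R ^ (n - 1) / n.factorial) := by
    rw [← summable_nat_add_iff 1]
    refine (Real.summable_pow_div_factorial R).congr fun n => ?_
    rw [Nat.add_sub_cancel, Nat.factorial_succ]
    push_cast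
    field_simp
  have key := hasDerivAt_tsum_of_isPreconnected (g := fun n z => pt D n z) (t := Metric.ball 0 R)
    (y₀ := w) (y := w) hsum Metric.isOpen_ball (convex_ball 0 R).isPreconnected
    (fun n y _ => hterm n y)
    (fun n y hy => by
      rw [norm_div, norm_neg, norm_mul, norm_pow, norm_neg, Complex.norm_real, Complex.norm_natCast]
      have h1 := cc_ge_one hD n
      have h2 : (0 : ℝ) < n.factorial := by positivity
      have h3 : ‖y‖ ≤ R := by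
        rw [Metric.mem_ball, dist_zero_right] at hy
        exact hy.le
      rw [Real.norm_of_nonneg (by positivity)]
      gcongr
      nlinarith)
    (by rw [Metric.mem_ball, dist_zero_right, hR]; linarith) (pt_summable hD w)
    (by rw [Metric.mem_ball, dist_zero_right, hR]; linarith)
  refine HasDerivAt.congr_deriv (f := Phi D) key ?_
  have hs : Summable (fun n : ℕ => -(n * (-w) ^ (n - 1)) / ((n.factorial * cc D n : ℝ) : ℂ)) := by
    refine Summable.of_norm_bounded hsum fun n => ?_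
    rw [norm_div, norm_neg, norm_mul, norm_pow, norm_neg, Complex.norm_real, Complex.norm_natCast]
    have h1 := cc_ge_one hD n
    have h2 : (0 : ℝ) < n.factorial := by positivity
    have h3 : ‖w‖ ≤ R := by rw [hR]; linarith
    rw [Real.norm_of_nonneg (by positivity)]
    gcongr
    nlinarith
  rw [hs.tsum_eq_zero_add, Phi, ← tsum_mul_left]
  simp only [Nat.cast_zero, zero_mul, neg_zero, zero_div, zero_add, Nat.add_sub_cancel]
  congr 1
  ext n
  rw [pt, cc_shift, Nat.factorial_succ]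
  have hD0 : (D : ℂ) ≠ 0 := by exact_mod_cast (by omega : D ≠ 0)
  have h4 : ((cc (D + 2) n : ℝ) : ℂ) ≠ 0 := by exact_mod_cast (cc_pos (by omega) n).ne'
  have h5 : ((n.factorial : ℕ) : ℂ) ≠ 0 := by exact_mod_cast (Nat.factorial_pos n).ne'
  have h6 : ((n : ℂ) + 1) ≠ 0 := by exact_mod_cast (Nat.succ_ne_zero n)
  push_cast
  field_simp

lemma Phi_rec {D : ℕ} (hD : 1 ≤ D) (w : ℂ) :
    w / (D * (D + 2)) * Phi (D + 4) w = Phi (D + 2) w - Phi D w := by
  have e1 : Phi (D + 2) w = pt (D + 2) 0 w + ∑' n, pt (D + 2) (n + 1) w :=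
    (pt_summable (by omega) w).tsum_eq_zero_add
  have e2 : Phi D w = pt D 0 w + ∑' n, pt D (n + 1) w :=
    (pt_summable hD w).tsum_eq_zero_add
  have e0 : ∀ E : ℕ, pt E 0 w = 1 := fun E => by simp [pt, cc_zero]
  rw [e1, e2, e0, e0, add_sub_add_left_eq_sub,
    ← ((summable_nat_add_iff 1).2 (pt_summable (by omega : 1 ≤ D + 2) w)).tsum_sub
      ((summable_nat_add_iff 1).2 (pt_summable hD w)), Phi, ← tsum_mul_left]
  congr 1
  ext n
  rw [pt, pt, pt, cc_shift D n, cc_shift (D + 2) n, Nat.factorial_succ]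
  have hD0 : (D : ℂ) ≠ 0 := by exact_mod_cast (by omega : D ≠ 0)
  have hD2 : ((D : ℂ) + 2) ≠ 0 := by exact_mod_cast (by omega : D + 2 ≠ 0)
  have h4 : ((cc (D + 2) n : ℝ) : ℂ) ≠ 0 := by exact_mod_cast (cc_pos (by omega) n).ne'
  have h4' : ((cc (D + 4) n : ℝ) : ℂ) ≠ 0 := by exact_mod_cast (cc_pos (by omega) n).ne'
  have h5 : ((n.factorial : ℕ) : ℂ) ≠ 0 := by exact_mod_cast (Nat.factorial_pos n).ne'
  have h6 : ((n : ℂ) + 1) ≠ 0 := by exact_mod_cast (Nat.succ_ne_zero n)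
  have hrel : ((cc (D + 4) n : ℝ) : ℂ) * (2 * (D + 2)) =
      ((cc (D + 2) n : ℝ) : ℂ) * (2 * (D + 2) + 4 * n) := by
    have := cc_rel (D + 2) n
    exact_mod_cast this
  have hrel' : ((cc (D + 4) n : ℝ) : ℂ) * (D + 2) =
      ((cc (D + 2) n : ℝ) : ℂ) * ((D + 2) + 2 * n) := by
    linear_combination hrel / 2
  have hp : (-w) ^ (n + 1) = -w * (-w) ^ n := by rw [pow_succ]; ring
  rw [hp]
  have hcast : cc (D + 2 + 2) n = cc (D + 4) n := rfl
  rw [hcast]
  push_cast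
  field_simp
  linear_combination (-(w * (-w) ^ n)) * hrel'

lemma Phi_real {D : ℕ} (x : ℝ) : Phi D (x : ℂ) = (((Phi D (x : ℂ)).re : ℝ) : ℂ) := by
  have h1 : Phi D (x : ℂ) = ((∑' n : ℕ, (-x) ^ n / (n.factorial * cc D n) : ℝ) : ℂ) := by
    rw [Complex.ofReal_tsum, Phi]
    congr 1
    ext n
    rw [pt]
    push_cast
    rfl
  rw [h1, Complex.ofReal_re]

/-- the regular solution of `J'' + (D-1)/t J' + J = 0` and its derivative -/
noncomputable def JJ (D : ℕ) (t : ℂ) : ℂ := Phi D (t ^ 2)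

noncomputable def JJ1 (D : ℕ) (t : ℂ) : ℂ := -(t / D) * Phi (D + 2) (t ^ 2)

lemma JJ_hasDerivAt {D : ℕ} (hD : 1 ≤ D) (t : ℂ) : HasDerivAt (JJ D) (JJ1 D t) t := by
  have h1 := (Phi_hasDerivAt hD (t ^ 2)).scomp t (hasDerivAt_pow 2 t)
  refine HasDerivAt.congr_deriv (f := JJ D) h1 ?_
  have hD0 : (D : ℂ) ≠ 0 := by exact_mod_cast (by omega : D ≠ 0)
  rw [JJ1, smul_eq_mul]
  push_cast
  field_simp

lemma JJ1_hasDerivAt' {D : ℕ} (hD : 1 ≤ D) (t : ℂ) :
    HasDerivAt (JJ1 D) (((D : ℂ) - 1) / D * Phi (D + 2) (t ^ 2) - Phi D (t ^ 2)) t := by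
  have h1 := (Phi_hasDerivAt (by omega : 1 ≤ D + 2) (t ^ 2)).scomp t (hasDerivAt_pow 2 t)
  have h2 : HasDerivAt (fun t : ℂ => -(t / D)) (-(1 / D)) t :=
    ((hasDerivAt_id t).div_const (D : ℂ)).fun_neg
  have h3 := h2.mul h1
  refine HasDerivAt.congr_deriv (f := JJ1 D) h3 ?_
  have hD0 : (D : ℂ) ≠ 0 := by exact_mod_cast (by omega : D ≠ 0)
  have hD2 : ((D : ℂ) + 2) ≠ 0 := by exact_mod_cast (by omega : D + 2 ≠ 0)
  have hr := Phi_rec hD (t ^ 2)
  have h4 : t ^ 2 * Phi (D + 4) (t ^ 2) = (D * (D + 2)) * (Phi (D + 2) (t ^ 2) - Phi D (t ^ 2)) := by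
    rw [← hr]; field_simp
  simp only [smul_eq_mul, Function.comp]
  push_cast
  have e : Phi (D + 2 + 2) (t ^ 2) = Phi (D + 4) (t ^ 2) := rfl
  rw [e]
  field_simp
  linear_combination h4

lemma JJ1_hasDerivAt {D : ℕ} (hD : 1 ≤ D) {t : ℂ} (ht : t ≠ 0) :
    HasDerivAt (JJ1 D) (-(((D : ℂ) - 1) / t) * JJ1 D t - JJ D t) t := by
  refine (JJ1_hasDerivAt' hD t).congr_deriv ?_
  have hD0 : (D : ℂ) ≠ 0 := by exact_mod_cast (by omega : D ≠ 0)
  rw [JJ1, JJ]
  field_simp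

lemma JJ_real {D : ℕ} (x : ℝ) : JJ D (x : ℂ) = (((JJ D (x : ℂ)).re : ℝ) : ℂ) := by
  rw [JJ, ← Complex.ofReal_pow]
  exact Phi_real _

lemma JJ1_real {D : ℕ} (x : ℝ) : JJ1 D (x : ℂ) = (((JJ1 D (x : ℂ)).re : ℝ) : ℂ) := by
  have h1 : JJ1 D (x : ℂ) = ((-(x / D) * (Phi (D + 2) ((x ^ 2 : ℝ) : ℂ)).re : ℝ) : ℂ) := by
    rw [JJ1, ← Complex.ofReal_pow]
    push_cast
    rw [← Complex.ofReal_pow, ← Phi_real]
  rw [h1, Complex.ofReal_re]

/-- the regular solution and its derivative do not vanish simultaneously -/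
theorem JJ_ne_zero {D : ℕ} (hD : 1 ≤ D) {t₀ : ℝ} (ht₀ : 0 < t₀) (h0 : JJ D (t₀ : ℂ) = 0)
    (h1 : JJ1 D (t₀ : ℂ) = 0) : False := by
  set f : ℝ → ℝ := fun t => (JJ D (t : ℂ)).re with hf
  set f1 : ℝ → ℝ := fun t => (JJ1 D (t : ℂ)).re with hf1
  have hfd : ∀ t : ℝ, HasDerivAt f (f1 t) t := fun t => (JJ_hasDerivAt hD (t : ℂ)).real_of_complex
  have hf1d : ∀ t : ℝ, 0 < t → HasDerivAt f1 (-(((D : ℝ) - 1) / t) * f1 t - f t) t := by
    intro t ht
    have h2 := (JJ1_hasDerivAt hD (t := (t : ℂ)) (by exact_mod_cast ht.ne')).real_of_complex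
    refine h2.congr_deriv ?_
    rw [JJ_real t, JJ1_real t]
    rw [show -(((D : ℂ) - 1) / (t : ℂ)) * (((JJ1 D (t : ℂ)).re : ℝ) : ℂ) -
      (((JJ D (t : ℂ)).re : ℝ) : ℂ) = ((-(((D : ℝ) - 1) / t) * (JJ1 D (t : ℂ)).re -
      (JJ D (t : ℂ)).re : ℝ) : ℂ) by push_cast; ring, Complex.ofReal_re]
  set Q : ℝ → ℝ := fun t => t ^ (2 * (D - 1)) * (f1 t ^ 2 + f t ^ 2) with hQ
  have hDr : ((D - 1 : ℕ) : ℝ) = (D : ℝ) - 1 := by
    rw [Nat.cast_sub hD]; simp
  have hQd : ∀ t : ℝ, 0 < t → ∃ Q', HasDerivAt Q Q' t ∧ 0 ≤ Q' := by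
    intro t ht
    have e1 := (hasDerivAt_pow (2 * (D - 1)) t).mul
      (((hf1d t ht).fun_pow 2).add ((hfd t).fun_pow 2))
    refine ⟨_, e1, ?_⟩
    have hpow : ((2 * (D - 1) : ℕ) : ℝ) * t ^ (2 * (D - 1) - 1) =
        2 * ((D : ℝ) - 1) / t * t ^ (2 * (D - 1)) := by
      rcases Nat.eq_zero_or_pos (D - 1) with h3 | h3
      · rw [h3]
        have : (D : ℝ) - 1 = 0 := by rw [← hDr, h3]; simp
        rw [this]; simp
      · have h4 : t ^ (2 * (D - 1)) = t ^ (2 * (D - 1) - 1) * t := by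
          rw [← pow_succ]
          congr 1
          omega
        rw [h4]
        push_cast
        rw [hDr]
        field_simp
    rw [hpow]
    have h5 : 0 ≤ (D : ℝ) - 1 := by rw [← hDr]; positivity
    have h6 : 2 * ((D : ℝ) - 1) / t * t ^ (2 * (D - 1)) * (f1 t ^ 2 + f t ^ 2) +
        t ^ (2 * (D - 1)) * (((2 : ℕ) : ℝ) * f1 t ^ (2 - 1) * (-(((D : ℝ) - 1) / t) * f1 t - f t) +
          ((2 : ℕ) : ℝ) * f t ^ (2 - 1) * f1 t) =
        2 * ((D : ℝ) - 1) / t * t ^ (2 * (D - 1)) * f t ^ 2 := by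
      norm_num
      field_simp
      ring
    have h7 : 0 ≤ 2 * ((D : ℝ) - 1) / t * t ^ (2 * (D - 1)) * f t ^ 2 := by positivity
    exact h7.trans (le_of_eq h6.symm)
  have hmono : MonotoneOn Q (Ioi 0) := by
    apply monotoneOn_of_deriv_nonneg (convex_Ioi 0)
    · intro t ht
      obtain ⟨Q', hQ', -⟩ := hQd t ht
      exact hQ'.continuousAt.continuousWithinAt
    · intro t ht
      rw [interior_Ioi] at ht
      obtain ⟨Q', hQ', -⟩ := hQd t ht
      exact hQ'.differentiableAt.differentiableWithinAt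
    · intro t ht
      rw [interior_Ioi] at ht
      obtain ⟨Q', hQ', h2⟩ := hQd t ht
      rw [hQ'.deriv]
      exact h2
  have hQ0 : Q t₀ = 0 := by
    simp only [hQ, hf, hf1, h0, h1]
    simp
  have hz : ∀ t, 0 < t → t ≤ t₀ → f t = 0 := by
    intro t ht htt
    have h2 : Q t ≤ 0 := by
      rw [← hQ0]
      exact hmono ht ht₀ htt
    have h3 : 0 < t ^ (2 * (D - 1)) := by positivity
    have h4 : f1 t ^ 2 + f t ^ 2 ≤ 0 := by
      by_contra hcon
      push Not at hcon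
      have : 0 < Q t := mul_pos h3 hcon
      linarith
    nlinarith [sq_nonneg (f1 t), sq_nonneg (f t)]
  have hcont : Tendsto f (𝓝[>] 0) (𝓝 (f 0)) :=
    (hfd 0).continuousAt.tendsto.mono_left nhdsWithin_le_nhds
  have hlim : Tendsto f (𝓝[>] 0) (𝓝 0) := by
    refine tendsto_const_nhds.congr' ?_
    filter_upwards [Ioc_mem_nhdsGT ht₀] with t ht
    exact (hz t ht.1 ht.2).symm
  have h5 := tendsto_nhds_unique hcont hlim
  simp only [hf, JJ] at h5
  rw [show ((0 : ℝ) : ℂ) ^ 2 = 0 by simp, Phi_zero] at h5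
  simp at h5

end Pool.Agent.K3h97.BP
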