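import Pool.Agent.K3h97.BP.Ext
import Pool.Agent.K3h97.BP.Phi
import Pool.Agent.K3h97.BP.Loc

/-! The zeros of the matching function. -/

set_option autoImplicit false

open Complex Filter Topology Set

namespace Pool.Agent.K3h97.BP

/-- the exterior wave number, `κ² = -(s² + iτ)/h²` -/
noncomputable def kap (h τ : ℝ) (s : ℂ) : ℂ := -(I * csq (s ^ 2 + I * τ) / h)

/-- the solutions with parameter `s` match at the sphere -/
def Matching (h τ : ℝ) (m : ℕ) (s : ℂ) : Prop :=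
  0 < (kap h τ s).re ∧ KI 0 m (kap h τ s) ≠ 0 ∧
    s * JJ1 (m + 2) (s / h) * KI 0 m (kap h τ s) +
      h * kap h τ s * KI 1 m (kap h τ s) * JJ (m + 2) (s / h) = 0

lemma kap_prop {h τ : ℝ} {s : ℂ} (hh : 0 < h) (him : 0 < (s ^ 2 + I * τ).im) :
    0 < (kap h τ s).re ∧ -(h * kap h τ s) ^ 2 = s ^ 2 + I * τ ∧ 0 < (-(kap h τ s) ^ 2).im := by
  have hne : s ^ 2 + I * τ ≠ 0 := slitPlane_ne_zero (mem_slit_of_im_pos him)
  have hhc : (h : ℂ) ≠ 0 := by exact_mod_cast hh.ne'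
  have h1 : -(h * kap h τ s) ^ 2 = s ^ 2 + I * τ := by
    rw [kap]
    have h2 := csq_sq hne
    have h3 : (h : ℂ) * -(I * csq (s ^ 2 + I * τ) / h) = -(I * csq (s ^ 2 + I * τ)) := by
      field_simp
    rw [h3]
    have h4 : -(-(I * csq (s ^ 2 + I * τ))) ^ 2 = -(I ^ 2 * csq (s ^ 2 + I * τ) ^ 2) := by ring
    rw [h4, h2, Complex.I_sq]
    ring
  refine ⟨?_, h1, ?_⟩
  · rw [kap, Complex.neg_re, Complex.div_ofReal_re, Complex.mul_re, Complex.I_re, Complex.I_im]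
    have := csq_im_pos him
    have : 0 < (csq (s ^ 2 + I * τ)).im / h := by positivity
    rw [show -((0 * (csq (s ^ 2 + I * τ)).re - 1 * (csq (s ^ 2 + I * τ)).im) / h) =
      (csq (s ^ 2 + I * τ)).im / h by ring]
    exact this
  · have h2 : -(kap h τ s) ^ 2 = (s ^ 2 + I * τ) * (((h ^ 2)⁻¹ : ℝ) : ℂ) := by
      rw [← h1]
      push_cast
      field_simp
    rw [h2, Complex.im_mul_ofReal]
    positivity

/-- the logarithmic derivative of the exterior solution -/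
lemma ext_log {h η : ℝ} {m : ℕ} {κ ε : ℂ} (hh : 0 < h) (hη : 0 < η) (hη1 : η ≤ 1)
    (hβ : h * (m + 1 : ℕ) ≤ 1 / 2) (hε : η ≤ ε.im) (hεn : ‖ε‖ ≤ 5) (hsmall : 8 * h ≤ η ^ 3)
    (hκ : 0 < κ.re) (hκε : -(h * κ) ^ 2 = ε) (h0 : KI 0 m κ ≠ 0) :
    ‖-(h * κ * KI 1 m κ) / KI 0 m κ + ((h * (m + 1 : ℕ) : ℝ) : ℂ) / 2 -
      I * mom ε (h * (m + 1 : ℕ)) 1‖ ≤ 40 * h / η ^ 3 := by
  have hc := ext_cone (n := m + 1) (f := fo m κ) (f1 := fo1 h m κ) hh hη hη1 hβ hε hεn (by linarith)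
    (fun r hr => fo_hasDerivAt hh hκ (by linarith))
    (fun r hr => by
      have := fo1_hasDerivAt (m := m) hh hκ (by linarith : 0 < r)
      rw [hκε] at this
      exact this)
    (fo_decay h m (m + 1) hκ)
  obtain ⟨P, hP⟩ : ∃ P : ℂ, P = mom ε (h * (m + 1 : ℕ)) 1 := ⟨_, rfl⟩
  have hPb := (mom_prop (η := η) (β := h * (m + 1 : ℕ)) (ε := ε) hη (by positivity) hβ hε hεn
    (le_refl (1 : ℝ))).2.1
  rw [← hP] at hc hPb ⊢
  obtain ⟨b, hb⟩ : ∃ b : ℂ, b = ((h * (m + 1 : ℕ) : ℝ) : ℂ) / 2 := ⟨_, rfl⟩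
  rw [← hb] at hc ⊢
  obtain ⟨y, hy⟩ : ∃ y : ℂ, y = -(h * κ * KI 1 m κ) / KI 0 m κ := ⟨_, rfl⟩
  rw [← hy]
  have hf : fo m κ 1 = KI 0 m κ := by simp [fo]
  have hf1 : fo1 h m κ 1 = y * KI 0 m κ := by
    rw [hy, div_mul_cancel₀ _ h0]
    simp [fo1]
  rw [hf, hf1] at hc
  have e1 : y * KI 0 m κ + b * KI 0 m κ - I * P * KI 0 m κ = (y + b - I * P) * KI 0 m κ := by ring
  have e2 : y * KI 0 m κ + b * KI 0 m κ + I * P * KI 0 m κ = (y + b + I * P) * KI 0 m κ := by ring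
  rw [e1, e2, norm_mul, norm_mul, ← mul_assoc] at hc
  have hpos : 0 < ‖KI 0 m κ‖ := norm_pos_iff.2 h0
  have hc2 : ‖y + b - I * P‖ ≤ 4 * h / η ^ 3 * ‖y + b + I * P‖ := le_of_mul_le_mul_right hc hpos
  have e3 : ‖y + b + I * P‖ ≤ ‖y + b - I * P‖ + 5 := by
    have h1 : y + b + I * P = (y + b - I * P) + 2 * (I * P) := by ring
    rw [h1]
    refine (norm_add_le _ _).trans ?_
    rw [norm_mul, norm_mul, Complex.norm_I, Complex.norm_ofNat]
    linarith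
  have hk : 4 * h / η ^ 3 ≤ 1 / 2 := by
    rw [div_le_iff₀ (by positivity)]
    linarith
  have hk0 : 0 ≤ 4 * h / η ^ 3 := by positivity
  have e4 : 40 * h / η ^ 3 = 10 * (4 * h / η ^ 3) := by ring
  rw [e4]
  have e5 := mul_le_mul_of_nonneg_left e3 hk0
  have e6 := mul_le_mul_of_nonneg_right hk (norm_nonneg (y + b - I * P))
  nlinarith [norm_nonneg (y + b - I * P)]

theorem matching_zero {τ : ℝ} (hτ : 0 < τ) (hτ1 : τ ≤ 1) : ∃ h₀ : ℝ, 0 < h₀ ∧ ∀ h : ℝ, 0 < h →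
    h < h₀ → ∀ m : ℕ, h * (m + 1 : ℕ) ≤ 1 / 2 → ∀ σ : ℝ, 7 / 5 ≤ σ → σ ≤ 17 / 10 →
      ∃ s : ℂ, |s.re - σ| ≤ 2 * h ∧ |s.im| ≤ τ / 16 ∧ Matching h τ m s := by
  obtain ⟨R, hR⟩ : ∃ R : ℝ, R = Real.log (25 / τ) + 5 := ⟨_, rfl⟩
  have hlog : 0 ≤ Real.log (25 / τ) := by
    apply Real.log_nonneg
    rw [le_div_iff₀ hτ]
    linarith
  have hR5 : 5 ≤ R := by linarith
  have hR0 : 0 ≤ R := by linarith
  obtain ⟨E, hE⟩ : ∃ E : ℝ, E = Real.exp R := ⟨_, rfl⟩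
  have hE0 : 0 < E := by rw [hE]; exact Real.exp_pos _
  obtain ⟨C, hC⟩ : ∃ C : ℝ, C = (1 + (320 / τ ^ 3 + 4 * R)) * (17000 * E ^ 6) / τ + 64 / τ ^ 3 +
    64 * R / τ := ⟨_, rfl⟩
  have hC0 : 0 < C := by rw [hC]; positivity
  refine ⟨1 / C, by positivity, fun h hh hh₀ m hm σ hσ1 hσ2 => ?_⟩
  have hhC : h * C ≤ 1 := by
    rw [lt_div_iff₀ hC0] at hh₀
    exact hh₀.le
  rw [hC, mul_add, mul_add] at hhC
  have p1 : 0 ≤ h * ((1 + (320 / τ ^ 3 + 4 * R)) * (17000 * E ^ 6) / τ) := by positivity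
  have p2 : 0 ≤ h * (64 / τ ^ 3) := by positivity
  have p3 : 0 ≤ h * (64 * R / τ) := by positivity
  have c1 : h * ((1 + (320 / τ ^ 3 + 4 * R)) * (17000 * E ^ 6) / τ) ≤ 1 := by linarith
  have c2 : h * (64 / τ ^ 3) ≤ 1 := by linarith
  have c3 : h * (64 * R / τ) ≤ 1 := by linarith
  have c2' : 64 * h ≤ τ ^ 3 := by
    rw [mul_div_assoc', div_le_one (by positivity)] at c2
    linarith
  have c3' : 64 * (h * R) ≤ τ := by
    rw [mul_div_assoc', div_le_one (by positivity)] at c3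
    linarith
  obtain ⟨δ, hδ⟩ : ∃ δ : ℝ, δ = h * (320 / τ ^ 3 + 4 * R) := ⟨_, rfl⟩
  have hδ0 : 0 ≤ δ := by rw [hδ]; positivity
  have c1' : (h + δ) * (17000 * Real.exp R ^ 6) ≤ τ := by
    rw [← hE, hδ]
    rw [mul_div_assoc', div_le_one (by positivity)] at c1
    linarith
  obtain ⟨β, hβ⟩ : ∃ β : ℝ, β = h * (m + 1 : ℕ) := ⟨_, rfl⟩
  have hβ0 : 0 ≤ β := by rw [hβ]; positivity
  rw [← hβ] at hm
  have hσ0 : 0 < σ := by linarith
  have hhc : (h : ℂ) ≠ 0 := by exact_mod_cast hh.ne'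
  -- the points s
  have hsb : ∀ z : ℂ, ‖z‖ ≤ R → ‖((σ : ℂ) + h * z) ^ 2 - σ ^ 2‖ ≤ 4 * (h * R) := by
    intro z hz
    have h1 : ((σ : ℂ) + h * z) ^ 2 - σ ^ 2 = h * z * (2 * σ + h * z) := by ring
    rw [h1, norm_mul]
    have h2 : ‖(h : ℂ) * z‖ ≤ h * R := by
      rw [norm_mul, Complex.norm_real, Real.norm_of_nonneg hh.le]
      exact mul_le_mul_of_nonneg_left hz hh.le
    have h3 : ‖(2 : ℂ) * σ + h * z‖ ≤ 4 := by
      refine (norm_add_le _ _).trans ?_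
      rw [norm_mul (2 : ℂ), Complex.norm_ofNat, Complex.norm_real, Real.norm_of_nonneg hσ0.le]
      have : h * R ≤ 1 / 10 := by nlinarith
      linarith
    calc ‖(h : ℂ) * z‖ * ‖(2 : ℂ) * σ + h * z‖ ≤ (h * R) * 4 :=
          mul_le_mul h2 h3 (norm_nonneg _) (by positivity)
      _ = _ := by ring
  have hεi : ∀ z : ℂ, ‖z‖ ≤ R → τ / 2 ≤ (((σ : ℂ) + h * z) ^ 2 + I * τ).im ∧
      ‖((σ : ℂ) + h * z) ^ 2 + I * τ‖ ≤ 5 := by
    intro z hz
    have h1 := hsb z hz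
    have h2 : (((σ : ℂ) + h * z) ^ 2 + I * τ).im = (((σ : ℂ) + h * z) ^ 2 - σ ^ 2).im + τ := by
      rw [Complex.add_im, Complex.sub_im, ← Complex.ofReal_pow, Complex.ofReal_im]
      simp
    have h3 := (Complex.abs_im_le_norm (((σ : ℂ) + h * z) ^ 2 - σ ^ 2)).trans h1
    rw [abs_le] at h3
    refine ⟨by rw [h2]; linarith [h3.1], ?_⟩
    have h4 : ((σ : ℂ) + h * z) ^ 2 + I * τ = (((σ : ℂ) + h * z) ^ 2 - σ ^ 2) + (σ ^ 2 + I * τ) := by
      ring
    rw [h4]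
    refine (norm_add_le _ _).trans ?_
    have h5 : ‖((σ : ℂ) ^ 2 + I * τ)‖ ≤ σ ^ 2 + τ := by
      refine (norm_add_le _ _).trans ?_
      rw [norm_pow, norm_mul, Complex.norm_I, one_mul, Complex.norm_real, Complex.norm_real,
        Real.norm_of_nonneg hσ0.le, Real.norm_of_nonneg hτ.le]
    nlinarith
  have hkp := fun z (hz : ‖z‖ ≤ R) => kap_prop (h := h) (τ := τ) (s := (σ : ℂ) + h * z) hh
    (lt_of_lt_of_le (by positivity) (hεi z hz).1)
  have hK0 : ∀ z : ℂ, ‖z‖ ≤ R → KI 0 m (kap h τ ((σ : ℂ) + h * z)) ≠ 0 := fun z hz =>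
    KI_ne_zero m (hkp z hz).1 (hkp z hz).2.2
  set y : ℂ → ℂ := fun z => -(h * kap h τ ((σ : ℂ) + h * z) * KI 1 m (kap h τ ((σ : ℂ) + h * z))) /
    KI 0 m (kap h τ ((σ : ℂ) + h * z)) with hy
  obtain ⟨q, hq⟩ : ∃ q : ℂ, q = csq ((σ ^ 2 - β ^ 2 / 4 : ℝ) + I * τ) := ⟨_, rfl⟩
  have hqim : 0 < (((σ ^ 2 - β ^ 2 / 4 : ℝ) : ℂ) + I * τ).im := by
    rw [Complex.add_im, Complex.ofReal_im]
    simp [hτ]
  have hqs := mem_slit_of_im_pos hqim
  have hq2 : q ^ 2 = ((σ ^ 2 - β ^ 2 / 4 : ℝ) : ℂ) + I * τ := by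
    rw [hq]; exact csq_sq (slitPlane_ne_zero hqs)
  have hqre : 0 < q.re := by rw [hq]; exact csq_re_pos hqs
  have hqre1 : 1 ≤ q.re := by
    have h1 : q.re ^ 2 - q.im ^ 2 = σ ^ 2 - β ^ 2 / 4 := by
      have := congrArg Complex.re hq2
      rw [pow_two, Complex.mul_re] at this
      simp only [Complex.add_re, Complex.ofReal_re, Complex.mul_re, Complex.I_re, Complex.I_im,
        Complex.ofReal_im] at this
      nlinarith
    by_contra hcon
    push Not at hcon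
    nlinarith [sq_nonneg q.im]
  have hyb : ∀ z, ‖z‖ ≤ R → ‖y z + β / 2 - I * q‖ ≤ δ := by
    intro z hz
    obtain ⟨k1, k2, k3⟩ := hkp z hz
    obtain ⟨i1, i2⟩ := hεi z hz
    have h1 := ext_log (h := h) (η := τ / 2) (m := m) (κ := kap h τ ((σ : ℂ) + h * z))
      (ε := ((σ : ℂ) + h * z) ^ 2 + I * τ) hh (by positivity) (by linarith) (by rw [← hβ]; exact hm)
      i1 i2 (by
        have : (τ / 2) ^ 3 = τ ^ 3 / 8 := by ring
        rw [this]; linarith) k1 k2 (hK0 z hz)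
    rw [← hβ] at h1
    obtain ⟨P, hP⟩ : ∃ P : ℂ, P = mom (((σ : ℂ) + h * z) ^ 2 + I * τ) β 1 := ⟨_, rfl⟩
    have hPp := mom_prop (η := τ / 2) (β := β) (ε := ((σ : ℂ) + h * z) ^ 2 + I * τ)
      (by positivity) hβ0 hm i1 i2 (le_refl (1 : ℝ))
    rw [← hP] at h1
    have hP2 : P ^ 2 = ((σ : ℂ) + h * z) ^ 2 + I * τ - β ^ 2 / 4 := by
      rw [hP, hPp.1]; norm_num
    have hPre : 0 ≤ P.re := by
      rw [hP, mom]
      refine (csq_re_pos (mem_slit_of_im_pos ?_)).le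
      rw [Complex.sub_im]
      have : ((β : ℂ) ^ 2 / (4 * ((1 : ℝ) : ℂ) ^ 2)).im = 0 := by
        rw [show ((β : ℂ) ^ 2 / (4 * ((1 : ℝ) : ℂ) ^ 2)) = ((β ^ 2 / 4 : ℝ) : ℂ) by push_cast; ring,
          Complex.ofReal_im]
      rw [this, sub_zero]
      linarith
    have hPq : ‖P - q‖ ≤ 4 * (h * R) := by
      have e1 : (P - q) * (P + q) = ((σ : ℂ) + h * z) ^ 2 - σ ^ 2 := by
        have : (P - q) * (P + q) = P ^ 2 - q ^ 2 := by ring
        rw [this, hP2, hq2]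
        push_cast
        ring
      have e2 : 1 ≤ ‖P + q‖ := by
        have := (le_abs_self _).trans (Complex.abs_re_le_norm (P + q))
        rw [Complex.add_re] at this
        linarith
      calc ‖P - q‖ = ‖P - q‖ * 1 := (mul_one _).symm
        _ ≤ ‖P - q‖ * ‖P + q‖ := mul_le_mul_of_nonneg_left e2 (norm_nonneg _)
        _ = ‖((σ : ℂ) + h * z) ^ 2 - σ ^ 2‖ := by rw [← norm_mul, e1]
        _ ≤ 4 * (h * R) := hsb z hz
    have e3 : y z + β / 2 - I * q = (y z + β / 2 - I * P) + I * (P - q) := by ring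
    rw [e3]
    refine (norm_add_le _ _).trans ?_
    rw [norm_mul, Complex.norm_I, one_mul]
    have e4 : 40 * h / (τ / 2) ^ 3 = h * (320 / τ ^ 3) := by field_simp; norm_num
    rw [e4] at h1
    rw [hδ, mul_add]
    refine add_le_add h1 (hPq.trans (le_of_eq (by ring)))
  have hyd : ∀ z, ‖z‖ ≤ R → DifferentiableAt ℂ y z := by
    intro z hz
    obtain ⟨k1, k2, k3⟩ := hkp z hz
    have hs : ((σ : ℂ) + h * z) ^ 2 + I * τ ∈ slitPlane :=
      mem_slit_of_im_pos (lt_of_lt_of_le (by positivity) (hεi z hz).1)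
    have d1 : DifferentiableAt ℂ (fun z : ℂ => ((σ : ℂ) + h * z) ^ 2 + I * τ) z := by fun_prop
    have d2 : DifferentiableAt ℂ (fun z : ℂ => kap h τ ((σ : ℂ) + h * z)) z := by
      unfold kap
      refine DifferentiableAt.neg (DifferentiableAt.div_const (DifferentiableAt.const_mul ?_ _) _)
      exact DifferentiableAt.fun_comp' (g := csq) z (csq_hasDerivAt hs).differentiableAt d1
    have d3 : DifferentiableAt ℂ (fun z : ℂ => KI 1 m (kap h τ ((σ : ℂ) + h * z))) z :=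
      DifferentiableAt.fun_comp' (g := KI 1 m) z (KI_hasDerivAt 1 m k1).differentiableAt d2
    have d4 : DifferentiableAt ℂ (fun z : ℂ => KI 0 m (kap h τ ((σ : ℂ) + h * z))) z :=
      DifferentiableAt.fun_comp' (g := KI 0 m) z (KI_hasDerivAt 0 m k1).differentiableAt d2
    exact (((d2.const_mul (h : ℂ)).mul d3).neg).div d4 (hK0 z hz)
  -- the interior solution
  have ht : ∀ z : ℂ, ‖z‖ ≤ R → (σ : ℂ) + h * z ≠ 0 := by
    intro z hz h0
    have h1 := (hεi z hz).1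
    rw [h0] at h1
    have h2 := hsb z hz
    rw [h0] at h2
    rw [show (0 : ℂ) ^ 2 - (σ : ℂ) ^ 2 = -((σ ^ 2 : ℝ) : ℂ) by push_cast; ring, norm_neg,
      Complex.norm_real, Real.norm_of_nonneg (by positivity)] at h2
    nlinarith
  obtain ⟨z, hz, hzre, hT⟩ := local_zero (τ := τ) (σ := σ) (β := β) (h := h) (δ := δ) (R := R)
    (q := q) (J := fun z => JJ (m + 2) (((σ : ℂ) + h * z) / h))
    (J1 := fun z => JJ1 (m + 2) (((σ : ℂ) + h * z) / h)) (y := y) hτ hτ1 hσ1 hσ2 hβ0 hm hh hδ0 hR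
    hq2 hqre
    (by
      intro z hz
      have h1 : HasDerivAt (fun z : ℂ => ((σ : ℂ) + h * z) / h) 1 z := by
        have := (((hasDerivAt_id z).const_mul (h : ℂ)).const_add (σ : ℂ)).div_const (h : ℂ)
        refine this.congr_deriv ?_
        field_simp
      have h2 := (JJ_hasDerivAt (D := m + 2) (by omega) (((σ : ℂ) + h * z) / h)).scomp z h1
      refine h2.congr_deriv ?_
      simp)
    (by
      intro z hz
      have h1 : HasDerivAt (fun z : ℂ => ((σ : ℂ) + h * z) / h) 1 z := by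
        have := (((hasDerivAt_id z).const_mul (h : ℂ)).const_add (σ : ℂ)).div_const (h : ℂ)
        refine this.congr_deriv ?_
        field_simp
      have h0 : ((σ : ℂ) + h * z) / h ≠ 0 := div_ne_zero (ht z hz) hhc
      have h2 := (JJ1_hasDerivAt (D := m + 2) (by omega) h0).scomp z h1
      refine h2.congr_deriv ?_
      have h3 := ht z hz
      rw [hβ, smul_eq_mul]
      push_cast
      field_simp
      ring)
    (by
      simp only [mul_zero, add_zero]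
      rw [← Complex.ofReal_div, JJ_real, Complex.conj_ofReal])
    (by
      simp only [mul_zero, add_zero]
      rw [← Complex.ofReal_div, JJ1_real, Complex.conj_ofReal])
    (by
      simp only [mul_zero, add_zero]
      rw [← Complex.ofReal_div]
      exact JJ_ne_zero (by omega) (by positivity))
    hyb hyd c1'
  refine ⟨(σ : ℂ) + h * z, ?_, ?_, (hkp z hz).1, hK0 z hz, ?_⟩
  · have h1 : ((σ : ℂ) + h * z).re - σ = h * z.re := by
      rw [Complex.add_re, Complex.ofReal_re, Complex.re_ofReal_mul]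
      ring
    rw [h1, abs_mul, abs_of_pos hh]
    nlinarith [abs_nonneg z.re]
  · have h1 : ((σ : ℂ) + h * z).im = h * z.im := by
      rw [Complex.add_im, Complex.ofReal_im, Complex.im_ofReal_mul]
      ring
    rw [h1, abs_mul, abs_of_pos hh]
    have h2 := (Complex.abs_im_le_norm z).trans hz
    have : h * |z.im| ≤ h * R := mul_le_mul_of_nonneg_left h2 hh.le
    linarith
  · simp only [hy] at hT
    have h0 := hK0 z hz
    field_simp at hT
    linear_combination hT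

end Pool.Agent.K3h97.BP
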