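import Pool.Agent.K3h97.BP.Mult
import Pool.Agent.K3h97.BP.Zeros

/-! Counting the eigenvalues. -/

set_option autoImplicit false

open Filter Topology Set MeasureTheory
open scoped ENNReal

namespace Pool.Agent.K3h97.BP

lemma Matching.mat {h τ : ℝ} (hh : 0 < h) {m : ℕ} {s : ℂ} (hM : Matching h τ m s) :
    Mat m (s ^ 2 / (h : ℂ) ^ 2) (kap h τ s) := by
  obtain ⟨h1, h2, h3⟩ := hM
  refine ⟨h1, h2, ?_⟩
  have hhc : (h : ℂ) ≠ 0 := by exact_mod_cast hh.ne'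
  have hD : ((m + 2 : ℕ) : ℂ) ≠ 0 := by exact_mod_cast (by omega : m + 2 ≠ 0)
  rw [JJ1, JJ, show m + 2 + 2 = m + 4 by ring] at h3
  rw [pin1, pin, pout1, Real.sqrt_one, Complex.ofReal_one, mul_one, mul_one, mul_one, ← div_pow]
  obtain ⟨κ, hκ⟩ : ∃ κ : ℂ, κ = kap h τ s := ⟨_, rfl⟩
  rw [← hκ] at h2 h3 ⊢
  obtain ⟨A, hA⟩ : ∃ A : ℂ, A = Phi (m + 4) ((s / h) ^ 2) := ⟨_, rfl⟩
  obtain ⟨B, hB⟩ : ∃ B : ℂ, B = Phi (m + 2) ((s / h) ^ 2) := ⟨_, rfl⟩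
  rw [← hA, ← hB] at h3 ⊢
  field_simp
  field_simp at h3
  linear_combination h3

/-- the eigenvalues in one window -/
theorem scale_count {d : ℕ} (hd : 2 ≤ d) {τ K : ℝ} (hτ : 0 < τ) (hτ1 : τ ≤ 1) (hK : 0 < K)
    (hKτ : K ^ 2 * τ = 1) : ∃ h₀ : ℝ, 0 < h₀ ∧ ∀ h : ℝ, 0 < h → h < h₀ →
      ∃ S : Finset ℂ, (∀ E ∈ S, ‖E‖ ≤ 4 * K ^ 2 ∧ 1 / 2 ≤ E.im ∧ 19 / 10 * K ^ 2 ≤ E.re ∧
        E.re ≤ 3 * K ^ 2) ∧
        ENNReal.ofReal (3 / 50 * (1 / 8) ^ (d - 1) / (d - 1).factorial * (h ^ d)⁻¹) ≤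
          ∑ E ∈ S, (algMult (ballPot d) (K * h) E : ℝ≥0∞) := by
  classical
  obtain ⟨h₀, hh₀, hmain⟩ := matching_zero hτ hτ1
  have hd1 : (0 : ℝ) < d := by exact_mod_cast (by omega : 0 < d)
  refine ⟨min h₀ (min (1 / 200) (1 / (4 * d))), by positivity, fun h hh hlt => ?_⟩
  rw [lt_min_iff, lt_min_iff] at hlt
  obtain ⟨hlt0, hlt1, hlt2⟩ := hlt
  have hhd : h * d ≤ 1 / 4 := by
    rw [lt_div_iff₀ (by positivity)] at hlt2
    linarith
  have hhc : (h : ℂ) ≠ 0 := by exact_mod_cast hh.ne'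
  have hKc : (K : ℂ) ≠ 0 := by exact_mod_cast hK.ne'
  obtain ⟨L, hL⟩ : ∃ L : ℕ, L = ⌊1 / (8 * h)⌋₊ := ⟨_, rfl⟩
  obtain ⟨A, hA⟩ : ∃ A : ℕ, A = ⌊3 / (50 * h)⌋₊ + 1 := ⟨_, rfl⟩
  have hLle : (L : ℝ) ≤ 1 / (8 * h) := by rw [hL]; exact Nat.floor_le (by positivity)
  have hLge : 1 / (8 * h) ≤ (L : ℝ) + 1 := by rw [hL]; exact (Nat.lt_floor_add_one _).le
  have hAge : 3 / (50 * h) ≤ (A : ℝ) := by
    rw [hA]; push_cast; exact (Nat.lt_floor_add_one _).le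
  have hAle : ∀ a ∈ Finset.range A, 5 * h * a ≤ 3 / 10 := by
    intro a ha
    rw [Finset.mem_range, hA] at ha
    have h1 : a ≤ ⌊3 / (50 * h)⌋₊ := by omega
    have h2 : (a : ℝ) ≤ 3 / (50 * h) :=
      le_trans (by exact_mod_cast h1) (Nat.floor_le (by positivity))
    rw [le_div_iff₀ (by positivity)] at h2
    linarith
  -- the parameters s
  have hex : ∀ ℓ a : ℕ, ∃ s : ℂ, ℓ ∈ Finset.range (L + 1) → a ∈ Finset.range A →
      |s.re - (7 / 5 + 5 * h * a)| ≤ 2 * h ∧ |s.im| ≤ τ / 16 ∧ Matching h τ (d + 2 * ℓ - 2) s := by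
    intro ℓ a
    by_cases hℓ : ℓ ∈ Finset.range (L + 1)
    · by_cases ha : a ∈ Finset.range A
      · have h1 := hAle a ha
        have h2 : h * ((d + 2 * ℓ - 2 + 1 : ℕ) : ℝ) ≤ 1 / 2 := by
          have e1 : d + 2 * ℓ - 2 + 1 ≤ d + 2 * ℓ := by omega
          have e2 : ((d + 2 * ℓ - 2 + 1 : ℕ) : ℝ) ≤ d + 2 * ℓ := by exact_mod_cast e1
          have e3 : (ℓ : ℝ) ≤ L := by
            rw [Finset.mem_range] at hℓ
            exact_mod_cast (by omega : ℓ ≤ L)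
          have e4 : h * (ℓ : ℝ) ≤ 1 / 8 := by
            have e5 := hLle
            rw [le_div_iff₀ (by positivity)] at e5
            nlinarith
          nlinarith
        obtain ⟨s, hs⟩ := hmain h hh hlt0 (d + 2 * ℓ - 2) h2 (7 / 5 + 5 * h * a)
          (by nlinarith [mul_nonneg hh.le (Nat.cast_nonneg a : (0 : ℝ) ≤ a)]) (by linarith)
        exact ⟨s, fun _ _ => hs⟩
      · exact ⟨0, fun _ h => absurd h ha⟩
    · exact ⟨0, fun h => absurd h hℓ⟩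
  choose s hs using hex
  -- the real part
  have hre : ∀ ℓ ∈ Finset.range (L + 1), ∀ a ∈ Finset.range A,
      139 / 100 ≤ (s ℓ a).re ∧ (s ℓ a).re ≤ 171 / 100 := by
    intro ℓ hℓ a ha
    have h1 := (hs ℓ a hℓ ha).1
    have h2 := hAle a ha
    rw [abs_le] at h1
    have h3 := mul_nonneg hh.le (Nat.cast_nonneg a : (0 : ℝ) ≤ a)
    constructor <;> linarith [h1.1, h1.2]
  have him : ∀ ℓ ∈ Finset.range (L + 1), ∀ a ∈ Finset.range A, |(s ℓ a).im| ≤ τ / 16 :=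
    fun ℓ hℓ a ha => (hs ℓ a hℓ ha).2.1
  have hsq : ∀ ℓ ∈ Finset.range (L + 1), ∀ a ∈ Finset.range A,
      19 / 10 ≤ ((s ℓ a) ^ 2).re ∧ ((s ℓ a) ^ 2).re ≤ 3 ∧ |((s ℓ a) ^ 2).im| ≤ τ / 4 ∧
        ‖(s ℓ a) ^ 2‖ ≤ 3 := by
    intro ℓ hℓ a ha
    obtain ⟨r1, r2⟩ := hre ℓ hℓ a ha
    have i1 := him ℓ hℓ a ha
    have i2 : (s ℓ a).im ^ 2 ≤ 1 / 256 := by
      rw [← sq_abs]
      have : |(s ℓ a).im| ≤ 1 / 16 := by linarith
      nlinarith [abs_nonneg (s ℓ a).im]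
    have e1 : ((s ℓ a) ^ 2).re = (s ℓ a).re ^ 2 - (s ℓ a).im ^ 2 := by
      rw [pow_two, Complex.mul_re]; ring
    have e2 : ((s ℓ a) ^ 2).im = 2 * (s ℓ a).re * (s ℓ a).im := by
      rw [pow_two, Complex.mul_im]; ring
    have e3 : ‖(s ℓ a) ^ 2‖ = (s ℓ a).re ^ 2 + (s ℓ a).im ^ 2 := by
      rw [norm_pow, ← Complex.normSq_eq_norm_sq, Complex.normSq_apply]; ring
    refine ⟨?_, ?_, ?_, ?_⟩
    · rw [e1]; nlinarith
    · rw [e1]; nlinarith [sq_nonneg (s ℓ a).im]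
    · rw [e2, abs_mul, abs_of_nonneg (by linarith)]
      nlinarith [abs_nonneg (s ℓ a).im]
    · rw [e3]; nlinarith
  set En : ℕ → ℕ → ℂ := fun ℓ a => (K : ℂ) ^ 2 * (s ℓ a) ^ 2 + Complex.I with hEn
  have hEre : ∀ ℓ a, (En ℓ a).re = K ^ 2 * ((s ℓ a) ^ 2).re := by
    intro ℓ a
    simp only [hEn]
    rw [Complex.add_re, Complex.I_re, add_zero, ← Complex.ofReal_pow, Complex.re_ofReal_mul]
  have hEim : ∀ ℓ a, (En ℓ a).im = K ^ 2 * ((s ℓ a) ^ 2).im + 1 := by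
    intro ℓ a
    simp only [hEn]
    rw [Complex.add_im, Complex.I_im, ← Complex.ofReal_pow, Complex.im_ofReal_mul]
  have hK1 : 1 ≤ K ^ 2 := by
    have := mul_le_mul_of_nonneg_left hτ1 (sq_nonneg K)
    rw [hKτ] at this
    linarith
  -- equality of energies
  have hinj : ∀ ℓ ∈ Finset.range (L + 1), ∀ a ∈ Finset.range A, ∀ ℓ' ∈ Finset.range (L + 1),
      ∀ a' ∈ Finset.range A, En ℓ a = En ℓ' a' → s ℓ a = s ℓ' a' := by
    intro ℓ hℓ a ha ℓ' hℓ' a' ha' heq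
    simp only [hEn] at heq
    have h1 : (s ℓ a) ^ 2 = (s ℓ' a') ^ 2 := by
      have := add_right_cancel heq
      exact mul_left_cancel₀ (pow_ne_zero 2 hKc) this
    rcases sq_eq_sq_iff_eq_or_eq_neg.1 h1 with h2 | h2
    · exact h2
    · exfalso
      have h3 := (hre ℓ hℓ a ha).1
      have h4 := (hre ℓ' hℓ' a' ha').1
      rw [h2, Complex.neg_re] at h3
      linarith
  have hinja : ∀ ℓ ∈ Finset.range (L + 1), Set.InjOn (En ℓ) (Finset.range A) := by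
    intro ℓ hℓ a ha a' ha' heq
    have ha1 : a ∈ Finset.range A := ha
    have ha1' : a' ∈ Finset.range A := ha'
    have h1 := hinj ℓ hℓ a ha1 ℓ hℓ a' ha1' heq
    have h2 := (hs ℓ a hℓ ha1).1
    have h3 := (hs ℓ a' hℓ ha1').1
    rw [h1] at h2
    rw [abs_le] at h2 h3
    by_contra hne
    rcases lt_or_gt_of_ne hne with hlt | hlt
    · have : (a : ℝ) + 1 ≤ a' := by exact_mod_cast hlt
      nlinarith [h2.1, h2.2, h3.1, h3.2]
    · have : (a' : ℝ) + 1 ≤ a := by exact_mod_cast hlt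
      nlinarith [h2.1, h2.2, h3.1, h3.2]
  -- the window
  set S : Finset ℂ := (Finset.range (L + 1) ×ˢ Finset.range A).image (fun p => En p.1 p.2) with hS
  refine ⟨S, ?_, ?_⟩
  · intro E hE
    rw [hS, Finset.mem_image] at hE
    obtain ⟨⟨ℓ, a⟩, hp, rfl⟩ := hE
    rw [Finset.mem_product] at hp
    obtain ⟨hℓ, ha⟩ := hp
    obtain ⟨q1, q2, q3, q4⟩ := hsq ℓ hℓ a ha
    refine ⟨?_, ?_, ?_, ?_⟩
    · refine (norm_add_le _ _).trans ?_
      rw [norm_mul, norm_pow, Complex.norm_real, Complex.norm_I, Real.norm_of_nonneg hK.le]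
      nlinarith [sq_nonneg K]
    · change 1 / 2 ≤ (En ℓ a).im
      rw [hEim]
      have e1 := neg_le_of_abs_le q3
      have e2 := mul_le_mul_of_nonneg_left e1 (sq_nonneg K)
      have e3 : K ^ 2 * -(τ / 4) = -(1 / 4) := by
        have : K ^ 2 * -(τ / 4) = -(K ^ 2 * τ) / 4 := by ring
        rw [this, hKτ]; norm_num
      linarith
    · change _ ≤ (En ℓ a).re
      rw [hEre]
      nlinarith [sq_nonneg K]
    · change (En ℓ a).re ≤ _
      rw [hEre]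
      nlinarith [sq_nonneg K]
  · -- multiplicities
    set Z : ℂ → Finset ℕ := fun E => (Finset.range (L + 1)).filter fun ℓ =>
      ∃ a ∈ Finset.range A, En ℓ a = E with hZ
    have hmult : ∀ E ∈ S, ((∑ ℓ ∈ Z E, Module.finrank ℂ (Har d ℓ) : ℕ) : ℕ∞) ≤
        algMult (ballPot d) (K * h) E := by
      intro E hE
      rw [hS, Finset.mem_image] at hE
      obtain ⟨⟨ℓ₀, a₀⟩, hp, hE0⟩ := hE
      rw [Finset.mem_product] at hp
      obtain ⟨hℓ₀, ha₀⟩ := hp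
      have hE0' : En ℓ₀ a₀ = E := hE0
      have hpos : 0 < ((s ℓ₀ a₀) ^ 2 + Complex.I * τ).im := by
        rw [Complex.add_im, Complex.mul_im, Complex.I_re, Complex.I_im, Complex.ofReal_re]
        have := neg_le_of_abs_le (hsq ℓ₀ hℓ₀ a₀ ha₀).2.2.1
        linarith
      have hk := (kap_prop hh hpos).2.1
      refine algMult_ge (mm := fun ℓ => d + 2 * ℓ - 2) (c := (s ℓ₀ a₀) ^ 2 / (h : ℂ) ^ 2)
        (κ := kap h τ (s ℓ₀ a₀)) ?_ (fun ℓ _ => by omega) ?_ ?_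
      · intro ℓ hℓ
        rw [hZ, Finset.mem_filter] at hℓ
        obtain ⟨hℓ1, a, ha, hEa⟩ := hℓ
        have h1 := hinj ℓ hℓ1 a ha ℓ₀ hℓ₀ a₀ ha₀ (hEa.trans hE0'.symm)
        rw [← h1]
        exact (hs ℓ a hℓ1 ha).2.2.mat hh
      · rw [← hE0']
        simp only [hEn]
        push_cast
        field_simp
        ring
      · rw [← hE0']
        simp only [hEn]
        have e1 : ((K * h : ℝ) : ℂ) ^ 2 * kap h τ (s ℓ₀ a₀) ^ 2 =
            -((K : ℂ) ^ 2 * (-(h * kap h τ (s ℓ₀ a₀)) ^ 2)) := by push_cast; ring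
        rw [e1, hk]
        have e2 : (K : ℂ) ^ 2 * τ = 1 := by exact_mod_cast congrArg Complex.ofReal hKτ
        linear_combination (-Complex.I) * e2
    have hsum : (A * ∑ ℓ ∈ Finset.range (L + 1), Module.finrank ℂ (Har d ℓ) : ℕ) ≤
        ∑ E ∈ S, ∑ ℓ ∈ Z E, Module.finrank ℂ (Har d ℓ) := by
      have e1 : ∑ E ∈ S, ∑ ℓ ∈ Z E, Module.finrank ℂ (Har d ℓ) =
          ∑ ℓ ∈ Finset.range (L + 1), ∑ E ∈ S,
            if (∃ a ∈ Finset.range A, En ℓ a = E) then Module.finrank ℂ (Har d ℓ) else 0 := by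
        rw [Finset.sum_comm]
        refine Finset.sum_congr rfl fun E _ => ?_
        rw [hZ, Finset.sum_filter]
      rw [e1, Finset.mul_sum]
      refine Finset.sum_le_sum fun ℓ hℓ => ?_
      rw [← Finset.sum_filter, Finset.sum_const, smul_eq_mul]
      refine Nat.mul_le_mul_right _ ?_
      have e2 : (Finset.range A).card ≤ (S.filter fun E => ∃ a ∈ Finset.range A, En ℓ a = E).card := by
        refine Finset.card_le_card_of_injOn (En ℓ) ?_ (hinja ℓ hℓ)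
        intro a ha
        have ha' : a ∈ Finset.range A := ha
        rw [Finset.mem_coe, Finset.mem_filter]
        refine ⟨?_, a, ha', rfl⟩
        rw [hS, Finset.mem_image]
        exact ⟨(ℓ, a), Finset.mem_product.2 ⟨hℓ, ha'⟩, rfl⟩
      rwa [Finset.card_range] at e2
    have hv : A * (d + L - 1).choose L ≤ ∑ E ∈ S, ∑ ℓ ∈ Z E, Module.finrank ℂ (Har d ℓ) :=
      (Nat.mul_le_mul_left A ((vdim_ge L).trans (vdim_sum L))).trans hsum
    have hch : ((L : ℝ) + 1) ^ (d - 1) ≤ (d - 1).factorial * ((d + L - 1).choose L : ℕ) := by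
      have e1 := Nat.pow_le_choose (α := ℝ) (d - 1) (d + L - 1)
      have e2 : d + L - 1 + 1 - (d - 1) = L + 1 := by omega
      rw [e2] at e1
      have e3 : (d + L - 1).choose L = (d + L - 1).choose (d - 1) := by
        rw [← Nat.choose_symm_of_eq_add (by omega : d + L - 1 = L + (d - 1))]
      rw [e3]
      have hf0 : (0 : ℝ) < (d - 1).factorial := by positivity
      rw [div_le_iff₀ hf0] at e1
      push_cast at e1 ⊢
      linarith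
    have hfin : 3 / 50 * (1 / 8) ^ (d - 1) / (d - 1).factorial * (h ^ d)⁻¹ ≤
        ((∑ E ∈ S, ∑ ℓ ∈ Z E, Module.finrank ℂ (Har d ℓ) : ℕ) : ℝ) := by
      have e1 : ((A * (d + L - 1).choose L : ℕ) : ℝ) ≤
          ((∑ E ∈ S, ∑ ℓ ∈ Z E, Module.finrank ℂ (Har d ℓ) : ℕ) : ℝ) := by exact_mod_cast hv
      refine le_trans ?_ e1
      rw [Nat.cast_mul]
      have hf0 : (0 : ℝ) < (d - 1).factorial := by positivity
      have e2 : (1 / (8 * h)) ^ (d - 1) / (d - 1).factorial ≤ ((d + L - 1).choose L : ℕ) := by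
        rw [div_le_iff₀ hf0, mul_comm (((d + L - 1).choose L : ℕ) : ℝ)]
        refine le_trans ?_ hch
        exact pow_le_pow_left₀ (by positivity) hLge _
      have e3 := mul_le_mul hAge e2 (by positivity) (by positivity)
      refine le_trans (le_of_eq ?_) e3
      obtain ⟨k, rfl⟩ : ∃ k, d = k + 1 := ⟨d - 1, by omega⟩
      rw [Nat.add_sub_cancel, pow_succ]
      have : h ^ k ≠ 0 := by positivity
      simp only [div_pow, mul_pow, one_pow]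
      field_simp
    calc ENNReal.ofReal (3 / 50 * (1 / 8) ^ (d - 1) / (d - 1).factorial * (h ^ d)⁻¹)
        ≤ ENNReal.ofReal ((∑ E ∈ S, ∑ ℓ ∈ Z E, Module.finrank ℂ (Har d ℓ) : ℕ) : ℝ) :=
          ENNReal.ofReal_le_ofReal hfin
      _ = ∑ E ∈ S, ((∑ ℓ ∈ Z E, Module.finrank ℂ (Har d ℓ) : ℕ) : ℝ≥0∞) := by
          rw [ENNReal.ofReal_natCast, Nat.cast_sum]
      _ ≤ _ := by
          refine Finset.sum_le_sum fun E hE => ?_
          have := hmult E hE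
          rw [← ENat.toENNReal_le, ENat.toENNReal_coe] at this
          exact this

lemma not_mem_halfLine {E : ℂ} (h : 1 / 2 ≤ E.im) : E ∈ halfLineᶜ := by
  intro h1
  have := h1.2
  linarith

lemma infDist_ge {E : ℂ} (h : 1 / 2 ≤ E.im) : 1 / 2 ≤ Metric.infDist E halfLine := by
  rw [Metric.le_infDist ⟨0, by simp [halfLine]⟩]
  intro z hz
  have h1 := Complex.abs_im_le_norm (E - z)
  rw [Complex.sub_im, hz.2, sub_zero] at h1
  rw [dist_eq_norm]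
  linarith [le_abs_self E.im]

lemma weight_ge {E : ℂ} {K γ σ : ℝ} (hγ : 0 < γ) (hσ : 0 ≤ σ) (h1 : ‖E‖ ≤ 4 * K ^ 2)
    (h2 : 1 / 2 ≤ E.im) :
    (4 * K ^ 2) ^ (-σ) * (1 / 2) ^ (γ + σ) ≤ ‖E‖ ^ (-σ) * Metric.infDist E halfLine ^ (γ + σ) := by
  have h3 : 0 < ‖E‖ := by
    have := Complex.abs_im_le_norm E
    linarith [le_abs_self E.im]
  have h4 : (4 * K ^ 2) ^ (-σ) ≤ ‖E‖ ^ (-σ) := Real.rpow_le_rpow_of_nonpos h3 h1 (by linarith)
  have h5 : (1 / 2 : ℝ) ^ (γ + σ) ≤ Metric.infDist E halfLine ^ (γ + σ) :=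
    Real.rpow_le_rpow (by norm_num) (infDist_ge h2) (by linarith)
  exact mul_le_mul h4 h5 (by positivity) (by positivity)

lemma eigSum_ge {d : ℕ} {ħ γ σ : ℝ} (S : Finset ℂ) (hS : ∀ E ∈ S, 1 / 2 ≤ E.im) :
    ∑ E ∈ S, (algMult (ballPot d) ħ E : ℝ≥0∞) *
      ENNReal.ofReal (‖E‖ ^ (-σ) * Metric.infDist E halfLine ^ (γ + σ)) ≤
      eigSum (ballPot d) ħ γ σ := by
  rw [eigSum]
  rw [tsum_subtype (halfLineᶜ) fun E : ℂ => (algMult (ballPot d) ħ E : ℝ≥0∞) *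
      ENNReal.ofReal (‖E‖ ^ (-σ) * Metric.infDist E halfLine ^ (γ + σ))]
  refine le_trans (le_of_eq ?_) (ENNReal.sum_le_tsum S)
  refine Finset.sum_congr rfl fun E hE => ?_
  rw [indicator_of_mem (not_mem_halfLine (hS E hE))]

/-- the constant -/
noncomputable def cst (d : ℕ) (γ σ : ℝ) : ℝ :=
  3 / 50 * (1 / 8) ^ (d - 1) / (d - 1).factorial * (4 ^ (-σ) * (1 / 2) ^ (γ + σ))

lemma cst_pos (d : ℕ) (γ σ : ℝ) : 0 < cst d γ σ := by
  unfold cst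
  positivity

theorem many_scales {d : ℕ} (hd : 2 ≤ d) {γ σ : ℝ} (hγ : 0 < γ) (hσ : 0 ≤ σ) (hσd : σ ≤ d / 2)
    (J : ℕ) : ∀ᶠ ħ : ℝ in 𝓝[>] 0,
      ENNReal.ofReal (J * (cst d γ σ * (ħ ^ d)⁻¹)) ≤ eigSum (ballPot d) ħ γ σ := by
  classical
  have hsc : ∀ j : ℕ, ∃ h₀ : ℝ, 0 < h₀ ∧ ∀ h : ℝ, 0 < h → h < h₀ →
      ∃ S : Finset ℂ, (∀ E ∈ S, ‖E‖ ≤ 4 * ((2 : ℝ) ^ j) ^ 2 ∧ 1 / 2 ≤ E.im ∧
        19 / 10 * ((2 : ℝ) ^ j) ^ 2 ≤ E.re ∧ E.re ≤ 3 * ((2 : ℝ) ^ j) ^ 2) ∧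
        ENNReal.ofReal (3 / 50 * (1 / 8) ^ (d - 1) / (d - 1).factorial * (h ^ d)⁻¹) ≤
          ∑ E ∈ S, (algMult (ballPot d) ((2 : ℝ) ^ j * h) E : ℝ≥0∞) := by
    intro j
    have hp : (0 : ℝ) < ((2 : ℝ) ^ j) ^ 2 := by positivity
    refine scale_count hd (τ := (((2 : ℝ) ^ j) ^ 2)⁻¹) (K := 2 ^ j) (inv_pos.2 hp) ?_
      (by positivity) (mul_inv_cancel₀ hp.ne')
    refine inv_le_one_of_one_le₀ ?_
    exact one_le_pow₀ (one_le_pow₀ one_le_two)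
  choose h₀ hpos hmain using hsc
  have hev : ∀ᶠ ħ : ℝ in 𝓝[>] 0, ∀ j ∈ Finset.range J, ħ < h₀ j := by
    rw [Filter.eventually_all_finset]
    intro j _
    exact mem_nhdsWithin_of_mem_nhds (Iio_mem_nhds (hpos j))
  filter_upwards [self_mem_nhdsWithin, hev] with ħ hħ hħj
  have hħ0 : 0 < ħ := hħ
  have hex : ∀ j : ℕ, ∃ S : Finset ℂ, j ∈ Finset.range J →
      (∀ E ∈ S, ‖E‖ ≤ 4 * ((2 : ℝ) ^ j) ^ 2 ∧ 1 / 2 ≤ E.im ∧
        19 / 10 * ((2 : ℝ) ^ j) ^ 2 ≤ E.re ∧ E.re ≤ 3 * ((2 : ℝ) ^ j) ^ 2) ∧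
        ENNReal.ofReal (3 / 50 * (1 / 8) ^ (d - 1) / (d - 1).factorial *
          ((ħ / 2 ^ j) ^ d)⁻¹) ≤ ∑ E ∈ S, (algMult (ballPot d) ħ E : ℝ≥0∞) := by
    intro j
    by_cases hj : j ∈ Finset.range J
    · have h1 : (1 : ℝ) ≤ 2 ^ j := one_le_pow₀ one_le_two
      have h2 : ħ / 2 ^ j < h₀ j := lt_of_le_of_lt (div_le_self hħ0.le h1) (hħj j hj)
      obtain ⟨S, hS1, hS2⟩ := hmain j (ħ / 2 ^ j) (by positivity) h2
      rw [mul_div_cancel₀ _ (by positivity : (2 : ℝ) ^ j ≠ 0)] at hS2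
      exact ⟨S, fun _ => ⟨hS1, hS2⟩⟩
    · exact ⟨∅, fun h => absurd h hj⟩
  choose S hS using hex
  have hdisj : ∀ i ∈ Finset.range J, ∀ j ∈ Finset.range J, i < j → Disjoint (S i) (S j) := by
    intro i hi j hj hij
    rw [Finset.disjoint_left]
    intro E hEi hEj
    have h1 := ((hS i hi).1 E hEi).2.2.2
    have h2 := ((hS j hj).1 E hEj).2.2.1
    have h3 : (2 : ℝ) ^ (i + 1) ≤ 2 ^ j := pow_le_pow_right₀ one_le_two hij
    have h4 : (0 : ℝ) < 2 ^ i := by positivity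
    rw [pow_succ] at h3
    nlinarith
  have hpd : (↑(Finset.range J) : Set ℕ).PairwiseDisjoint S := by
    intro i hi j hj hij
    rcases lt_or_gt_of_ne hij with h | h
    · exact hdisj i hi j hj h
    · exact (hdisj j hj i hi h).symm
  have hT : ∀ E ∈ (Finset.range J).biUnion S, 1 / 2 ≤ E.im := by
    intro E hE
    rw [Finset.mem_biUnion] at hE
    obtain ⟨j, hj, hE⟩ := hE
    exact ((hS j hj).1 E hE).2.1
  refine le_trans ?_ (eigSum_ge (d := d) (ħ := ħ) (γ := γ) (σ := σ) _ hT)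
  rw [Finset.sum_biUnion hpd]
  have hc0 := cst_pos d γ σ
  have hone : ∀ j ∈ Finset.range J, ENNReal.ofReal (cst d γ σ * (ħ ^ d)⁻¹) ≤
      ∑ E ∈ S j, (algMult (ballPot d) ħ E : ℝ≥0∞) *
      ENNReal.ofReal (‖E‖ ^ (-σ) * Metric.infDist E halfLine ^ (γ + σ)) := by
    intro j hj
    obtain ⟨hS1, hS2⟩ := hS j hj
    obtain ⟨b, hb⟩ : ∃ b : ℝ, b = 2 ^ j := ⟨_, rfl⟩
    rw [← hb] at hS1 hS2
    have hb1 : 1 ≤ b := by rw [hb]; exact one_le_pow₀ one_le_two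
    have hb0 : 0 < b := by linarith
    have h1 : 1 ≤ b ^ d * (b ^ 2) ^ (-σ) := by
      have e1 : b ^ d = b ^ (d : ℝ) := (Real.rpow_natCast b d).symm
      have e2 : (b ^ 2) ^ (-σ) = b ^ (2 * (-σ)) := by
        rw [Real.rpow_mul hb0.le]
        norm_num
      rw [e1, e2, ← Real.rpow_add hb0]
      exact Real.one_le_rpow hb1 (by linarith)
    calc ENNReal.ofReal (cst d γ σ * (ħ ^ d)⁻¹)
        ≤ ENNReal.ofReal ((3 / 50 * (1 / 8) ^ (d - 1) / (d - 1).factorial * ((ħ / b) ^ d)⁻¹) *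
          ((4 * b ^ 2) ^ (-σ) * (1 / 2) ^ (γ + σ))) := by
          apply ENNReal.ofReal_le_ofReal
          have e1 : ((ħ / b) ^ d)⁻¹ = b ^ d * (ħ ^ d)⁻¹ := by
            rw [div_pow, inv_div, div_eq_mul_inv]
          have e2 : (4 * b ^ 2) ^ (-σ) = 4 ^ (-σ) * (b ^ 2) ^ (-σ) :=
            Real.mul_rpow (by norm_num) (by positivity)
          rw [e1, e2]
          have e3 : 3 / 50 * (1 / 8) ^ (d - 1) / (d - 1).factorial * (b ^ d * (ħ ^ d)⁻¹) *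
            (4 ^ (-σ) * (b ^ 2) ^ (-σ) * (1 / 2) ^ (γ + σ)) =
            (cst d γ σ * (ħ ^ d)⁻¹) * (b ^ d * (b ^ 2) ^ (-σ)) := by
            unfold cst
            ring
          rw [e3]
          exact le_mul_of_one_le_right (by positivity) h1
      _ = ENNReal.ofReal (3 / 50 * (1 / 8) ^ (d - 1) / (d - 1).factorial * ((ħ / b) ^ d)⁻¹) *
          ENNReal.ofReal ((4 * b ^ 2) ^ (-σ) * (1 / 2) ^ (γ + σ)) := by
          rw [ENNReal.ofReal_mul (by positivity)]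
      _ ≤ (∑ E ∈ S j, (algMult (ballPot d) ħ E : ℝ≥0∞)) *
          ENNReal.ofReal ((4 * b ^ 2) ^ (-σ) * (1 / 2) ^ (γ + σ)) := by gcongr
      _ = ∑ E ∈ S j, (algMult (ballPot d) ħ E : ℝ≥0∞) *
          ENNReal.ofReal ((4 * b ^ 2) ^ (-σ) * (1 / 2) ^ (γ + σ)) := by rw [Finset.sum_mul]
      _ ≤ _ := by
          refine Finset.sum_le_sum fun E hE => ?_
          exact mul_le_mul' le_rfl
            (ENNReal.ofReal_le_ofReal (weight_ge hγ hσ (hS1 E hE).1 (hS1 E hE).2.1))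
  calc ENNReal.ofReal (J * (cst d γ σ * (ħ ^ d)⁻¹))
      = ∑ _j ∈ Finset.range J, ENNReal.ofReal (cst d γ σ * (ħ ^ d)⁻¹) := by
        rw [Finset.sum_const, Finset.card_range, nsmul_eq_mul, ENNReal.ofReal_mul (by positivity),
          ENNReal.ofReal_natCast]
    _ ≤ _ := Finset.sum_le_sum hone

theorem tendsto_top {d : ℕ} (hd : 2 ≤ d) {γ σ : ℝ} (hγ : 0 < γ) (hσ : 0 ≤ σ) (hσd : σ ≤ d / 2) :
    Tendsto (fun ħ : ℝ => ENNReal.ofReal (ħ ^ d) * eigSum (ballPot d) ħ γ σ) (𝓝[>] 0) (𝓝 ⊤) := by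
  rw [ENNReal.tendsto_nhds_top_iff_nat]
  intro n
  have hc0 := cst_pos d γ σ
  obtain ⟨J, hJ⟩ := exists_nat_gt ((n : ℝ) / cst d γ σ)
  rw [div_lt_iff₀ hc0] at hJ
  filter_upwards [self_mem_nhdsWithin, many_scales hd hγ hσ hσd J] with ħ hħ h1
  have hħ0 : 0 < ħ := hħ
  have hp : 0 < ħ ^ d := by positivity
  calc (n : ℝ≥0∞) = ENNReal.ofReal n := (ENNReal.ofReal_natCast n).symm
    _ < ENNReal.ofReal (J * cst d γ σ) := by
        rw [ENNReal.ofReal_lt_ofReal_iff (lt_of_le_of_lt (Nat.cast_nonneg n) hJ)]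
        exact hJ
    _ = ENNReal.ofReal (ħ ^ d) * ENNReal.ofReal (J * (cst d γ σ * (ħ ^ d)⁻¹)) := by
        rw [← ENNReal.ofReal_mul hp.le]
        congr 1
        field_simp
    _ ≤ _ := by gcongr

end Pool.Agent.K3h97.BP
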