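import Mathlib

/-! Complex square root. -/

set_option autoImplicit false

open Complex

namespace Pool.Agent.K3h97.BP

/-- the principal square root -/
noncomputable def csq (z : ℂ) : ℂ := Complex.exp (Complex.log z / 2)

lemma csq_ne_zero (z : ℂ) : csq z ≠ 0 := Complex.exp_ne_zero _

lemma csq_sq {z : ℂ} (hz : z ≠ 0) : csq z ^ 2 = z := by
  rw [csq, ← Complex.exp_nat_mul]
  have : ((2 : ℕ) : ℂ) * (Complex.log z / 2) = Complex.log z := by push_cast; ring
  rw [this, Complex.exp_log hz]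

lemma csq_hasDerivAt {z : ℂ} (hz : z ∈ slitPlane) : HasDerivAt csq (1 / (2 * csq z)) z := by
  have h1 : HasDerivAt (fun z => Complex.log z / 2) (z⁻¹ / 2) z :=
    (Complex.hasDerivAt_log hz).div_const 2
  have h2 := h1.cexp
  have hz0 : z ≠ 0 := slitPlane_ne_zero hz
  have hq : csq z ≠ 0 := csq_ne_zero z
  have h3 : Complex.exp (Complex.log z / 2) * (z⁻¹ / 2) = 1 / (2 * csq z) := by
    change csq z * (z⁻¹ / 2) = _
    have h4 := csq_sq hz0
    field_simp
    rw [h4]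
  rw [h3] at h2
  exact h2

lemma csq_re_im (z : ℂ) : (csq z).re = Real.exp (Real.log ‖z‖ / 2) * Real.cos (arg z / 2) ∧
    (csq z).im = Real.exp (Real.log ‖z‖ / 2) * Real.sin (arg z / 2) := by
  have h1 : (Complex.log z / 2).re = Real.log ‖z‖ / 2 := by
    rw [show (2 : ℂ) = ((2 : ℝ) : ℂ) by norm_num, Complex.div_ofReal_re, Complex.log_re]
  have h2 : (Complex.log z / 2).im = arg z / 2 := by
    rw [show (2 : ℂ) = ((2 : ℝ) : ℂ) by norm_num, Complex.div_ofReal_im, Complex.log_im]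
  rw [csq, Complex.exp_re, Complex.exp_im, h1, h2]
  exact ⟨rfl, rfl⟩

lemma csq_re_pos {z : ℂ} (hz : z ∈ slitPlane) : 0 < (csq z).re := by
  rw [(csq_re_im z).1]
  refine mul_pos (Real.exp_pos _) (Real.cos_pos_of_mem_Ioo ⟨?_, ?_⟩)
  · have := Complex.neg_pi_lt_arg z
    linarith
  · have h1 := Complex.arg_le_pi z
    have h2 : arg z ≠ Real.pi := slitPlane_arg_ne_pi hz
    have h3 : arg z < Real.pi := lt_of_le_of_ne h1 h2
    linarith

lemma csq_im_pos {z : ℂ} (hz : 0 < z.im) : 0 < (csq z).im := by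
  rw [(csq_re_im z).2]
  have h0 : 0 ≤ arg z := Complex.arg_nonneg_iff.2 hz.le
  have h1 : arg z ≠ 0 := by
    intro h
    have := Complex.arg_eq_zero_iff.1 h
    linarith [this.2]
  have h2 : 0 < arg z := lt_of_le_of_ne h0 (Ne.symm h1)
  refine mul_pos (Real.exp_pos _) (Real.sin_pos_of_pos_of_lt_pi (by linarith) ?_)
  have h3 := Complex.arg_le_pi z
  have := Real.pi_pos
  linarith

lemma mem_slit_of_im_pos {z : ℂ} (hz : 0 < z.im) : z ∈ slitPlane := by
  rw [mem_slitPlane_iff]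
  exact Or.inr hz.ne'

lemma norm_csq_sq {z : ℂ} (hz : z ≠ 0) : ‖csq z‖ ^ 2 = ‖z‖ := by
  rw [← norm_pow, csq_sq hz]

/-- bounds for the square root of a number in the upper half plane -/
lemma csq_bounds {z : ℂ} {η R : ℝ} (hη : 0 < η) (hz : η ≤ z.im) (hR : ‖z‖ ≤ R ^ 2) (hR0 : 0 < R) :
    ‖csq z‖ ≤ R ∧ η ≤ ‖csq z‖ ^ 2 ∧ η / (2 * R) ≤ (csq z).im := by
  have him : 0 < z.im := lt_of_lt_of_le hη hz
  have hz0 : z ≠ 0 := slitPlane_ne_zero (mem_slit_of_im_pos him)
  have h1 : ‖csq z‖ ^ 2 ≤ R ^ 2 := by rw [norm_csq_sq hz0]; exact hR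
  have h2 : ‖csq z‖ ≤ R := by
    exact le_of_sq_le_sq h1 hR0.le |> fun h => h
  refine ⟨h2, ?_, ?_⟩
  · rw [norm_csq_sq hz0]
    exact hz.trans ((le_abs_self _).trans (Complex.abs_im_le_norm z))
  · have h3 : z.im = 2 * (csq z).re * (csq z).im := by
      conv_lhs => rw [← csq_sq hz0]
      rw [pow_two, Complex.mul_im]
      ring
    have h4 : 0 < (csq z).re := csq_re_pos (mem_slit_of_im_pos him)
    have h5 : 0 < (csq z).im := csq_im_pos him
    have h6 : (csq z).re ≤ R := ((le_abs_self _).trans (Complex.abs_re_le_norm _)).trans h2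
    rw [div_le_iff₀ (by positivity)]
    calc η ≤ z.im := hz
      _ = 2 * (csq z).re * (csq z).im := h3
      _ ≤ 2 * R * (csq z).im := by gcongr
      _ = (csq z).im * (2 * R) := by ring

end Pool.Agent.K3h97.BP
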