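import Mathlib

/-! Schrödinger operators `H_ħ = -ħ²Δ + V` in `L²(ℝ^d)`, their generalised eigenspaces and the
eigenvalue sums `S_{γ,σ}(V, ħ)`. -/

set_option autoImplicit false

open MeasureTheory Set Filter
open scoped ContDiff Laplacian ENNReal

namespace Pool.Agent.K3h97.BP

/-- Lebesgue measure on `ℝ^d` -/
noncomputable abbrev vol (d : ℕ) : Measure (EuclideanSpace ℝ (Fin d)) := volume

/-- `L²(ℝ^d; ℂ)` -/
def L2 (d : ℕ) : Type := Lp ℂ 2 (vol d)

variable {d : ℕ}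

noncomputable instance : AddCommGroup (L2 d) := (inferInstance : AddCommGroup (Lp ℂ 2 (vol d)))

noncomputable instance : Module ℂ (L2 d) := (inferInstance : Module ℂ (Lp ℂ 2 (vol d)))

/-- The function (up to equality almost everywhere) behind an element of `L²(ℝ^d; ℂ)`. -/
noncomputable def fn (u : L2 d) : EuclideanSpace ℝ (Fin d) → ℂ :=
  ((show Lp ℂ 2 (vol d) from u) : EuclideanSpace ℝ (Fin d) → ℂ)

lemma fn_add (u v : L2 d) : fn (u + v) =ᵐ[vol d] fun x => fn u x + fn v x :=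
  Lp.coeFn_add (show Lp ℂ 2 (vol d) from u) (show Lp ℂ 2 (vol d) from v)

lemma fn_smul (c : ℂ) (u : L2 d) : fn (c • u) =ᵐ[vol d] fun x => c * fn u x :=
  Lp.coeFn_smul c (show Lp ℂ 2 (vol d) from u)

lemma fn_zero : fn (0 : L2 d) =ᵐ[vol d] fun _ => 0 := Lp.coeFn_zero ℂ 2 (vol d)

lemma fn_ext {u v : L2 d} (h : fn u =ᵐ[vol d] fn v) : u = v :=
  Lp.ext (f := (show Lp ℂ 2 (vol d) from u)) (g := (show Lp ℂ 2 (vol d) from v)) h

/-- `φ` is a test function: smooth with compact support. -/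
def IsTest (φ : EuclideanSpace ℝ (Fin d) → ℂ) : Prop := ContDiff ℝ ∞ φ ∧ HasCompactSupport φ

/-- `-ħ²Δφ + Vφ` -/
noncomputable def schr (V : EuclideanSpace ℝ (Fin d) → ℂ) (ħ : ℝ)
    (φ : EuclideanSpace ℝ (Fin d) → ℂ) (x : EuclideanSpace ℝ (Fin d)) : ℂ :=
  -((ħ : ℂ) ^ 2 * Δ φ x) + V x * φ x

/-- `-ħ²Δu + Vu = w` in the sense of distributions, for `u, w ∈ L²(ℝ^d)`: the pairs `(u, w)` form
the graph of `H_ħ` (with domain the Sobolev space `H²(ℝ^d)`, if `V` is bounded). -/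
def Acts (V : EuclideanSpace ℝ (Fin d) → ℂ) (ħ : ℝ) (u w : L2 d) : Prop :=
  ∀ φ : EuclideanSpace ℝ (Fin d) → ℂ, IsTest φ →
    Integrable (fun x => fn u x * schr V ħ φ x) (vol d) ∧
      ∫ x, fn u x * schr V ħ φ x ∂(vol d) = ∫ x, fn w x * φ x ∂(vol d)

lemma IsTest.mul_integrable {φ : EuclideanSpace ℝ (Fin d) → ℂ} (hφ : IsTest φ) (u : L2 d) :
    Integrable (fun x => fn u x * φ x) (vol d) := by
  have h1 : MemLp φ 2 (vol d) := hφ.1.continuous.memLp_of_hasCompactSupport hφ.2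
  exact (Lp.memLp (show Lp ℂ 2 (vol d) from u)).integrable_mul h1

lemma Acts.zero (V : EuclideanSpace ℝ (Fin d) → ℂ) (ħ : ℝ) : Acts V ħ 0 0 := by
  intro φ _
  have h1 : (fun x => fn (0 : L2 d) x * schr V ħ φ x) =ᵐ[vol d] fun _ => 0 := by
    filter_upwards [fn_zero (d := d)] with x hx
    rw [hx, zero_mul]
  have h2 : (fun x => fn (0 : L2 d) x * φ x) =ᵐ[vol d] fun _ => 0 := by
    filter_upwards [fn_zero (d := d)] with x hx
    rw [hx, zero_mul]
  exact ⟨(integrable_congr h1).2 (integrable_zero _ _ _), by rw [integral_congr_ae h1,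
    integral_congr_ae h2]⟩

lemma Acts.add {V : EuclideanSpace ℝ (Fin d) → ℂ} {ħ : ℝ} {u w u' w' : L2 d}
    (hp : Acts V ħ u w) (hq : Acts V ħ u' w') : Acts V ħ (u + u') (w + w') := by
  intro φ hφ
  obtain ⟨p1, p2⟩ := hp φ hφ
  obtain ⟨q1, q2⟩ := hq φ hφ
  have h1 : (fun x => fn (u + u') x * schr V ħ φ x) =ᵐ[vol d]
      fun x => fn u x * schr V ħ φ x + fn u' x * schr V ħ φ x := by
    filter_upwards [fn_add u u'] with x hx
    rw [hx]
    ring
  have h2 : (fun x => fn (w + w') x * φ x) =ᵐ[vol d] fun x => fn w x * φ x + fn w' x * φ x := by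
    filter_upwards [fn_add w w'] with x hx
    rw [hx]
    ring
  refine ⟨(integrable_congr h1).2 (p1.add q1), ?_⟩
  rw [integral_congr_ae h1, integral_congr_ae h2, integral_add p1 q1,
    integral_add (hφ.mul_integrable w) (hφ.mul_integrable w'), p2, q2]

lemma Acts.smul {V : EuclideanSpace ℝ (Fin d) → ℂ} {ħ : ℝ} {u w : L2 d}
    (c : ℂ) (hp : Acts V ħ u w) : Acts V ħ (c • u) (c • w) := by
  intro φ hφ
  obtain ⟨p1, p2⟩ := hp φ hφ
  have h1 : (fun x => fn (c • u) x * schr V ħ φ x) =ᵐ[vol d]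
      fun x => c * (fn u x * schr V ħ φ x) := by
    filter_upwards [fn_smul c u] with x hx
    rw [hx]
    ring
  have h2 : (fun x => fn (c • w) x * φ x) =ᵐ[vol d] fun x => c * (fn w x * φ x) := by
    filter_upwards [fn_smul c w] with x hx
    rw [hx]
    ring
  refine ⟨(integrable_congr h1).2 (p1.const_mul c), ?_⟩
  rw [integral_congr_ae h1, integral_congr_ae h2, integral_const_mul, integral_const_mul, p2]

/-- `u` lies in the domain of `H_ħ` and `(H_ħ - E) u ∈ W`. -/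
def PreShift (V : EuclideanSpace ℝ (Fin d) → ℂ) (ħ : ℝ) (E : ℂ) (W : Submodule ℂ (L2 d))
    (u : L2 d) : Prop := ∃ w ∈ W, Acts V ħ u (E • u + w)

lemma PreShift.zero (V : EuclideanSpace ℝ (Fin d) → ℂ) (ħ : ℝ) (E : ℂ)
    (W : Submodule ℂ (L2 d)) : PreShift V ħ E W 0 :=
  ⟨0, W.zero_mem, by rw [smul_zero, add_zero]; exact Acts.zero V ħ⟩

lemma PreShift.add {V : EuclideanSpace ℝ (Fin d) → ℂ} {ħ : ℝ} {E : ℂ} {W : Submodule ℂ (L2 d)}
    {u v : L2 d} (hu : PreShift V ħ E W u) (hv : PreShift V ħ E W v) :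
    PreShift V ħ E W (u + v) := by
  obtain ⟨w, hw, huw⟩ := hu
  obtain ⟨w', hw', hvw⟩ := hv
  refine ⟨w + w', W.add_mem hw hw', ?_⟩
  have h := huw.add hvw
  rwa [show E • (u + v) + (w + w') = (E • u + w) + (E • v + w') by rw [smul_add]; abel]

lemma PreShift.smul {V : EuclideanSpace ℝ (Fin d) → ℂ} {ħ : ℝ} {E : ℂ} {W : Submodule ℂ (L2 d)}
    {u : L2 d} (c : ℂ) (hu : PreShift V ħ E W u) : PreShift V ħ E W (c • u) := by
  obtain ⟨w, hw, huw⟩ := hu
  refine ⟨c • w, W.smul_mem c hw, ?_⟩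
  have h := huw.smul c
  rwa [show E • c • u + c • w = c • (E • u + w) by rw [smul_add, smul_comm]]

/-- The subspace of the vectors `u` in the domain of `H_ħ` with `(H_ħ - E) u ∈ W`. -/
def preShift (V : EuclideanSpace ℝ (Fin d) → ℂ) (ħ : ℝ) (E : ℂ)
    (W : Submodule ℂ (L2 d)) : Submodule ℂ (L2 d) where
  carrier := {u | PreShift V ħ E W u}
  zero_mem' := PreShift.zero V ħ E W
  add_mem' := PreShift.add
  smul_mem' := fun c _ => PreShift.smul c

/-- The generalised eigenspace `ker (H_ħ - E)^n`: start from `0` and apply `preShift` `n` times. -/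
noncomputable def genEig (V : EuclideanSpace ℝ (Fin d) → ℂ) (ħ : ℝ) (E : ℂ) (n : ℕ) :
    Submodule ℂ (L2 d) :=
  (preShift V ħ E)^[n] ⊥

/-- The algebraic multiplicity of `E`: the dimension of `⋃ n, ker (H_ħ - E)^n`
(`0` if `E` is not an eigenvalue). -/
noncomputable def algMult (V : EuclideanSpace ℝ (Fin d) → ℂ) (ħ : ℝ) (E : ℂ) : ℕ∞ :=
  Cardinal.toENat (Module.rank ℂ ↥(⨆ n, genEig V ħ E n))

/-- The half-line `[0, ∞)` in `ℂ`. -/
def halfLine : Set ℂ := {z | 0 ≤ z.re ∧ z.im = 0}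

/-- `S_{γ,σ}(V,ħ) = ∑_j |E_j|^{-σ} dist(E_j, [0,∞))^{γ+σ}`, the sum over the eigenvalues of
`H_ħ = -ħ²Δ + V` outside `[0,∞)`, each repeated according to its algebraic multiplicity. -/
noncomputable def eigSum (V : EuclideanSpace ℝ (Fin d) → ℂ) (ħ γ σ : ℝ) : ℝ≥0∞ :=
  ∑' E : ↥(halfLineᶜ), (algMult V ħ (E : ℂ) : ℝ≥0∞) *
    ENNReal.ofReal (‖(E : ℂ)‖ ^ (-σ) * Metric.infDist (E : ℂ) halfLine ^ (γ + σ))

end Pool.Agent.K3h97.BP
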