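import Pool.Agent.K3h97.BP.Poly

/-! The distributional Laplacian of `P(x) ψ(|x|²)`. -/

set_option autoImplicit false

open MvPolynomial Filter Topology Set MeasureTheory
open scoped ContDiff Laplacian InnerProductSpace

namespace Pool.Agent.K3h97.BP

variable {d : ℕ}

lemma ibp_smooth {f f' φ : EuclideanSpace ℝ (Fin d) → ℂ} (hf : Continuous f) (hf' : Continuous f')
    {v : EuclideanSpace ℝ (Fin d)} (hd : ∀ x, HasLineDerivAt ℝ f (f' x) x v)
    (hφ : ContDiff ℝ 1 φ) (hc : HasCompactSupport φ) :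
    ∫ x, f x * fderiv ℝ φ x v = -∫ x, f' x * φ x := by
  have hφc : Continuous φ := hφ.continuous
  have hφ1 : Continuous fun x => fderiv ℝ φ x v :=
    (hφ.continuous_fderiv one_ne_zero).clm_apply continuous_const
  have hc1 : HasCompactSupport fun x => fderiv ℝ φ x v := hc.fderiv_apply (𝕜 := ℝ) v
  have h := integral_bilinear_hasLineDerivAt_right_eq_neg_left_of_integrable
    (μ := (volume : Measure (EuclideanSpace ℝ (Fin d)))) (B := ContinuousLinearMap.mul ℝ ℂ)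
    (f := f) (f' := f') (g := φ) (g' := fun x => fderiv ℝ φ x v) (v := v)
    ((hf'.mul hφc).integrable_of_hasCompactSupport hc.mul_left)
    ((hf.mul hφ1).integrable_of_hasCompactSupport hc1.mul_left)
    ((hf.mul hφc).integrable_of_hasCompactSupport hc.mul_left)
    (fun x _ => hd x)
    (fun x _ => ((hφ.differentiable one_ne_zero) x).hasFDerivAt.hasLineDerivAt v)
  simpa using h

lemma normsq_hasDerivAt (x : EuclideanSpace ℝ (Fin d)) (i : Fin d) :
    HasDerivAt (fun t : ℝ => ‖x + t • ev i‖ ^ 2) (2 * x i) 0 := by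
  have h1 : (fun t : ℝ => ‖x + t • ev i‖ ^ 2) = fun t : ℝ => ‖x‖ ^ 2 + t * (2 * x i) + t ^ 2 := by
    ext t
    rw [norm_add_sq_real, norm_smul, inner_smul_right]
    have h2 : inner ℝ x (ev i) = x i := by
      rw [ev, EuclideanSpace.inner_single_right]
      simp
    rw [h2]
    simp
    ring
  rw [h1]
  have h3 := (((hasDerivAt_id (0 : ℝ)).mul_const (2 * x i)).const_add (‖x‖ ^ 2)).fun_add
    (hasDerivAt_pow 2 (0 : ℝ))
  simpa using h3

lemma radial_hasLineDerivAt {η : ℝ → ℂ} {q : ℂ} (x : EuclideanSpace ℝ (Fin d)) (i : Fin d)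
    (h : HasDerivAt η q (‖x‖ ^ 2)) :
    HasLineDerivAt ℝ (fun x : EuclideanSpace ℝ (Fin d) => η (‖x‖ ^ 2)) ((2 * x i : ℝ) * q) x
      (ev i) := by
  have h1 := normsq_hasDerivAt x i
  have h0 : ‖x‖ ^ 2 = ‖x + (0 : ℝ) • ev i‖ ^ 2 := by simp
  rw [h0] at h
  have h2 := h.scomp (0 : ℝ) h1
  exact h2

/-- the cutoff -/
noncomputable def lamn (n : ℕ) (w : ℝ) : ℝ := min 1 (max 0 (n * (w - 1)))

lemma lamn_cont (n : ℕ) : Continuous (lamn n) := by unfold lamn; fun_prop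

lemma lamn_mem (n : ℕ) (w : ℝ) : 0 ≤ lamn n w ∧ lamn n w ≤ 1 :=
  ⟨le_min zero_le_one (le_max_left _ _), min_le_left _ _⟩

lemma lamn_low (n : ℕ) {w : ℝ} (hw : w ≤ 1) : lamn n w = 0 := by
  unfold lamn
  have : (n : ℝ) * (w - 1) ≤ 0 := mul_nonpos_of_nonneg_of_nonpos (Nat.cast_nonneg n) (by linarith)
  rw [max_eq_left this]
  simp

lemma lamn_high {w : ℝ} (hw : 1 < w) : ∀ᶠ n : ℕ in atTop, lamn n w = 1 := by
  obtain ⟨N, hN⟩ := exists_nat_gt (1 / (w - 1))
  filter_upwards [eventually_ge_atTop N] with n hn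
  have h1 : (1 : ℝ) / (w - 1) ≤ n := hN.le.trans (by exact_mod_cast hn)
  have h2 : 0 < w - 1 := by linarith
  rw [div_le_iff₀ h2] at h1
  unfold lamn
  rw [max_eq_right (by linarith), min_eq_left h1]

/-- the approximating derivatives -/
noncomputable def qn (qa qb : ℝ → ℂ) (n : ℕ) (w : ℝ) : ℂ := (1 - lamn n w) * qa w + lamn n w * qb w

/-- the piecewise derivative -/
noncomputable def qq (qa qb : ℝ → ℂ) (w : ℝ) : ℂ := if w ≤ 1 then qa w else qb w

lemma qn_cont {qa qb : ℝ → ℂ} (hqa : Continuous qa) (hqb : Continuous qb) (n : ℕ) :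
    Continuous (qn qa qb n) := by
  have := lamn_cont n
  unfold qn
  fun_prop

lemma qn_norm (qa qb : ℝ → ℂ) (n : ℕ) (w : ℝ) : ‖qn qa qb n w‖ ≤ ‖qa w‖ + ‖qb w‖ := by
  unfold qn
  obtain ⟨h1, h2⟩ := lamn_mem n w
  refine (norm_add_le _ _).trans ?_
  have h3 : ‖((1 : ℂ) - lamn n w)‖ ≤ 1 := by
    rw [← Complex.ofReal_one, ← Complex.ofReal_sub, Complex.norm_real, Real.norm_of_nonneg (by linarith)]
    linarith
  have h4 : ‖(lamn n w : ℂ)‖ ≤ 1 := by
    rw [Complex.norm_real, Real.norm_of_nonneg h1]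
    exact h2
  rw [norm_mul, norm_mul]
  have := norm_nonneg (qa w)
  have := norm_nonneg (qb w)
  nlinarith

lemma qq_norm (qa qb : ℝ → ℂ) (w : ℝ) : ‖qq qa qb w‖ ≤ ‖qa w‖ + ‖qb w‖ := by
  unfold qq
  split_ifs
  · linarith [norm_nonneg (qb w)]
  · linarith [norm_nonneg (qa w)]

lemma qn_tendsto (qa qb : ℝ → ℂ) (w : ℝ) :
    Tendsto (fun n => qn qa qb n w) atTop (𝓝 (qq qa qb w)) := by
  refine tendsto_const_nhds.congr' ?_
  rcases le_or_gt w 1 with h | h
  · filter_upwards with n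
    rw [qn, lamn_low n h, qq, if_pos h]
    simp
  · filter_upwards [lamn_high h] with n hn
    rw [qn, hn, qq, if_neg (not_le.2 h)]
    simp

lemma qq_meas {qa qb : ℝ → ℂ} (hqa : Continuous qa) (hqb : Continuous qb) :
    Measurable (qq qa qb) := by
  unfold qq
  exact Measurable.ite measurableSet_Iic hqa.measurable hqb.measurable

lemma eta_eq {η qa qb : ℝ → ℂ} (hη : Continuous η) (hqa : Continuous qa) (hqb : Continuous qb)
    (hd1 : ∀ w, w < 1 → HasDerivAt η (qa w) w) (hd2 : ∀ w, 1 < w → HasDerivAt η (qb w) w) (w : ℝ) :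
    η w = η 0 + ∫ t in (0 : ℝ)..w, qq qa qb t := by
  have hint : IntervalIntegrable (qq qa qb) volume 0 w := by
    have h1 : IntervalIntegrable (fun t => ‖qa t‖ + ‖qb t‖) volume 0 w :=
      (hqa.norm.add hqb.norm).intervalIntegrable _ _
    refine h1.mono_fun (qq_meas hqa hqb).aestronglyMeasurable ?_
    filter_upwards with t
    rw [Real.norm_of_nonneg (by positivity)]
    exact qq_norm qa qb t
  have h := MeasureTheory.integral_eq_of_hasDerivAt_off_countable η (qq qa qb)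
    (a := 0) (b := w) (s := {1}) (countable_singleton 1) hη.continuousOn
    (by
      rintro t ⟨-, ht⟩
      rw [mem_singleton_iff] at ht
      rcases lt_or_gt_of_ne ht with h1 | h1
      · have := hd1 t h1
        rwa [qq, if_pos h1.le]
      · have := hd2 t h1
        rwa [qq, if_neg (not_le.2 h1)]) hint
  rw [h]
  ring

theorem ibp (G : MvPolynomial (Fin d) ℂ) {η qa qb : ℝ → ℂ} (hη : Continuous η)
    (hqa : Continuous qa) (hqb : Continuous qb)
    (hd1 : ∀ w, w < 1 → HasDerivAt η (qa w) w) (hd2 : ∀ w, 1 < w → HasDerivAt η (qb w) w)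
    {φ : EuclideanSpace ℝ (Fin d) → ℂ} (hφ : ContDiff ℝ 1 φ) (hc : HasCompactSupport φ)
    (i : Fin d) :
    (Integrable fun x => (pf (pderiv i G) x * η (‖x‖ ^ 2) +
      pf G x * ((2 * x i : ℝ) * qq qa qb (‖x‖ ^ 2))) * φ x) ∧
    ∫ x, pf G x * η (‖x‖ ^ 2) * fderiv ℝ φ x (ev i) =
      -∫ x, (pf (pderiv i G) x * η (‖x‖ ^ 2) + pf G x * ((2 * x i : ℝ) * qq qa qb (‖x‖ ^ 2))) *
        φ x := by
  have hφc : Continuous φ := hφ.continuous
  have hφ1 : Continuous fun x => fderiv ℝ φ x (ev i) :=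
    (hφ.continuous_fderiv one_ne_zero).clm_apply continuous_const
  have hc1 : HasCompactSupport fun x => fderiv ℝ φ x (ev i) := hc.fderiv_apply (𝕜 := ℝ) (ev i)
  have hGc := pf_continuous G
  have hG1c := pf_continuous (pderiv i G)
  have hxi : Continuous fun x : EuclideanSpace ℝ (Fin d) => x i :=
    (EuclideanSpace.proj (𝕜 := ℝ) i).continuous
  -- the support is bounded
  obtain ⟨B, hB⟩ : ∃ B : ℝ, ∀ x ∈ tsupport φ, ‖x‖ ≤ B :=
    hc.isCompact.isBounded.exists_norm_le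
  have hB' : ∀ x ∈ tsupport φ, ‖x‖ ^ 2 ∈ Icc (0 : ℝ) (B ^ 2) := by
    intro x hx
    have h0 := norm_nonneg x
    have h1 := hB x hx
    constructor
    · positivity
    · gcongr
  obtain ⟨M1, hM1⟩ := (isCompact_Icc (a := (0 : ℝ)) (b := B ^ 2)).exists_bound_of_continuousOn
    hqa.continuousOn
  obtain ⟨M2, hM2⟩ := (isCompact_Icc (a := (0 : ℝ)) (b := B ^ 2)).exists_bound_of_continuousOn
    hqb.continuousOn
  obtain ⟨M, hM⟩ : ∃ M : ℝ, M = |M1| + |M2| := ⟨_, rfl⟩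
  have hM0 : 0 ≤ M := by rw [hM]; positivity
  have hqM : ∀ w ∈ Icc (0 : ℝ) (B ^ 2), ‖qa w‖ + ‖qb w‖ ≤ M := by
    intro w hw
    rw [hM]
    exact add_le_add ((hM1 w hw).trans (le_abs_self _)) ((hM2 w hw).trans (le_abs_self _))
  set ηn : ℕ → ℝ → ℂ := fun n w => η 0 + ∫ t in (0 : ℝ)..w, qn qa qb n t with hηn
  have hηnd : ∀ n w, HasDerivAt (ηn n) (qn qa qb n w) w := by
    intro n w
    exact ((qn_cont hqa hqb n).integral_hasStrictDerivAt 0 w).hasDerivAt.const_add (η 0)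
  have hηnc : ∀ n, Continuous (ηn n) := fun n =>
    continuous_iff_continuousAt.2 fun w => (hηnd n w).continuousAt
  have hηnb : ∀ n, ∀ w ∈ Icc (0 : ℝ) (B ^ 2), ‖ηn n w‖ ≤ ‖η 0‖ + M * B ^ 2 := by
    intro n w hw
    simp only [hηn]
    refine (norm_add_le _ _).trans (add_le_add le_rfl ?_)
    have h1 := intervalIntegral.norm_integral_le_of_norm_le_const (a := 0) (b := w)
      (f := qn qa qb n) (C := M) (by
        intro t ht
        rw [uIoc_of_le hw.1] at ht
        exact (qn_norm qa qb n t).trans (hqM t ⟨ht.1.le, ht.2.trans hw.2⟩))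
    rw [sub_zero, abs_of_nonneg hw.1] at h1
    exact h1.trans (mul_le_mul_of_nonneg_left hw.2 hM0)
  have hηnt : ∀ w ∈ Icc (0 : ℝ) (B ^ 2), Tendsto (fun n => ηn n w) atTop (𝓝 (η w)) := by
    intro w hw
    rw [eta_eq hη hqa hqb hd1 hd2 w]
    refine Tendsto.const_add (η 0) ?_
    refine intervalIntegral.tendsto_integral_filter_of_dominated_convergence (fun _ => M) ?_ ?_ ?_ ?_
    · exact Eventually.of_forall fun n => (qn_cont hqa hqb n).aestronglyMeasurable
    · refine Eventually.of_forall fun n => ?_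
      filter_upwards with t ht
      rw [uIoc_of_le hw.1] at ht
      exact (qn_norm qa qb n t).trans (hqM t ⟨ht.1.le, ht.2.trans hw.2⟩)
    · exact intervalIntegrable_const
    · filter_upwards with t _
      exact qn_tendsto qa qb t
  -- the identity for the approximations
  have hid : ∀ n, ∫ x, pf G x * ηn n (‖x‖ ^ 2) * fderiv ℝ φ x (ev i) =
      -∫ x, (pf (pderiv i G) x * ηn n (‖x‖ ^ 2) +
        pf G x * ((2 * x i : ℝ) * qn qa qb n (‖x‖ ^ 2))) * φ x := by
    intro n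
    have hqc := qn_cont hqa hqb n
    have hec := hηnc n
    refine ibp_smooth (f := fun x => pf G x * ηn n (‖x‖ ^ 2)) (by fun_prop) ?_ (fun x => ?_) hφ hc
    · have h2 : Continuous fun x : EuclideanSpace ℝ (Fin d) => ((2 * x i : ℝ) : ℂ) :=
        Complex.continuous_ofReal.comp (hxi.const_mul 2 |> fun h => by simpa using h)
      have h3 : Continuous fun x : EuclideanSpace ℝ (Fin d) => ‖x‖ ^ 2 := by fun_prop
      exact ((hG1c.mul (hec.comp h3)).add (hGc.mul (h2.mul (hqc.comp h3))))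
    · exact HasLineDerivAt.mul' (pf_hasLineDerivAt G i x)
        (radial_hasLineDerivAt x i (hηnd n (‖x‖ ^ 2)))
  -- limits
  have hsupp1 : ∀ x, fderiv ℝ φ x (ev i) ≠ 0 → x ∈ tsupport φ := by
    intro x hx
    have h1 : x ∈ tsupport (fun x => fderiv ℝ φ x (ev i)) := subset_tsupport _ hx
    exact tsupport_fderiv_apply_subset ℝ (ev i) h1
  have hsupp0 : ∀ x, φ x ≠ 0 → x ∈ tsupport φ := fun x hx => subset_tsupport _ hx
  have hlim1 : Tendsto (fun n => ∫ x, pf G x * ηn n (‖x‖ ^ 2) * fderiv ℝ φ x (ev i)) atTop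
      (𝓝 (∫ x, pf G x * η (‖x‖ ^ 2) * fderiv ℝ φ x (ev i))) := by
    refine tendsto_integral_of_dominated_convergence
      (fun x => (‖η 0‖ + M * B ^ 2) * ‖pf G x * fderiv ℝ φ x (ev i)‖) ?_ ?_ ?_ ?_
    · intro n
      have hec := hηnc n
      exact Continuous.aestronglyMeasurable (by fun_prop)
    · exact (((hGc.mul hφ1).integrable_of_hasCompactSupport hc1.mul_left).norm).const_mul _
    · intro n
      filter_upwards with x
      by_cases hx : fderiv ℝ φ x (ev i) = 0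
      · simp [hx]
      · have h1 := hηnb n _ (hB' x (hsupp1 x hx))
        rw [norm_mul, norm_mul, norm_mul]
        have h2 := mul_le_mul_of_nonneg_right h1
          (mul_nonneg (norm_nonneg (pf G x)) (norm_nonneg (fderiv ℝ φ x (ev i))))
        linarith
    · filter_upwards with x
      by_cases hx : fderiv ℝ φ x (ev i) = 0
      · simp [hx]
      · exact ((hηnt _ (hB' x (hsupp1 x hx))).const_mul _).mul_const _
  have hmeasR : AEStronglyMeasurable (fun x : EuclideanSpace ℝ (Fin d) =>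
      (pf (pderiv i G) x * η (‖x‖ ^ 2) + pf G x * ((2 * x i : ℝ) * qq qa qb (‖x‖ ^ 2))) * φ x) := by
    have h3 : Continuous fun x : EuclideanSpace ℝ (Fin d) => ‖x‖ ^ 2 := by fun_prop
    have h4 : Measurable fun x : EuclideanSpace ℝ (Fin d) => qq qa qb (‖x‖ ^ 2) :=
      (qq_meas hqa hqb).comp h3.measurable
    have h5 : Measurable fun x : EuclideanSpace ℝ (Fin d) => ((2 * x i : ℝ) : ℂ) :=
      Complex.measurable_ofReal.comp (hxi.measurable.const_mul 2)
    exact (((hG1c.measurable.mul (hη.comp h3).measurable).add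
      (hGc.measurable.mul (h5.mul h4))).mul hφc.measurable).aestronglyMeasurable
  have hbd2 : Integrable (fun x : EuclideanSpace ℝ (Fin d) => (‖η 0‖ + M * B ^ 2) *
      ‖pf (pderiv i G) x * φ x‖ + M * ‖pf G x * ((2 * x i : ℝ) : ℂ) * φ x‖) := by
    have h5 : Continuous fun x : EuclideanSpace ℝ (Fin d) => ((2 * x i : ℝ) : ℂ) := by
      have : Continuous fun x : EuclideanSpace ℝ (Fin d) => 2 * x i := by fun_prop
      exact Complex.continuous_ofReal.comp this
    exact ((((hG1c.mul hφc).integrable_of_hasCompactSupport hc.mul_left).norm).const_mul _).add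
      (((((hGc.mul h5).mul hφc).integrable_of_hasCompactSupport hc.mul_left).norm).const_mul _)
  have hbound : ∀ (x : EuclideanSpace ℝ (Fin d)) (u v : ℂ), (φ x ≠ 0 → ‖u‖ ≤ ‖η 0‖ + M * B ^ 2) →
      (φ x ≠ 0 → ‖v‖ ≤ M) →
      ‖(pf (pderiv i G) x * u + pf G x * ((2 * x i : ℝ) * v)) * φ x‖ ≤ (‖η 0‖ + M * B ^ 2) *
      ‖pf (pderiv i G) x * φ x‖ + M * ‖pf G x * ((2 * x i : ℝ) : ℂ) * φ x‖ := by
    intro x u v hu hv
    by_cases hx : φ x = 0
    · simp [hx]
    · have h1 : (pf (pderiv i G) x * u + pf G x * ((2 * x i : ℝ) * v)) * φ x =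
          u * (pf (pderiv i G) x * φ x) + v * (pf G x * ((2 * x i : ℝ) : ℂ) * φ x) := by ring
      rw [h1]
      refine (norm_add_le _ _).trans ?_
      rw [norm_mul u, norm_mul v]
      exact add_le_add (mul_le_mul_of_nonneg_right (hu hx) (norm_nonneg _))
        (mul_le_mul_of_nonneg_right (hv hx) (norm_nonneg _))
  have hηb : ∀ w ∈ Icc (0 : ℝ) (B ^ 2), ‖η w‖ ≤ ‖η 0‖ + M * B ^ 2 := fun w hw =>
    le_of_tendsto (hηnt w hw).norm (Eventually.of_forall fun n => hηnb n w hw)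
  have hint : Integrable fun x => (pf (pderiv i G) x * η (‖x‖ ^ 2) +
      pf G x * ((2 * x i : ℝ) * qq qa qb (‖x‖ ^ 2))) * φ x := by
    refine hbd2.mono' hmeasR ?_
    filter_upwards with x
    exact hbound x _ _ (fun hx => hηb _ (hB' x (hsupp0 x hx)))
      (fun hx => (qq_norm qa qb _).trans (hqM _ (hB' x (hsupp0 x hx))))
  refine ⟨hint, ?_⟩
  have hlim2 : Tendsto (fun n => ∫ x, (pf (pderiv i G) x * ηn n (‖x‖ ^ 2) +
        pf G x * ((2 * x i : ℝ) * qn qa qb n (‖x‖ ^ 2))) * φ x) atTop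
      (𝓝 (∫ x, (pf (pderiv i G) x * η (‖x‖ ^ 2) +
        pf G x * ((2 * x i : ℝ) * qq qa qb (‖x‖ ^ 2))) * φ x)) := by
    refine tendsto_integral_of_dominated_convergence _ ?_ hbd2 ?_ ?_
    · intro n
      have hqc := qn_cont hqa hqb n
      have hec := hηnc n
      have h3 : Continuous fun x : EuclideanSpace ℝ (Fin d) => ‖x‖ ^ 2 := by fun_prop
      have h5 : Continuous fun x : EuclideanSpace ℝ (Fin d) => ((2 * x i : ℝ) : ℂ) := by
        have : Continuous fun x : EuclideanSpace ℝ (Fin d) => 2 * x i := by fun_prop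
        exact Complex.continuous_ofReal.comp this
      exact (((hG1c.mul (hec.comp h3)).add
        (hGc.mul (h5.mul (hqc.comp h3)))).mul hφc).aestronglyMeasurable
    · intro n
      filter_upwards with x
      exact hbound x _ _ (fun hx => hηnb n _ (hB' x (hsupp0 x hx)))
        (fun hx => (qn_norm qa qb n _).trans (hqM _ (hB' x (hsupp0 x hx))))
    · filter_upwards with x
      by_cases hx : φ x = 0
      · simp [hx]
      · refine Tendsto.mul_const _ (Tendsto.add ((hηnt _ (hB' x (hsupp0 x hx))).const_mul _) ?_)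
        exact ((qn_tendsto qa qb _).const_mul _).const_mul _
  have h1 := tendsto_nhds_unique hlim1 ((hlim2.neg).congr fun n => (hid n).symm)
  exact h1

lemma laplacian_eq {φ : EuclideanSpace ℝ (Fin d) → ℂ} (hφ : ContDiff ℝ ∞ φ)
    (x : EuclideanSpace ℝ (Fin d)) :
    Δ φ x = ∑ i : Fin d, fderiv ℝ (fun y => fderiv ℝ φ y (ev i)) x (ev i) := by
  have h1 := congrFun (InnerProductSpace.laplacian_eq_iteratedFDeriv_orthonormalBasis φ
    (EuclideanSpace.basisFun (Fin d) ℝ)) x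
  rw [h1]
  refine Finset.sum_congr rfl fun i _ => ?_
  rw [EuclideanSpace.basisFun_apply, iteratedFDeriv_two_apply]
  have h2 : DifferentiableAt ℝ (fderiv ℝ φ) x :=
    ((hφ.fderiv_right (m := ∞) (by norm_num)).differentiable (by norm_num)) x
  have h3 := (h2.hasFDerivAt.clm_apply (hasFDerivAt_const (ev i) x)).fderiv
  rw [h3]
  simp

/-- `Δ(P ψ(|x|²))` in the sense of distributions -/
theorem green {ℓ : ℕ} {P : MvPolynomial (Fin d) ℂ} (hP : P ∈ Har d ℓ) {ψ ψ1 qa qb : ℝ → ℂ}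
    (hψ : Continuous ψ) (hψ1 : Continuous ψ1) (hqa : Continuous qa) (hqb : Continuous qb)
    (hd : ∀ w, w ≠ 1 → HasDerivAt ψ (ψ1 w) w)
    (hd1 : ∀ w, w < 1 → HasDerivAt ψ1 (qa w) w) (hd2 : ∀ w, 1 < w → HasDerivAt ψ1 (qb w) w)
    {φ : EuclideanSpace ℝ (Fin d) → ℂ} (hφ : ContDiff ℝ ∞ φ) (hc : HasCompactSupport φ) :
    ∫ x, pf P x * ψ (‖x‖ ^ 2) * Δ φ x =
      ∫ x, pf P x * (4 * (‖x‖ ^ 2 : ℝ) * qq qa qb (‖x‖ ^ 2) + (2 * d + 4 * ℓ) * ψ1 (‖x‖ ^ 2)) *
        φ x := by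
  rw [mem_Har] at hP
  obtain ⟨hhom, hharm⟩ := hP
  have hφi : ∀ i : Fin d, ContDiff ℝ ∞ fun y => fderiv ℝ φ y (ev i) := fun i =>
    (hφ.fderiv_right (m := ∞) (by norm_num)).clm_apply contDiff_const
  have hci : ∀ i : Fin d, HasCompactSupport fun y => fderiv ℝ φ y (ev i) := fun i =>
    hc.fderiv_apply (𝕜 := ℝ) (ev i)
  have hqq : ∀ w, qq ψ1 ψ1 w = ψ1 w := fun w => by unfold qq; split_ifs <;> rfl
  have hφc : Continuous φ := hφ.continuous
  have hφic : ∀ i : Fin d, Continuous fun y => fderiv ℝ φ y (ev i) := fun i => (hφi i).continuous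
  -- each direction
  have hdir : ∀ i : Fin d,
      (Integrable fun x => (pf (pderiv i (pderiv i P)) x * ψ (‖x‖ ^ 2) +
        4 * pf (X i * pderiv i P) x * ψ1 (‖x‖ ^ 2) + 2 * pf P x * ψ1 (‖x‖ ^ 2) +
        4 * ((x i ^ 2 : ℝ) : ℂ) * pf P x * qq qa qb (‖x‖ ^ 2)) * φ x) ∧
      ∫ x, pf P x * ψ (‖x‖ ^ 2) * fderiv ℝ (fun y => fderiv ℝ φ y (ev i)) x (ev i) =
      ∫ x, (pf (pderiv i (pderiv i P)) x * ψ (‖x‖ ^ 2) +
        4 * pf (X i * pderiv i P) x * ψ1 (‖x‖ ^ 2) + 2 * pf P x * ψ1 (‖x‖ ^ 2) +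
        4 * ((x i ^ 2 : ℝ) : ℂ) * pf P x * qq qa qb (‖x‖ ^ 2)) * φ x := by
    intro i
    have e1 := (ibp P hψ hψ1 hψ1 (fun w hw => hd w hw.ne) (fun w hw => hd w hw.ne')
      ((hφi i).of_le (by norm_num)) (hci i) i).2
    have e2 := ibp (pderiv i P) hψ hψ1 hψ1 (fun w hw => hd w hw.ne) (fun w hw => hd w hw.ne')
      (hφ.of_le (by norm_num)) hc i
    have e3 := ibp (C 2 * X i * P) hψ1 hqa hqb hd1 hd2 (hφ.of_le (by norm_num)) hc i
    have hsplit : ∫ x, (pf (pderiv i P) x * ψ (‖x‖ ^ 2) +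
        pf P x * ((2 * x i : ℝ) * qq ψ1 ψ1 (‖x‖ ^ 2))) * fderiv ℝ φ x (ev i) =
        (∫ x, pf (pderiv i P) x * ψ (‖x‖ ^ 2) * fderiv ℝ φ x (ev i)) +
        ∫ x, pf (C 2 * X i * P) x * ψ1 (‖x‖ ^ 2) * fderiv ℝ φ x (ev i) := by
      have h3 : Continuous fun x : EuclideanSpace ℝ (Fin d) => ‖x‖ ^ 2 := by fun_prop
      rw [← integral_add]
      · congr 1
        ext x
        rw [hqq, pf_mul, pf_mul, pf_C, pf_X]
        push_cast
        ring
      · exact ((((pf_continuous _).mul (hψ.comp h3)).mul (hφic i)).integrable_of_hasCompactSupport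
          (hci i).mul_left)
      · exact ((((pf_continuous _).mul (hψ1.comp h3)).mul (hφic i)).integrable_of_hasCompactSupport
          (hci i).mul_left)
    have hpt : ∀ x : EuclideanSpace ℝ (Fin d), (pf (pderiv i (pderiv i P)) x * ψ (‖x‖ ^ 2) +
        4 * pf (X i * pderiv i P) x * ψ1 (‖x‖ ^ 2) + 2 * pf P x * ψ1 (‖x‖ ^ 2) +
        4 * ((x i ^ 2 : ℝ) : ℂ) * pf P x * qq qa qb (‖x‖ ^ 2)) * φ x =
        (pf (pderiv i (pderiv i P)) x * ψ (‖x‖ ^ 2) +
          pf (pderiv i P) x * ((2 * x i : ℝ) * qq ψ1 ψ1 (‖x‖ ^ 2))) * φ x +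
        (pf (pderiv i (C 2 * X i * P)) x * ψ1 (‖x‖ ^ 2) +
          pf (C 2 * X i * P) x * ((2 * x i : ℝ) * qq qa qb (‖x‖ ^ 2))) * φ x := by
      intro x
      have h4 : pf (pderiv i (C 2 * X i * P)) x = 2 * pf P x + 2 * (x i : ℂ) * pf (pderiv i P) x := by
        rw [pderiv_mul, pderiv_mul, pderiv_C, pderiv_X_self, pf_add, pf_mul, pf_mul, pf_mul,
          pf_add, pf_mul, pf_mul, pf_C, pf_X, pf_zero]
        have : pf (1 : MvPolynomial (Fin d) ℂ) x = 1 := by simp [pf]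
        rw [this]
        ring
      rw [h4, hqq, pf_mul, pf_mul, pf_mul, pf_C, pf_X]
      push_cast
      ring
    refine ⟨(e2.1.add e3.1).congr (Eventually.of_forall fun x => (hpt x).symm), ?_⟩
    rw [e1, hsplit, e2.2, e3.2, neg_add, neg_neg, neg_neg, ← integral_add e2.1 e3.1]
    congr 1
    ext x
    exact (hpt x).symm
  have hfc : ∀ i : Fin d, Continuous fun x => fderiv ℝ (fun y => fderiv ℝ φ y (ev i)) x (ev i) :=
    fun i => (((hφi i).continuous_fderiv (by norm_num)).clm_apply continuous_const)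
  have hfs : ∀ i : Fin d, HasCompactSupport
      fun x => fderiv ℝ (fun y => fderiv ℝ φ y (ev i)) x (ev i) :=
    fun i => (hci i).fderiv_apply (𝕜 := ℝ) (ev i)
  have h3 : Continuous fun x : EuclideanSpace ℝ (Fin d) => ‖x‖ ^ 2 := by fun_prop
  calc ∫ x, pf P x * ψ (‖x‖ ^ 2) * Δ φ x =
      ∫ x, ∑ i : Fin d, pf P x * ψ (‖x‖ ^ 2) *
        fderiv ℝ (fun y => fderiv ℝ φ y (ev i)) x (ev i) := by
        congr 1
        ext x
        rw [laplacian_eq hφ, Finset.mul_sum]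
    _ = ∑ i : Fin d, ∫ x, pf P x * ψ (‖x‖ ^ 2) *
        fderiv ℝ (fun y => fderiv ℝ φ y (ev i)) x (ev i) := by
        refine integral_finsetSum _ fun i _ => ?_
        exact ((((pf_continuous _).mul (hψ.comp h3)).mul (hfc i)).integrable_of_hasCompactSupport
          (hfs i).mul_left)
    _ = ∑ i : Fin d, ∫ x, (pf (pderiv i (pderiv i P)) x * ψ (‖x‖ ^ 2) +
        4 * pf (X i * pderiv i P) x * ψ1 (‖x‖ ^ 2) + 2 * pf P x * ψ1 (‖x‖ ^ 2) +
        4 * ((x i ^ 2 : ℝ) : ℂ) * pf P x * qq qa qb (‖x‖ ^ 2)) * φ x :=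
        Finset.sum_congr rfl fun i _ => (hdir i).2
    _ = ∫ x, ∑ i : Fin d, (pf (pderiv i (pderiv i P)) x * ψ (‖x‖ ^ 2) +
        4 * pf (X i * pderiv i P) x * ψ1 (‖x‖ ^ 2) + 2 * pf P x * ψ1 (‖x‖ ^ 2) +
        4 * ((x i ^ 2 : ℝ) : ℂ) * pf P x * qq qa qb (‖x‖ ^ 2)) * φ x :=
        (integral_finsetSum _ fun i _ => (hdir i).1).symm
    _ = _ := by
        congr 1
        ext x
        rw [← Finset.sum_mul, Finset.sum_add_distrib, Finset.sum_add_distrib,
          Finset.sum_add_distrib, ← Finset.sum_mul, ← pf_sum, hharm, pf_zero, ← Finset.sum_mul,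
          ← Finset.mul_sum, ← pf_sum, hhom.sum_X_mul_pderiv, Finset.sum_const, ← Finset.sum_mul,
          ← Finset.sum_mul, ← Finset.mul_sum, ← Complex.ofReal_sum]
        have h4 : ∑ i : Fin d, x i ^ 2 = ‖x‖ ^ 2 := by
          rw [EuclideanSpace.norm_sq_eq]
          simp
        have h5 : pf (ℓ • P) x = ℓ * pf P x := by simp [pf]
        rw [h4, h5, Finset.card_univ, Fintype.card_fin, nsmul_eq_mul]
        ring

end Pool.Agent.K3h97.BP
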