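import Pool.Agent.K3h97.BP.Ext
import Pool.Agent.K3h97.BP.Phi
import Pool.Agent.K3h97.BP.Weak

/-! The eigenfunctions. -/

set_option autoImplicit false

open MvPolynomial Filter Topology Set MeasureTheory
open scoped ContDiff Laplacian InnerProductSpace

namespace Pool.Agent.K3h97.BP

variable {d : ℕ}

/-- the inner radial profile -/
noncomputable def pin (m : ℕ) (c : ℂ) (w : ℝ) : ℂ := Phi (m + 2) (c * w)

noncomputable def pin1 (m : ℕ) (c : ℂ) (w : ℝ) : ℂ :=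
  -(c / (2 * (m + 2 : ℕ))) * Phi (m + 4) (c * w)

noncomputable def pin2 (m : ℕ) (c : ℂ) (w : ℝ) : ℂ :=
  c ^ 2 / (4 * (m + 2 : ℕ) * (m + 4 : ℕ)) * Phi (m + 6) (c * w)

/-- the outer radial profile -/
noncomputable def pout (m : ℕ) (κ : ℂ) (w : ℝ) : ℂ := KI 0 m (κ * Real.sqrt w)

noncomputable def pout1 (m : ℕ) (κ : ℂ) (w : ℝ) : ℂ :=
  -(κ / (2 * Real.sqrt w)) * KI 1 m (κ * Real.sqrt w)

noncomputable def pout2 (m : ℕ) (κ : ℂ) (w : ℝ) : ℂ :=
  (κ ^ 2 * pout m κ w - 2 * (m + 2 : ℕ) * pout1 m κ w) / (4 * w)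

lemma mul_hasDerivAt (c : ℂ) (w : ℝ) : HasDerivAt (fun w : ℝ => c * (w : ℂ)) c w := by
  have e1 : HasDerivAt (fun r : ℝ => (r : ℂ)) 1 w := Complex.ofRealCLM.hasDerivAt
  simpa using e1.const_mul c

lemma pin_hasDerivAt (m : ℕ) (c : ℂ) (w : ℝ) : HasDerivAt (pin m c) (pin1 m c w) w := by
  have h1 := (Phi_hasDerivAt (by omega : 1 ≤ m + 2) (c * w)).scomp w (mul_hasDerivAt c w)
  refine HasDerivAt.congr_deriv (f := pin m c) h1 ?_
  rw [pin1, smul_eq_mul]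
  ring

lemma pin1_hasDerivAt (m : ℕ) (c : ℂ) (w : ℝ) : HasDerivAt (pin1 m c) (pin2 m c w) w := by
  have h1 := ((Phi_hasDerivAt (by omega : 1 ≤ m + 4) (c * w)).scomp w (mul_hasDerivAt c w)).const_mul
    (-(c / (2 * (m + 2 : ℕ))))
  refine HasDerivAt.congr_deriv (f := pin1 m c) h1 ?_
  rw [pin2, smul_eq_mul]
  have h2 : ((m + 2 : ℕ) : ℂ) ≠ 0 := by exact_mod_cast (by omega : m + 2 ≠ 0)
  have h4 : ((m + 4 : ℕ) : ℂ) ≠ 0 := by exact_mod_cast (by omega : m + 4 ≠ 0)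
  field_simp
  ring

lemma pin_cont (m : ℕ) (c : ℂ) : Continuous (pin m c) :=
  continuous_iff_continuousAt.2 fun w => (pin_hasDerivAt m c w).continuousAt

lemma pin1_cont (m : ℕ) (c : ℂ) : Continuous (pin1 m c) :=
  continuous_iff_continuousAt.2 fun w => (pin1_hasDerivAt m c w).continuousAt

lemma Phi_cont {D : ℕ} (hD : 1 ≤ D) : Continuous (Phi D) :=
  continuous_iff_continuousAt.2 fun w => (Phi_hasDerivAt hD w).continuousAt

lemma pin2_cont (m : ℕ) (c : ℂ) : Continuous (pin2 m c) := by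
  have := Phi_cont (by omega : 1 ≤ m + 6)
  unfold pin2
  fun_prop

lemma pin_ode (m : ℕ) (c : ℂ) (w : ℝ) :
    4 * (w : ℂ) * pin2 m c w + 2 * (m + 2 : ℕ) * pin1 m c w = -c * pin m c w := by
  have h := Phi_rec (by omega : 1 ≤ m + 2) (c * w)
  have h2 : ((m + 2 : ℕ) : ℂ) ≠ 0 := by exact_mod_cast (by omega : m + 2 ≠ 0)
  have h4 : ((m + 4 : ℕ) : ℂ) ≠ 0 := by exact_mod_cast (by omega : m + 4 ≠ 0)
  have h5 : (((m + 2 : ℕ) : ℂ) + 2) = ((m + 4 : ℕ) : ℂ) := by push_cast; ring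
  rw [h5] at h
  rw [pin2, pin1, pin]
  have e1 : 4 * (w : ℂ) * (c ^ 2 / (4 * (m + 2 : ℕ) * (m + 4 : ℕ)) * Phi (m + 6) (c * w)) =
      c * ((c * w) / ((m + 2 : ℕ) * (m + 4 : ℕ)) * Phi (m + 6) (c * w)) := by
    field_simp
  have e2 : 2 * ((m + 2 : ℕ) : ℂ) * (-(c / (2 * (m + 2 : ℕ))) * Phi (m + 4) (c * w)) =
      -c * Phi (m + 4) (c * w) := by
    field_simp
  rw [e1, e2]
  rw [show m + 2 + 4 = m + 6 by ring, show m + 2 + 2 = m + 4 by ring] at h
  rw [h]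
  ring

lemma sqrt_hasDerivAt_c (κ : ℂ) {w : ℝ} (hw : 0 < w) :
    HasDerivAt (fun w : ℝ => κ * ((Real.sqrt w : ℝ) : ℂ)) (κ / (2 * Real.sqrt w)) w := by
  have h1 := (Real.hasDerivAt_sqrt hw.ne').ofReal_comp
  refine (h1.const_mul κ).congr_deriv ?_
  push_cast
  ring

lemma pout_hasDerivAt (m : ℕ) {κ : ℂ} (hκ : 0 < κ.re) {w : ℝ} (hw : 0 < w) :
    HasDerivAt (pout m κ) (pout1 m κ w) w := by
  have hr : 0 < Real.sqrt w := Real.sqrt_pos.2 hw
  have hkr : 0 < (κ * (Real.sqrt w : ℝ)).re := by rw [Complex.re_mul_ofReal]; positivity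
  have h1 := (KI_hasDerivAt 0 m hkr).scomp w (sqrt_hasDerivAt_c κ hw)
  refine HasDerivAt.congr_deriv (f := pout m κ) h1 ?_
  rw [pout1, smul_eq_mul]
  ring

lemma pout1_hasDerivAt (m : ℕ) {κ : ℂ} (hκ : 0 < κ.re) {w : ℝ} (hw : 0 < w) :
    HasDerivAt (pout1 m κ) (pout2 m κ w) w := by
  have hr : 0 < Real.sqrt w := Real.sqrt_pos.2 hw
  have hrc : ((Real.sqrt w : ℝ) : ℂ) ≠ 0 := by exact_mod_cast hr.ne'
  have hκ0 : κ ≠ 0 := by rintro rfl; simp at hκ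
  have hkr : 0 < (κ * (Real.sqrt w : ℝ)).re := by rw [Complex.re_mul_ofReal]; positivity
  have h1 := (KI_hasDerivAt 1 m hkr).scomp w (sqrt_hasDerivAt_c κ hw)
  have h2 : HasDerivAt (fun w : ℝ => -(κ / (2 * ((Real.sqrt w : ℝ) : ℂ))))
      (κ / (4 * ((Real.sqrt w : ℝ) : ℂ) ^ 3)) w := by
    have e1 := (Real.hasDerivAt_sqrt hw.ne').ofReal_comp
    have e2 := ((e1.const_mul (2 : ℂ)).fun_inv (by simpa using hrc)).const_mul (-κ)
    have e3 : (fun w : ℝ => -(κ / (2 * ((Real.sqrt w : ℝ) : ℂ)))) =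
        fun w : ℝ => -κ * (2 * ((Real.sqrt w : ℝ) : ℂ))⁻¹ := by
      ext w
      rw [div_eq_mul_inv]
      ring
    rw [e3]
    refine e2.congr_deriv ?_
    push_cast
    field_simp
    ring
  have h3 := h2.mul h1
  refine HasDerivAt.congr_deriv (f := pout1 m κ) h3 ?_
  rw [pout2, pout1, pout, Function.comp_apply, smul_eq_mul, KI_two m hkr]
  have h4 := KI_parts m hkr
  have hw2 : (w : ℂ) = ((Real.sqrt w : ℝ) : ℂ) ^ 2 := by
    rw [← Complex.ofReal_pow, Real.sq_sqrt hw.le]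
  obtain ⟨r, hr'⟩ : ∃ r : ℂ, r = ((Real.sqrt w : ℝ) : ℂ) := ⟨_, rfl⟩
  rw [← hr'] at h4 hw2 hrc ⊢
  have h5 : KI 0 (m + 2) (κ * r) = (m + 1) * KI 1 m (κ * r) / (κ * r) := by
    rw [← h4]
    field_simp
  rw [h5, hw2]
  push_cast
  field_simp
  ring

/-- the radial profile -/
noncomputable def prof (m : ℕ) (c κ : ℂ) (w : ℝ) : ℂ :=
  if w ≤ 1 then pin m c w else pin m c 1 / KI 0 m κ * pout m κ w

noncomputable def prof1 (m : ℕ) (c κ : ℂ) (w : ℝ) : ℂ :=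
  if w ≤ 1 then pin1 m c w else pin m c 1 / KI 0 m κ * pout1 m κ w

/-- the matching condition in terms of the profiles -/
def Mat (m : ℕ) (c κ : ℂ) : Prop :=
  0 < κ.re ∧ KI 0 m κ ≠ 0 ∧ pin1 m c 1 = pin m c 1 / KI 0 m κ * pout1 m κ 1

section
variable {m : ℕ} {c κ : ℂ}

lemma pout_one (m : ℕ) (κ : ℂ) : pout m κ 1 = KI 0 m κ := by simp [pout]

lemma cont_piece {f g : ℝ → ℂ} (hf : Continuous f) (hg : ContinuousOn g (Ici 1)) (h : f 1 = g 1) :
    Continuous fun w => if w ≤ 1 then f w else g w := by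
  refine continuous_if_le continuous_id continuous_const hf.continuousOn
    (hg.mono fun x hx => ?_) ?_
  · exact hx
  · rintro x hx
    have : x = 1 := hx
    rw [this, h]

lemma prof_cont (h : Mat m c κ) : Continuous (prof m c κ) := by
  refine cont_piece (pin_cont m c) ?_ ?_
  · intro w hw
    have hw' : (1 : ℝ) ≤ w := hw
    exact ((pout_hasDerivAt m h.1 (by linarith)).const_mul _).continuousAt.continuousWithinAt
  · rw [pout_one]
    have := h.2.1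
    field_simp

lemma prof1_cont (h : Mat m c κ) : Continuous (prof1 m c κ) := by
  refine cont_piece (pin1_cont m c) ?_ h.2.2
  intro w hw
  have hw' : (1 : ℝ) ≤ w := hw
  exact ((pout1_hasDerivAt m h.1 (by linarith)).const_mul _).continuousAt.continuousWithinAt

lemma prof_hasDerivAt (h : Mat m c κ) {w : ℝ} (hw : w ≠ 1) :
    HasDerivAt (prof m c κ) (prof1 m c κ w) w := by
  rcases lt_or_gt_of_ne hw with h1 | h1
  · have h2 : prof m c κ =ᶠ[𝓝 w] pin m c := by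
      filter_upwards [Iio_mem_nhds h1] with x hx
      have hx' : x < 1 := hx
      rw [prof, if_pos hx'.le]
    rw [prof1, if_pos h1.le]
    exact (pin_hasDerivAt m c w).congr_of_eventuallyEq h2
  · have h2 : prof m c κ =ᶠ[𝓝 w] fun w => pin m c 1 / KI 0 m κ * pout m κ w := by
      filter_upwards [Ioi_mem_nhds h1] with x hx
      have hx' : 1 < x := hx
      rw [prof, if_neg (not_le.2 hx')]
    rw [prof1, if_neg (not_le.2 h1)]
    exact ((pout_hasDerivAt m h.1 (by linarith)).const_mul _).congr_of_eventuallyEq h2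

/-- the second derivative outside, extended to all reals -/
noncomputable def qout (m : ℕ) (c κ : ℂ) (w : ℝ) : ℂ :=
  pin m c 1 / KI 0 m κ * pout2 m κ (max w 1)

lemma qout_cont (h : Mat m c κ) : Continuous (qout m c κ) := by
  unfold qout
  refine continuous_const.mul ?_
  have h1 : ContinuousOn (pout2 m κ) (Ici 1) := by
    intro w hw
    have hw' : (1 : ℝ) ≤ w := hw
    have hw0 : 0 < w := by linarith
    unfold pout2
    refine ContinuousAt.continuousWithinAt ?_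
    refine ContinuousAt.div ?_ (by fun_prop) (by
      have : (w : ℂ) ≠ 0 := by exact_mod_cast hw0.ne'
      simpa using this)
    exact ((pout_hasDerivAt m h.1 hw0).continuousAt.const_mul _).sub
      ((pout1_hasDerivAt m h.1 hw0).continuousAt.const_mul _)
  exact h1.comp_continuous (by fun_prop) fun w => mem_Ici.2 (le_max_right _ _)

lemma prof1_hasDerivAt_in (_h : Mat m c κ) {w : ℝ} (h1 : w < 1) :
    HasDerivAt (prof1 m c κ) (pin2 m c w) w := by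
  have h2 : prof1 m c κ =ᶠ[𝓝 w] pin1 m c := by
    filter_upwards [Iio_mem_nhds h1] with x hx
    have hx' : x < 1 := hx
    rw [prof1, if_pos hx'.le]
  exact (pin1_hasDerivAt m c w).congr_of_eventuallyEq h2

lemma prof1_hasDerivAt_out (h : Mat m c κ) {w : ℝ} (h1 : 1 < w) :
    HasDerivAt (prof1 m c κ) (qout m c κ w) w := by
  have h2 : prof1 m c κ =ᶠ[𝓝 w] fun w => pin m c 1 / KI 0 m κ * pout1 m κ w := by
    filter_upwards [Ioi_mem_nhds h1] with x hx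
    have hx' : 1 < x := hx
    rw [prof1, if_neg (not_le.2 hx')]
  rw [qout, max_eq_left h1.le]
  exact ((pout1_hasDerivAt m h.1 (by linarith)).const_mul _).congr_of_eventuallyEq h2

/-- the radial equation -/
lemma prof_ode (w : ℝ) :
    4 * (w : ℂ) * qq (pin2 m c) (qout m c κ) w + 2 * (m + 2 : ℕ) * prof1 m c κ w =
      (if w ≤ 1 then -c else κ ^ 2) * prof m c κ w := by
  unfold qq prof1 prof
  split_ifs with h1
  · exact pin_ode m c w
  · push Not at h1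
    rw [qout, max_eq_left h1.le, pout2]
    have hw : (w : ℂ) ≠ 0 := by exact_mod_cast (by linarith : (0 : ℝ) < w).ne'
    field_simp
    ring

/-- decay of the profile -/
lemma prof_decay (h : Mat m c κ) : ∃ C : ℝ, 0 ≤ C ∧ ∀ r : ℝ, 0 ≤ r →
    ‖prof m c κ (r ^ 2)‖ ≤ C * Real.exp (-(κ.re * r)) := by
  obtain ⟨C0, hC0, h0⟩ := KI_decay 0 m h.1
  obtain ⟨M, hM⟩ := (isCompact_Icc (a := (0 : ℝ)) (b := 1)).exists_bound_of_continuousOn
    (pin_cont m c).continuousOn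
  have hκ := h.1
  obtain ⟨A, hA⟩ : ∃ A : ℂ, A = pin m c 1 / KI 0 m κ := ⟨_, rfl⟩
  refine ⟨|M| * Real.exp κ.re + ‖A‖ * C0, by positivity, fun r hr => ?_⟩
  unfold prof
  rw [← hA]
  split_ifs with h1
  · have hr1 : r ≤ 1 := by nlinarith
    have h2 : ‖pin m c (r ^ 2)‖ ≤ |M| := (hM _ ⟨by positivity, h1⟩).trans (le_abs_self _)
    have h3 : 1 ≤ Real.exp κ.re * Real.exp (-(κ.re * r)) := by
      rw [← Real.exp_add]
      apply Real.one_le_exp
      nlinarith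
    have h4 : 0 ≤ ‖A‖ * C0 * Real.exp (-(κ.re * r)) := by positivity
    have h5 := mul_le_mul_of_nonneg_left h3 (abs_nonneg M)
    calc ‖pin m c (r ^ 2)‖ ≤ |M| := h2
      _ ≤ _ := by linarith
  · have hr1 : 1 ≤ r := by
      push Not at h1
      nlinarith
    rw [norm_mul, pout, Real.sqrt_sq hr]
    have h2 := mul_le_mul_of_nonneg_left (h0 r hr1) (norm_nonneg A)
    have h4 : 0 ≤ |M| * Real.exp κ.re * Real.exp (-(κ.re * r)) := by positivity
    linarith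

end

/-- the eigenfunction -/
noncomputable def eigf (m : ℕ) (c κ : ℂ) (P : MvPolynomial (Fin d) ℂ)
    (x : EuclideanSpace ℝ (Fin d)) : ℂ := pf P x * prof m c κ (‖x‖ ^ 2)

section
variable {m : ℕ} {c κ : ℂ}

lemma eigf_cont (h : Mat m c κ) (P : MvPolynomial (Fin d) ℂ) : Continuous (eigf m c κ P) := by
  have h1 := prof_cont h
  have h2 := pf_continuous P
  unfold eigf
  fun_prop

/-- homogeneous polynomials have polynomial growth -/
lemma pf_growth {ℓ : ℕ} {P : MvPolynomial (Fin d) ℂ} (hP : P.IsHomogeneous ℓ) :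
    ∃ C : ℝ, 0 ≤ C ∧ ∀ x : EuclideanSpace ℝ (Fin d), ‖pf P x‖ ≤ C * ‖x‖ ^ ℓ := by
  obtain ⟨M, hM⟩ := (isCompact_closedBall (0 : EuclideanSpace ℝ (Fin d)) 1).exists_bound_of_continuousOn
    (pf_continuous P).continuousOn
  refine ⟨|M|, abs_nonneg _, fun x => ?_⟩
  rcases eq_or_ne x 0 with rfl | hx
  · have h1 := pf_homog hP (0 : EuclideanSpace ℝ (Fin d)) 0
    rw [smul_zero] at h1
    rw [h1]
    rcases Nat.eq_zero_or_pos ℓ with rfl | hℓ
    · simp only [pow_zero, one_mul, mul_one]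
      exact (hM 0 (by simp)).trans (le_abs_self _)
    · simp [hℓ.ne']
  · have hn : 0 < ‖x‖ := norm_pos_iff.2 hx
    have h1 := pf_homog hP (‖x‖⁻¹ • x) ‖x‖
    rw [smul_smul, mul_inv_cancel₀ hn.ne', one_smul] at h1
    rw [h1, norm_mul, norm_pow, Complex.norm_real, Real.norm_of_nonneg hn.le, mul_comm]
    refine mul_le_mul_of_nonneg_right ((hM _ ?_).trans (le_abs_self _)) (by positivity)
    rw [mem_closedBall_zero_iff, norm_smul, norm_inv, norm_norm, inv_mul_cancel₀ hn.ne']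

lemma eigf_bound (h : Mat m c κ) {ℓ : ℕ} {P : MvPolynomial (Fin d) ℂ} (hP : P.IsHomogeneous ℓ) :
    ∃ C : ℝ, 0 ≤ C ∧ ∀ x : EuclideanSpace ℝ (Fin d), ‖eigf m c κ P x‖ ≤
      C * (1 + ‖x‖) ^ (-((d : ℝ) + 1)) := by
  obtain ⟨C1, hC1, h1⟩ := pf_growth hP
  obtain ⟨C2, hC2, h2⟩ := prof_decay h
  have hκ := h.1
  obtain ⟨α, hα⟩ : ∃ α : ℝ, α = κ.re := ⟨_, rfl⟩
  rw [← hα] at h2 hκ
  obtain ⟨N, hN⟩ : ∃ N : ℕ, N = ℓ + (d + 1) := ⟨_, rfl⟩
  refine ⟨C1 * C2 * (N.factorial / α ^ N * Real.exp α), by positivity, fun x => ?_⟩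
  have hx := norm_nonneg x
  rw [eigf, norm_mul]
  have h3 := mul_le_mul (h1 x) (h2 ‖x‖ hx) (norm_nonneg _) (by positivity)
  refine h3.trans ?_
  have h4 : ‖x‖ ^ ℓ * Real.exp (-(α * ‖x‖)) ≤
      (N.factorial / α ^ N * Real.exp α) * (1 + ‖x‖) ^ (-((d : ℝ) + 1)) := by
    have e1 := pow_mul_exp_le N hκ (by positivity : 0 ≤ 1 + ‖x‖)
    have e2 : (1 + ‖x‖) ^ (-((d : ℝ) + 1)) = ((1 + ‖x‖) ^ (d + 1))⁻¹ := by
      rw [Real.rpow_neg (by positivity)]
      congr 1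
      rw [← Real.rpow_natCast]
      push_cast
      rfl
    have e3 : Real.exp (-(α * (1 + ‖x‖))) = Real.exp (-(α * ‖x‖)) * Real.exp (-α) := by
      rw [← Real.exp_add]
      congr 1
      ring
    rw [e3, hN, pow_add] at e1
    rw [e2, ← div_eq_mul_inv, le_div_iff₀ (by positivity)]
    have e4 : ‖x‖ ^ ℓ ≤ (1 + ‖x‖) ^ ℓ := by gcongr; linarith
    have e5 := mul_le_mul_of_nonneg_right e1 (Real.exp_pos α).le
    have e6 : (1 + ‖x‖) ^ ℓ * (1 + ‖x‖) ^ (d + 1) * (Real.exp (-(α * ‖x‖)) * Real.exp (-α)) *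
        Real.exp α = (1 + ‖x‖) ^ ℓ * (1 + ‖x‖) ^ (d + 1) * Real.exp (-(α * ‖x‖)) := by
      rw [mul_assoc, mul_assoc (Real.exp (-(α * ‖x‖))), ← Real.exp_add]
      simp
    rw [e6, ← hN] at e5
    refine le_trans ?_ e5
    have e7 := mul_le_mul_of_nonneg_right e4
      (by positivity : 0 ≤ Real.exp (-(α * ‖x‖)) * (1 + ‖x‖) ^ (d + 1))
    linarith
  calc C1 * ‖x‖ ^ ℓ * (C2 * Real.exp (-(α * ‖x‖))) =
      C1 * C2 * (‖x‖ ^ ℓ * Real.exp (-(α * ‖x‖))) := by ring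
    _ ≤ C1 * C2 * ((N.factorial / α ^ N * Real.exp α) * (1 + ‖x‖) ^ (-((d : ℝ) + 1))) :=
      mul_le_mul_of_nonneg_left h4 (by positivity)
    _ = _ := by ring

lemma eigf_memLp (h : Mat m c κ) {ℓ : ℕ} {P : MvPolynomial (Fin d) ℂ} (hP : P.IsHomogeneous ℓ) :
    MemLp (eigf m c κ P) 2 volume := by
  obtain ⟨C, hC, hb⟩ := eigf_bound (d := d) h hP
  rw [memLp_two_iff_integrable_sq_norm (eigf_cont h P).aestronglyMeasurable]
  have h1 : Integrable (fun x : EuclideanSpace ℝ (Fin d) =>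
      C ^ 2 * (1 + ‖x‖) ^ (-((d : ℝ) + 1))) := by
    refine (integrable_one_add_norm ?_).const_mul _
    simp
  refine h1.mono' ((eigf_cont h P).norm.pow 2).aestronglyMeasurable (Eventually.of_forall fun x => ?_)
  rw [Real.norm_of_nonneg (by positivity)]
  have h2 := hb x
  have h3 : (1 + ‖x‖) ^ (-((d : ℝ) + 1)) ≤ 1 :=
    Real.rpow_le_one_of_one_le_of_nonpos (by linarith [norm_nonneg x]) (by
      have : (0 : ℝ) ≤ d := Nat.cast_nonneg d
      linarith)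
  have h4 : 0 ≤ (1 + ‖x‖) ^ (-((d : ℝ) + 1)) := by positivity
  calc ‖eigf m c κ P x‖ ^ 2 ≤ (C * (1 + ‖x‖) ^ (-((d : ℝ) + 1))) ^ 2 := by gcongr
    _ = C ^ 2 * ((1 + ‖x‖) ^ (-((d : ℝ) + 1)) * (1 + ‖x‖) ^ (-((d : ℝ) + 1))) := by ring
    _ ≤ C ^ 2 * ((1 + ‖x‖) ^ (-((d : ℝ) + 1)) * 1) := by gcongr
    _ = _ := by ring

/-- the eigenvalue equation in the sense of distributions -/
theorem eigf_weak (h : Mat m c κ) {ℓ : ℕ} (hm : m + 2 = d + 2 * ℓ) {P : MvPolynomial (Fin d) ℂ}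
    (hP : P ∈ Har d ℓ) {φ : EuclideanSpace ℝ (Fin d) → ℂ} (hφ : ContDiff ℝ ∞ φ)
    (hc : HasCompactSupport φ) :
    ∫ x, eigf m c κ P x * Δ φ x =
      ∫ x, (if ‖x‖ ≤ 1 then -c else κ ^ 2) * eigf m c κ P x * φ x := by
  have h1 := green hP (prof_cont h) (prof1_cont h) (pin2_cont m c) (qout_cont h)
    (fun w hw => prof_hasDerivAt h hw) (fun w hw => prof1_hasDerivAt_in h hw)
    (fun w hw => prof1_hasDerivAt_out h hw) hφ hc
  unfold eigf
  rw [h1]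
  congr 1
  ext x
  have h2 := prof_ode (m := m) (c := c) (κ := κ) (‖x‖ ^ 2)
  have h3 : (2 * (d : ℂ) + 4 * ℓ) = 2 * ((m + 2 : ℕ) : ℂ) := by
    rw [hm]; push_cast; ring
  have h4 : ‖x‖ ^ 2 ≤ 1 ↔ ‖x‖ ≤ 1 := by
    rw [sq_le_one_iff_abs_le_one, abs_norm]
  rw [h3]
  simp only [h4] at h2
  rw [h2]
  ring

end

end Pool.Agent.K3h97.BP
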