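import Pool.Agent.K3h97.BP.Cone

/-! The decaying exterior solution. -/

set_option autoImplicit false

open Complex Filter Topology Set MeasureTheory

namespace Pool.Agent.K3h97.BP

/-- `∫_0^∞ exp(-ζ cosh x) (cosh x)^a (sinh x)^b dx` -/
noncomputable def KI (a b : ℕ) (ζ : ℂ) : ℂ :=
  ∫ x in Ioi (0 : ℝ), cexp (-(ζ * Real.cosh x)) * ((Real.cosh x ^ a * Real.sinh x ^ b : ℝ) : ℂ)

lemma pow_mul_exp_le (m : ℕ) {α y : ℝ} (hα : 0 < α) (hy : 0 ≤ y) :
    y ^ m * Real.exp (-(α * y)) ≤ m.factorial / α ^ m := by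
  have h1 := Real.pow_div_factorial_le_exp (α * y) (by positivity) m
  have h2 : 0 < (m.factorial : ℝ) := by positivity
  rw [div_le_iff₀ h2, mul_pow] at h1
  rw [le_div_iff₀ (by positivity), Real.exp_neg]
  have h3 := Real.exp_pos (α * y)
  rw [mul_assoc, mul_comm, mul_assoc, inv_mul_le_iff₀ h3]
  linarith

lemma cosh_bound (a b : ℕ) {α x : ℝ} (hα : 0 < α) (hx : 0 ≤ x) :
    Real.exp (-(α * Real.cosh x)) * (Real.cosh x ^ a * Real.sinh x ^ b) ≤
      2 * ((a + b + 1).factorial / α ^ (a + b + 1)) * Real.exp (-x) := by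
  have h1 : 0 < Real.cosh x := Real.cosh_pos x
  have h2 : 0 ≤ Real.sinh x := Real.sinh_nonneg_iff.2 hx
  have h3 : Real.sinh x ≤ Real.cosh x := (Real.sinh_lt_cosh x).le
  have h4 : Real.exp x ≤ 2 * Real.cosh x := by
    rw [Real.cosh_eq]
    have := Real.exp_pos (-x)
    linarith
  have h5 : Real.cosh x ^ a * Real.sinh x ^ b ≤ Real.cosh x ^ (a + b) := by
    rw [pow_add]
    gcongr
  have h6 := pow_mul_exp_le (a + b + 1) hα h1.le
  have h7 : Real.exp (-(α * Real.cosh x)) * (Real.cosh x ^ a * Real.sinh x ^ b) * Real.exp x ≤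
      2 * ((a + b + 1).factorial / α ^ (a + b + 1)) := by
    calc Real.exp (-(α * Real.cosh x)) * (Real.cosh x ^ a * Real.sinh x ^ b) * Real.exp x ≤
        Real.exp (-(α * Real.cosh x)) * Real.cosh x ^ (a + b) * (2 * Real.cosh x) := by gcongr
      _ = 2 * (Real.cosh x ^ (a + b + 1) * Real.exp (-(α * Real.cosh x))) := by rw [pow_succ]; ring
      _ ≤ _ := by linarith
  rw [Real.exp_neg x, ← div_eq_mul_inv, le_div_iff₀ (Real.exp_pos x)]
  exact h7

lemma KI_norm_integrand (a b : ℕ) (ζ : ℂ) {x : ℝ} (hx : 0 ≤ x) :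
    ‖cexp (-(ζ * Real.cosh x)) * ((Real.cosh x ^ a * Real.sinh x ^ b : ℝ) : ℂ)‖ =
      Real.exp (-(ζ.re * Real.cosh x)) * (Real.cosh x ^ a * Real.sinh x ^ b) := by
  have h1 : 0 < Real.cosh x := Real.cosh_pos x
  have h2 : 0 ≤ Real.sinh x := Real.sinh_nonneg_iff.2 hx
  rw [norm_mul, Complex.norm_exp, Complex.norm_real, Real.norm_of_nonneg (by positivity)]
  congr 3
  simp

lemma KI_meas (a b : ℕ) (ζ : ℂ) : Continuous fun x : ℝ =>
    cexp (-(ζ * Real.cosh x)) * ((Real.cosh x ^ a * Real.sinh x ^ b : ℝ) : ℂ) := by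
  have := Real.continuous_cosh
  have := Real.continuous_sinh
  fun_prop

lemma KI_integrable (a b : ℕ) {ζ : ℂ} (hζ : 0 < ζ.re) : IntegrableOn (fun x : ℝ =>
    cexp (-(ζ * Real.cosh x)) * ((Real.cosh x ^ a * Real.sinh x ^ b : ℝ) : ℂ)) (Ioi 0) := by
  have h1 : IntegrableOn (fun x : ℝ =>
      2 * ((a + b + 1).factorial / ζ.re ^ (a + b + 1)) * Real.exp (-x)) (Ioi 0) := by
    have := exp_neg_integrableOn_Ioi 0 (b := 1) one_pos
    simp only [neg_mul, one_mul] at this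
    exact this.const_mul _
  refine Integrable.mono' h1 (KI_meas a b ζ).aestronglyMeasurable ?_
  filter_upwards [ae_restrict_mem measurableSet_Ioi] with x hx
  rw [KI_norm_integrand a b ζ (le_of_lt hx)]
  exact cosh_bound a b hζ (le_of_lt hx)

lemma KI_hasDerivAt (a b : ℕ) {ζ : ℂ} (hζ : 0 < ζ.re) :
    HasDerivAt (KI a b) (-KI (a + 1) b ζ) ζ := by
  set α : ℝ := ζ.re / 2 with hα
  have hα0 : 0 < α := by positivity
  have hball : ∀ z ∈ Metric.ball ζ α, α ≤ z.re := by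
    intro z hz
    rw [Metric.mem_ball, dist_eq_norm] at hz
    have h1 := (Complex.abs_re_le_norm (z - ζ)).trans hz.le
    rw [Complex.sub_re, abs_le] at h1
    linarith [h1.1]
  have hbound : IntegrableOn (fun x : ℝ =>
      2 * ((a + 1 + b + 1).factorial / α ^ (a + 1 + b + 1)) * Real.exp (-x)) (Ioi 0) := by
    have := exp_neg_integrableOn_Ioi 0 (b := 1) one_pos
    simp only [neg_mul, one_mul] at this
    exact this.const_mul _
  have key := hasDerivAt_integral_of_dominated_loc_of_deriv_le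
    (F := fun (z : ℂ) (x : ℝ) => cexp (-(z * Real.cosh x)) *
      ((Real.cosh x ^ a * Real.sinh x ^ b : ℝ) : ℂ))
    (F' := fun (z : ℂ) (x : ℝ) => -(cexp (-(z * Real.cosh x)) *
      ((Real.cosh x ^ (a + 1) * Real.sinh x ^ b : ℝ) : ℂ)))
    (μ := volume.restrict (Ioi (0 : ℝ))) (x₀ := ζ)
    (Metric.ball_mem_nhds ζ hα0)
    (bound := fun x : ℝ =>
      2 * ((a + 1 + b + 1).factorial / α ^ (a + 1 + b + 1)) * Real.exp (-x))
    (Filter.Eventually.of_forall fun z => (KI_meas a b z).aestronglyMeasurable)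
    (KI_integrable a b hζ)
    (KI_meas (a + 1) b ζ).neg.aestronglyMeasurable
    (by
      filter_upwards [ae_restrict_mem measurableSet_Ioi] with x hx z hz
      rw [norm_neg, KI_norm_integrand (a + 1) b z (le_of_lt hx)]
      have h1 := hball z hz
      have h2 : Real.exp (-(z.re * Real.cosh x)) ≤ Real.exp (-(α * Real.cosh x)) := by
        apply Real.exp_le_exp.2
        have := Real.cosh_pos x
        nlinarith
      have h3 : 0 ≤ Real.cosh x ^ (a + 1) * Real.sinh x ^ b := by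
        have h1 : 0 < Real.cosh x := Real.cosh_pos x
        have h2 : 0 ≤ Real.sinh x := Real.sinh_nonneg_iff.2 (le_of_lt hx)
        positivity
      exact (mul_le_mul_of_nonneg_right h2 h3).trans (cosh_bound (a + 1) b hα0 (le_of_lt hx)))
    hbound
    (by
      filter_upwards with x z hz
      have h1 : HasDerivAt (fun z : ℂ => -(z * (Real.cosh x : ℂ))) (-(Real.cosh x : ℂ)) z := by
        simpa using ((hasDerivAt_id z).mul_const (Real.cosh x : ℂ)).fun_neg
      have h2 := (h1.cexp).mul_const ((Real.cosh x ^ a * Real.sinh x ^ b : ℝ) : ℂ)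
      refine h2.congr_deriv ?_
      push_cast
      ring)
  have h2 := key.2
  rw [integral_neg] at h2
  exact h2

lemma KI_two (m : ℕ) {ζ : ℂ} (hζ : 0 < ζ.re) : KI 2 m ζ = KI 0 m ζ + KI 0 (m + 2) ζ := by
  unfold KI
  rw [← integral_add (KI_integrable 0 m hζ) (KI_integrable 0 (m + 2) hζ)]
  congr 1
  ext x
  have h := Real.cosh_sq x
  rw [h]
  push_cast
  ring

lemma KI_parts (m : ℕ) {ζ : ℂ} (hζ : 0 < ζ.re) : ζ * KI 0 (m + 2) ζ = (m + 1) * KI 1 m ζ := by
  have hder : ∀ x ∈ Ioi (0 : ℝ), HasDerivAt (fun x : ℝ =>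
      cexp (-(ζ * Real.cosh x)) * ((Real.sinh x ^ (m + 1) : ℝ) : ℂ))
      (-ζ * (cexp (-(ζ * Real.cosh x)) * ((Real.cosh x ^ 0 * Real.sinh x ^ (m + 2) : ℝ) : ℂ)) +
        (m + 1) * (cexp (-(ζ * Real.cosh x)) * ((Real.cosh x ^ 1 * Real.sinh x ^ m : ℝ) : ℂ))) x := by
    intro x _
    have h1 : HasDerivAt (fun x : ℝ => ((Real.cosh x : ℝ) : ℂ)) ((Real.sinh x : ℝ) : ℂ) x :=
      (Real.hasDerivAt_cosh x).ofReal_comp
    have h2 := ((h1.const_mul ζ).fun_neg).cexp
    have h3 : HasDerivAt (fun x : ℝ => ((Real.sinh x ^ (m + 1) : ℝ) : ℂ))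
        ((((m + 1 : ℕ) : ℝ) * Real.sinh x ^ m * Real.cosh x : ℝ) : ℂ) x := by
      have := ((Real.hasDerivAt_sinh x).fun_pow (m + 1)).ofReal_comp
      rwa [Nat.add_sub_cancel] at this
    refine (h2.mul h3).congr_deriv ?_
    push_cast
    ring
  have hint : IntegrableOn (fun x : ℝ => -ζ * (cexp (-(ζ * Real.cosh x)) *
      ((Real.cosh x ^ 0 * Real.sinh x ^ (m + 2) : ℝ) : ℂ)) +
        (m + 1) * (cexp (-(ζ * Real.cosh x)) * ((Real.cosh x ^ 1 * Real.sinh x ^ m : ℝ) : ℂ)))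
      (Ioi 0) :=
    ((KI_integrable 0 (m + 2) hζ).const_mul _).add ((KI_integrable 1 m hζ).const_mul _)
  have hlim : Tendsto (fun x : ℝ => cexp (-(ζ * Real.cosh x)) * ((Real.sinh x ^ (m + 1) : ℝ) : ℂ))
      atTop (𝓝 0) := by
    have h1 : Tendsto (fun x : ℝ => 2 * ((0 + (m + 1) + 1).factorial / ζ.re ^ (0 + (m + 1) + 1)) *
        Real.exp (-x)) atTop (𝓝 0) := by
      have := Real.tendsto_exp_neg_atTop_nhds_zero.const_mul
        (2 * ((0 + (m + 1) + 1).factorial / ζ.re ^ (0 + (m + 1) + 1)))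
      simpa using this
    refine squeeze_zero_norm' ?_ h1
    filter_upwards [eventually_ge_atTop 0] with x hx
    have h2 := KI_norm_integrand 0 (m + 1) ζ hx
    rw [pow_zero, one_mul] at h2
    rw [h2]
    have := cosh_bound 0 (m + 1) hζ hx
    rw [pow_zero, one_mul] at this
    exact this
  have h0 := integral_Ioi_of_hasDerivAt_of_tendsto (a := 0) (m := 0)
    (f := fun x : ℝ => cexp (-(ζ * Real.cosh x)) * ((Real.sinh x ^ (m + 1) : ℝ) : ℂ))
    (by
      have := Real.continuous_cosh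
      have := Real.continuous_sinh
      apply Continuous.continuousWithinAt
      fun_prop) hder hint hlim
  rw [integral_add ((KI_integrable 0 (m + 2) hζ).const_mul _)
    ((KI_integrable 1 m hζ).const_mul _), integral_const_mul, integral_const_mul] at h0
  have h1 : -ζ * KI 0 (m + 2) ζ + (m + 1) * KI 1 m ζ = 0 := by
    unfold KI
    rw [h0]
    simp
  linear_combination -h1

lemma KI_decay (a b : ℕ) {κ : ℂ} (hκ : 0 < κ.re) : ∃ C : ℝ, 0 ≤ C ∧ ∀ r : ℝ, 1 ≤ r →
    ‖KI a b (κ * r)‖ ≤ C * Real.exp (-(κ.re * r)) := by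
  set J : ℝ := ∫ x in Ioi (0 : ℝ), Real.exp (-(κ.re * Real.cosh x)) *
    (Real.cosh x ^ a * Real.sinh x ^ b) with hJ
  have hJi : IntegrableOn (fun x : ℝ => Real.exp (-(κ.re * Real.cosh x)) *
    (Real.cosh x ^ a * Real.sinh x ^ b)) (Ioi 0) := by
    have := (KI_integrable a b hκ).norm
    refine this.congr ?_
    filter_upwards [ae_restrict_mem measurableSet_Ioi] with x hx
    exact KI_norm_integrand a b κ (le_of_lt hx)
  have hJ0 : 0 ≤ J := by
    refine setIntegral_nonneg measurableSet_Ioi fun x hx => ?_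
    have h1 : 0 < Real.cosh x := Real.cosh_pos x
    have h2 : 0 ≤ Real.sinh x := Real.sinh_nonneg_iff.2 (le_of_lt hx)
    positivity
  refine ⟨J * Real.exp κ.re, by positivity, fun r hr => ?_⟩
  have hr0 : 0 < r := by linarith
  have hkr : 0 < (κ * r).re := by rw [Complex.re_mul_ofReal]; positivity
  have h1 : ‖KI a b (κ * r)‖ ≤ ∫ x in Ioi (0 : ℝ), Real.exp (-(κ.re * (r - 1))) *
      (Real.exp (-(κ.re * Real.cosh x)) * (Real.cosh x ^ a * Real.sinh x ^ b)) := by
    refine (norm_integral_le_integral_norm _).trans ?_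
    refine setIntegral_mono_on (KI_integrable a b hkr).norm (hJi.const_mul _) measurableSet_Ioi
      fun x hx => ?_
    rw [KI_norm_integrand a b (κ * r) (le_of_lt hx), Complex.re_mul_ofReal]
    have h1 : 0 < Real.cosh x := Real.cosh_pos x
    have h2 : 0 ≤ Real.sinh x := Real.sinh_nonneg_iff.2 (le_of_lt hx)
    have h3 : 1 ≤ Real.cosh x := Real.one_le_cosh x
    rw [← mul_assoc (Real.exp _) (Real.exp _), ← Real.exp_add]
    refine mul_le_mul_of_nonneg_right (Real.exp_le_exp.2 ?_) (by positivity)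
    have h4 : 0 ≤ κ.re * ((r - 1) * (Real.cosh x - 1)) := by
      refine mul_nonneg hκ.le (mul_nonneg (by linarith) (by linarith))
    nlinarith
  rw [integral_const_mul] at h1
  refine h1.trans (le_of_eq ?_)
  rw [mul_assoc, ← Real.exp_add, mul_comm J]
  congr 2
  ring

lemma KI_one_ne_zero (m : ℕ) : KI 0 m 1 ≠ 0 := by
  have h1 : KI 0 m 1 = ((∫ x in Ioi (0 : ℝ), Real.exp (-Real.cosh x) * Real.sinh x ^ m : ℝ) : ℂ) := by
    unfold KI
    rw [← integral_complex_ofReal]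
    congr 1
    ext x
    push_cast
    rw [one_mul, pow_zero, one_mul]
  rw [h1, Complex.ofReal_ne_zero]
  have hi : IntegrableOn (fun x : ℝ => Real.exp (-Real.cosh x) * Real.sinh x ^ m) (Ioi 0) := by
    have := (KI_integrable 0 m (ζ := 1) (by simp)).norm
    refine this.congr ?_
    filter_upwards [ae_restrict_mem measurableSet_Ioi] with x hx
    rw [KI_norm_integrand 0 m 1 (le_of_lt hx)]
    simp
  have hpos : 0 < ∫ x in Ioi (0 : ℝ), Real.exp (-Real.cosh x) * Real.sinh x ^ m := by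
    rw [setIntegral_pos_iff_support_of_nonneg_ae ?_ hi]
    · have : Function.support (fun x : ℝ => Real.exp (-Real.cosh x) * Real.sinh x ^ m) ∩ Ioi 0 =
          Ioi 0 := by
        apply inter_eq_right.2
        intro x hx
        rw [Function.mem_support]
        have h2 : 0 < Real.sinh x := Real.sinh_pos_iff.2 hx
        positivity
      rw [this]
      simp
    · filter_upwards [ae_restrict_mem measurableSet_Ioi] with x hx
      have h2 : 0 < Real.sinh x := Real.sinh_pos_iff.2 hx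
      simp only [Pi.zero_apply]
      positivity
  exact hpos.ne'

/-- the half plane -/
lemma KI_analytic (a b : ℕ) : AnalyticOnNhd ℂ (KI a b) {z : ℂ | 0 < z.re} := by
  refine DifferentiableOn.analyticOnNhd (fun z hz => ?_) (isOpen_lt continuous_const Complex.continuous_re)
  exact (KI_hasDerivAt a b hz).differentiableAt.differentiableWithinAt

section radial

/-- the exterior radial function and its derivative times `h` -/
noncomputable def fo (m : ℕ) (κ : ℂ) (r : ℝ) : ℂ := KI 0 m (κ * r)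

noncomputable def fo1 (h : ℝ) (m : ℕ) (κ : ℂ) (r : ℝ) : ℂ := -(h * κ * KI 1 m (κ * r))

variable {h : ℝ} {m : ℕ} {κ : ℂ}

lemma hasDerivAt_comp_mul {g g' : ℂ → ℂ} (κ : ℂ) (r : ℝ) (hg : HasDerivAt g (g' (κ * r)) (κ * r)) :
    HasDerivAt (fun r : ℝ => g (κ * r)) (κ * g' (κ * r)) r := by
  have h1 : HasDerivAt (fun r : ℝ => κ * (r : ℂ)) κ r := by
    have e1 : HasDerivAt (fun r : ℝ => (r : ℂ)) 1 r := Complex.ofRealCLM.hasDerivAt
    simpa using e1.const_mul κ
  have h2 := hg.scomp r h1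
  exact h2

lemma fo_hasDerivAt (hh : 0 < h) (hκ : 0 < κ.re) {r : ℝ} (hr : 0 < r) :
    HasDerivAt (fo m κ) (fo1 h m κ r / h) r := by
  have hkr : 0 < (κ * r).re := by rw [Complex.re_mul_ofReal]; positivity
  have h1 := hasDerivAt_comp_mul (g := KI 0 m) (g' := fun z => -KI 1 m z) κ r
    (KI_hasDerivAt 0 m hkr)
  refine HasDerivAt.congr_deriv (f := fo m κ) h1 ?_
  have : (h : ℂ) ≠ 0 := by exact_mod_cast hh.ne'
  rw [fo1]
  field_simp

lemma fo1_hasDerivAt (hh : 0 < h) (hκ : 0 < κ.re) {r : ℝ} (hr : 0 < r) :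
    HasDerivAt (fo1 h m κ) ((-((h * (m + 1 : ℕ)) / r) * fo1 h m κ r -
      (-(h * κ) ^ 2) * fo m κ r) / h) r := by
  have hkr : 0 < (κ * r).re := by rw [Complex.re_mul_ofReal]; positivity
  have h1 := hasDerivAt_comp_mul (g := KI 1 m) (g' := fun z => -KI 2 m z) κ r
    (KI_hasDerivAt 1 m hkr)
  have h2 := (h1.const_mul (h * κ)).fun_neg
  refine HasDerivAt.congr_deriv (f := fo1 h m κ) h2 ?_
  have hh0 : (h : ℂ) ≠ 0 := by exact_mod_cast hh.ne'
  have hr0 : (r : ℂ) ≠ 0 := by exact_mod_cast hr.ne'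
  have hκ0 : κ ≠ 0 := by
    rintro rfl
    simp at hκ
  have h3 := KI_two m hkr
  have h4 := KI_parts m hkr
  rw [fo1, fo, h3]
  have h5 : KI 0 (m + 2) (κ * r) = (m + 1) * KI 1 m (κ * r) / (κ * r) := by
    rw [eq_div_iff (mul_ne_zero hκ0 hr0)]
    linear_combination h4
  rw [h5]
  push_cast
  field_simp
  ring

lemma fo_decay (h : ℝ) (m n : ℕ) (hκ : 0 < κ.re) :
    Tendsto (fun r : ℝ => r ^ n * (‖fo m κ r‖ ^ 2 + ‖fo1 h m κ r‖ ^ 2)) atTop (𝓝 0) := by
  obtain ⟨C0, hC0, h0⟩ := KI_decay 0 m hκ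
  obtain ⟨C1, hC1, h1⟩ := KI_decay 1 m hκ
  have hb : ∀ r : ℝ, 1 ≤ r → ‖r ^ n * (‖fo m κ r‖ ^ 2 + ‖fo1 h m κ r‖ ^ 2)‖ ≤
      (C0 ^ 2 + (‖(h * κ : ℂ)‖ * C1) ^ 2) * (r ^ n * Real.exp (-(2 * κ.re) * r)) := by
    intro r hr
    have hr0 : 0 < r := by linarith
    have e0 : ‖fo m κ r‖ ≤ C0 * Real.exp (-(κ.re * r)) := h0 r hr
    have e1 : ‖fo1 h m κ r‖ ≤ ‖(h * κ : ℂ)‖ * C1 * Real.exp (-(κ.re * r)) := by
      rw [fo1, norm_neg, norm_mul, mul_assoc]
      exact mul_le_mul_of_nonneg_left (h1 r hr) (norm_nonneg _)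
    have e2 : Real.exp (-(2 * κ.re) * r) = Real.exp (-(κ.re * r)) ^ 2 := by
      rw [← Real.exp_nat_mul]
      congr 1
      push_cast
      ring
    rw [Real.norm_of_nonneg (by positivity), e2]
    have e3 : ‖fo m κ r‖ ^ 2 ≤ (C0 * Real.exp (-(κ.re * r))) ^ 2 := by gcongr
    have e4 : ‖fo1 h m κ r‖ ^ 2 ≤ (‖(h * κ : ℂ)‖ * C1 * Real.exp (-(κ.re * r))) ^ 2 := by gcongr
    have e5 : 0 < r ^ n := by positivity
    calc r ^ n * (‖fo m κ r‖ ^ 2 + ‖fo1 h m κ r‖ ^ 2) ≤ r ^ n * ((C0 * Real.exp (-(κ.re * r))) ^ 2 +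
        (‖(h * κ : ℂ)‖ * C1 * Real.exp (-(κ.re * r))) ^ 2) := by gcongr
      _ = _ := by ring
  have hlim : Tendsto (fun r : ℝ => (C0 ^ 2 + (‖(h * κ : ℂ)‖ * C1) ^ 2) *
      (r ^ n * Real.exp (-(2 * κ.re) * r))) atTop (𝓝 0) := by
    have := tendsto_rpow_mul_exp_neg_mul_atTop_nhds_zero n (2 * κ.re) (by positivity)
    simp only [Real.rpow_natCast] at this
    simpa using this.const_mul (C0 ^ 2 + (‖(h * κ : ℂ)‖ * C1) ^ 2)
  refine squeeze_zero_norm' ?_ hlim
  filter_upwards [eventually_ge_atTop 1] with r hr using hb r hr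

/-- the decaying solution does not vanish -/
theorem KI_ne_zero (m : ℕ) {κ : ℂ} (hκ : 0 < κ.re) (him : 0 < (-(κ ^ 2)).im) : KI 0 m κ ≠ 0 := by
  intro hz
  -- flux
  set Fl : ℝ → ℝ := fun r => r ^ (m + 1) * (fo1 1 m κ r * (starRingEnd ℂ) (fo m κ r)).im with hFl
  have hFld : ∀ r : ℝ, 1 ≤ r → HasDerivAt Fl (-(r ^ (m + 1) * (-(κ ^ 2)).im * ‖fo m κ r‖ ^ 2)) r := by
    intro r hr
    have hr0 : 0 < r := by linarith
    have e1 := fo_hasDerivAt (h := 1) (m := m) one_pos hκ hr0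
    have e2 := fo1_hasDerivAt (h := 1) (m := m) one_pos hκ hr0
    have e3 : HasDerivAt (fun r => (starRingEnd ℂ) (fo m κ r))
        ((starRingEnd ℂ) (fo1 1 m κ r / (1 : ℝ))) r := e1.star
    have e4 := e2.mul e3
    have e5 : HasDerivAt (fun r => (fo1 1 m κ r * (starRingEnd ℂ) (fo m κ r)).im) _ r :=
      (Complex.imCLM.hasFDerivAt.comp_hasDerivAt r e4)
    have e6 := (hasDerivAt_pow (m + 1) r).mul e5
    refine HasDerivAt.congr_deriv (f := Fl) e6 ?_
    simp only [Complex.imCLM_apply, Nat.add_sub_cancel]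
    obtain ⟨a, ha⟩ : ∃ a : ℂ, a = fo m κ r := ⟨_, rfl⟩
    obtain ⟨b, hb⟩ : ∃ b : ℂ, b = fo1 1 m κ r := ⟨_, rfl⟩
    rw [← ha, ← hb]
    obtain ⟨c, hc⟩ : ∃ c : ℂ, c = κ ^ 2 := ⟨_, rfl⟩
    have h7 : (-((((1 : ℝ) : ℂ) * ((m + 1 : ℕ) : ℂ)) / r) * b - (-((((1 : ℝ) : ℂ)) * κ) ^ 2) * a) /
        ((1 : ℝ) : ℂ) = (((-((m + 1 : ℕ) : ℝ) / r : ℝ)) : ℂ) * b + c * a := by
      rw [hc]; push_cast; ring
    rw [h7, ← hc]
    have h8 : ((starRingEnd ℂ) (b / ((1 : ℝ) : ℂ))) = (starRingEnd ℂ) b := by simp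
    rw [h8]
    have h9 : ‖a‖ ^ 2 = a.re ^ 2 + a.im ^ 2 := by
      rw [← Complex.normSq_eq_norm_sq, Complex.normSq_apply]; ring
    rw [h9]
    simp only [Complex.add_im, Complex.mul_im, Complex.conj_re, Complex.conj_im, Complex.mul_re,
      Complex.ofReal_re, Complex.ofReal_im, Complex.add_re, Complex.neg_im]
    field_simp
    ring
  have hanti : AntitoneOn Fl (Ici 1) := by
    apply antitoneOn_of_deriv_nonpos (convex_Ici 1)
    · intro r hr
      exact (hFld r hr).continuousAt.continuousWithinAt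
    · intro r hr
      rw [interior_Ici] at hr
      exact (hFld r (le_of_lt hr)).differentiableAt.differentiableWithinAt
    · intro r hr
      rw [interior_Ici] at hr
      rw [(hFld r (le_of_lt hr)).deriv]
      have hr0 : 0 < r := by linarith [mem_Ioi.1 hr]
      have := him.le
      have : 0 ≤ r ^ (m + 1) * (-(κ ^ 2)).im * ‖fo m κ r‖ ^ 2 := by positivity
      linarith
  have hlim : Tendsto Fl atTop (𝓝 0) := by
    refine squeeze_zero_norm' ?_ (fo_decay 1 m (m + 1) hκ)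
    filter_upwards [eventually_ge_atTop 1] with r hr
    have hr0 : 0 < r := by linarith
    simp only [hFl]
    rw [norm_mul, norm_pow, Real.norm_of_nonneg hr0.le]
    refine mul_le_mul_of_nonneg_left ?_ (by positivity)
    refine (Complex.abs_im_le_norm _).trans ?_
    rw [norm_mul, RCLike.norm_conj]
    nlinarith [sq_nonneg (‖fo1 1 m κ r‖ - ‖fo m κ r‖), sq_nonneg ‖fo1 1 m κ r‖,
      sq_nonneg ‖fo m κ r‖]
  have hnn : ∀ r : ℝ, 1 ≤ r → 0 ≤ Fl r := by
    intro r hr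
    refine le_of_tendsto hlim ?_
    filter_upwards [eventually_ge_atTop r] with s hs
    exact hanti (mem_Ici.2 hr) (mem_Ici.2 (hr.trans hs)) hs
  have h1 : Fl 1 = 0 := by
    simp only [hFl, fo]
    rw [show κ * ((1 : ℝ) : ℂ) = κ by simp, hz]
    simp
  have hzero : ∀ r : ℝ, 1 ≤ r → Fl r = 0 := by
    intro r hr
    refine le_antisymm ?_ (hnn r hr)
    rw [← h1]
    exact hanti (mem_Ici.2 le_rfl) (mem_Ici.2 hr) hr
  have hfz : ∀ r : ℝ, 1 < r → fo m κ r = 0 := by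
    intro r hr
    have hr0 : 0 < r := by linarith
    have e1 : HasDerivAt Fl 0 r := by
      refine (hasDerivAt_const r (0 : ℝ)).congr_of_eventuallyEq ?_
      filter_upwards [lt_mem_nhds hr] with s hs
      exact hzero s (le_of_lt hs)
    have e2 := e1.unique (hFld r hr.le)
    have e3 : r ^ (m + 1) * (-(κ ^ 2)).im * ‖fo m κ r‖ ^ 2 = 0 := by linarith
    have e4 : 0 < r ^ (m + 1) * (-(κ ^ 2)).im := by positivity
    have e5 := (mul_eq_zero.1 e3).resolve_left e4.ne'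
    exact norm_eq_zero.1 (by simpa using e5)
  have hpre : IsPreconnected {z : ℂ | 0 < z.re} := (convex_halfSpace_re_gt 0).isPreconnected
  have h2κ : (κ * ((2 : ℝ) : ℂ)) ∈ {z : ℂ | 0 < z.re} := by
    rw [mem_ofPred_eq, Complex.re_mul_ofReal]
    positivity
  have hκ0 : κ ≠ 0 := by
    rintro rfl
    simp at hκ
  have hfreq : ∃ᶠ z in 𝓝[≠] (κ * ((2 : ℝ) : ℂ)), KI 0 m z = 0 := by
    have ht : Tendsto (fun t : ℝ => κ * (t : ℂ)) (𝓝[≠] (2 : ℝ)) (𝓝[≠] (κ * ((2 : ℝ) : ℂ))) := by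
      refine tendsto_nhdsWithin_iff.2 ⟨?_, ?_⟩
      · have hc : Continuous fun t : ℝ => κ * (t : ℂ) := by fun_prop
        exact (hc.tendsto 2).mono_left nhdsWithin_le_nhds
      · filter_upwards [self_mem_nhdsWithin] with t ht
        intro h
        apply ht
        have := mul_left_cancel₀ hκ0 h
        exact_mod_cast this
    refine ht.frequently (Eventually.frequently ?_)
    have h3 : ∀ᶠ t : ℝ in 𝓝 2, 1 < t := lt_mem_nhds (by norm_num)
    filter_upwards [nhdsWithin_le_nhds h3] with t ht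
    exact hfz t ht
  have := (KI_analytic 0 m).eqOn_zero_of_preconnected_of_frequently_eq_zero hpre h2κ hfreq
  exact KI_one_ne_zero m (this (by simp))

end radial

end Pool.Agent.K3h97.BP
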