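import Pool.Agent.K3h97.BP.Defs
import Pool.Agent.K3h97.BP.Eig

/-! A lower bound for the multiplicities. -/

set_option autoImplicit false

open MvPolynomial Filter Topology Set MeasureTheory
open scoped ContDiff Laplacian InnerProductSpace

namespace Pool.Agent.K3h97.BP

variable {d : ℕ}

/-- the potential `i 1_{|x| ≤ 1}` -/
noncomputable def ballPot (d : ℕ) : EuclideanSpace ℝ (Fin d) → ℂ :=
  (Metric.closedBall 0 1).indicator fun _ => Complex.I

lemma ballPot_apply (x : EuclideanSpace ℝ (Fin d)) :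
    ballPot d x = if ‖x‖ ≤ 1 then Complex.I else 0 := by
  by_cases h : ‖x‖ ≤ 1
  · rw [ballPot, indicator_of_mem (by simpa using h), if_pos h]
  · rw [ballPot, indicator_of_notMem (by simpa using h), if_neg h]

lemma ballPot_meas : Measurable (ballPot d) :=
  measurable_const.indicator measurableSet_closedBall

lemma ballPot_norm (x : EuclideanSpace ℝ (Fin d)) : ‖ballPot d x‖ ≤ 1 := by
  rw [ballPot_apply]
  split_ifs <;> simp

section
variable {m ℓ : ℕ} {c κ : ℂ}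

/-- the eigenfunction as an element of `L²` -/
noncomputable def eigL (h : Mat m c κ) (P : Har d ℓ) : L2 d :=
  (show Lp ℂ 2 (vol d) from (eigf_memLp h (mem_Har.1 P.2).1).toLp)

lemma eigL_coe (h : Mat m c κ) (P : Har d ℓ) :
    fn (eigL h P) =ᵐ[vol d] eigf m c κ (P : MvPolynomial (Fin d) ℂ) :=
  MemLp.coeFn_toLp (μ := vol d) (eigf_memLp h (mem_Har.1 P.2).1)

lemma lapl_cont {φ : EuclideanSpace ℝ (Fin d) → ℂ} (hφ : IsTest φ) : Continuous (Δ φ) := by
  have h1 : Δ φ = fun x => ∑ i : Fin d, fderiv ℝ (fun y => fderiv ℝ φ y (ev i)) x (ev i) := by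
    ext x
    exact laplacian_eq hφ.1 x
  rw [h1]
  refine continuous_finsetSum _ fun i _ => ?_
  have hφi : ContDiff ℝ ∞ fun y => fderiv ℝ φ y (ev i) :=
    (hφ.1.fderiv_right (m := ∞) (by norm_num)).clm_apply contDiff_const
  exact ((hφi.continuous_fderiv (by norm_num)).clm_apply continuous_const)

lemma lapl_supp {φ : EuclideanSpace ℝ (Fin d) → ℂ} (hφ : IsTest φ) : HasCompactSupport (Δ φ) := by
  refine hφ.2.mono' ?_
  intro x hx
  by_contra hcon
  refine hx ?_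
  have h1 : φ =ᶠ[𝓝 x] 0 := notMem_tsupport_iff_eventuallyEq.1 hcon
  rw [laplacian_eq hφ.1]
  refine Finset.sum_eq_zero fun i _ => ?_
  have h2 : (fun y => fderiv ℝ φ y (ev i)) =ᶠ[𝓝 x] fun _ => 0 := by
    filter_upwards [h1.fderiv (𝕜 := ℝ)] with y hy
    rw [hy]
    simp
  rw [h2.fderiv_eq]
  simp

lemma eigL_mem (h : Mat m c κ) (hm : m + 2 = d + 2 * ℓ) {ħ : ℝ} {E : ℂ}
    (hc : (ħ : ℂ) ^ 2 * c = E - Complex.I) (hκ : (ħ : ℂ) ^ 2 * κ ^ 2 = -E) (P : Har d ℓ) :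
    Acts (ballPot d) ħ (eigL h P) (E • eigL h P) := by
  intro φ hφ
  have hec := eigf_cont (d := d) h (P : MvPolynomial (Fin d) ℂ)
  have hcu := eigL_coe h P
  have hi1 : Integrable (fun x => eigf m c κ (P : MvPolynomial (Fin d) ℂ) x * Δ φ x) :=
    ((hec.mul (lapl_cont hφ)).integrable_of_hasCompactSupport (lapl_supp hφ).mul_left)
  have hi2 : Integrable (fun x => eigf m c κ (P : MvPolynomial (Fin d) ℂ) x * φ x) :=
    ((hec.mul hφ.1.continuous).integrable_of_hasCompactSupport hφ.2.mul_left)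
  have hi3 : Integrable (fun x => ballPot d x * (eigf m c κ (P : MvPolynomial (Fin d) ℂ) x * φ x)) :=
    hi2.bdd_mul (c := 1) ballPot_meas.aestronglyMeasurable (Eventually.of_forall ballPot_norm)
  have e1 : (fun x => fn (eigL h P) x * schr (ballPot d) ħ φ x) =ᵐ[vol d] fun x =>
      -((ħ : ℂ) ^ 2) * (eigf m c κ (P : MvPolynomial (Fin d) ℂ) x * Δ φ x) +
        ballPot d x * (eigf m c κ (P : MvPolynomial (Fin d) ℂ) x * φ x) := by
    filter_upwards [hcu] with x hx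
    rw [hx, schr]
    ring
  have e2 : (fun x => fn (E • eigL h P) x * φ x) =ᵐ[vol d] fun x =>
      E * (eigf m c κ (P : MvPolynomial (Fin d) ℂ) x * φ x) := by
    filter_upwards [hcu, fn_smul E (eigL h P)] with x hx hx2
    rw [hx2, hx]
    ring
  refine ⟨(integrable_congr e1).2 ((hi1.const_mul _).add hi3), ?_⟩
  rw [integral_congr_ae e1, integral_congr_ae e2, integral_add (hi1.const_mul _) hi3,
    integral_const_mul, eigf_weak h hm P.2 hφ.1 hφ.2, ← integral_const_mul, ← integral_add]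
  · congr 1
    ext x
    rw [ballPot_apply]
    split_ifs with hx
    · linear_combination (eigf m c κ (P : MvPolynomial (Fin d) ℂ) x * φ x) * hc
    · linear_combination -(eigf m c κ (P : MvPolynomial (Fin d) ℂ) x * φ x) * hκ
  · have e3 : (fun x : EuclideanSpace ℝ (Fin d) => -((ħ : ℂ) ^ 2) * ((if ‖x‖ ≤ 1 then -c else κ ^ 2) *
        eigf m c κ (P : MvPolynomial (Fin d) ℂ) x * φ x)) = fun x =>
        (-((ħ : ℂ) ^ 2) * (if ‖x‖ ≤ 1 then -c else κ ^ 2)) *
          (eigf m c κ (P : MvPolynomial (Fin d) ℂ) x * φ x) := by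
      ext x; ring
    rw [e3]
    refine hi2.bdd_mul (c := ‖((ħ : ℂ) ^ 2)‖ * (‖c‖ + ‖κ ^ 2‖)) ?_ (Eventually.of_forall fun x => ?_)
    · have : Measurable fun x : EuclideanSpace ℝ (Fin d) => (if ‖x‖ ≤ 1 then -c else κ ^ 2) := by
        refine Measurable.ite ?_ measurable_const measurable_const
        exact measurableSet_le measurable_norm measurable_const
      exact (this.const_mul _).aestronglyMeasurable
    · rw [norm_mul, norm_neg]
      refine mul_le_mul_of_nonneg_left ?_ (norm_nonneg _)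
      split_ifs
      · rw [norm_neg]; linarith [norm_nonneg (κ ^ 2)]
      · linarith [norm_nonneg c]
  · exact hi3

end

/-- the linear map from families of harmonic polynomials to `L²` -/
noncomputable def famMap {Z : Finset ℕ} {mm : ℕ → ℕ} {c κ : ℂ} (h : ∀ ℓ ∈ Z, Mat (mm ℓ) c κ) :
    ((ℓ : Z) → Har d (ℓ : ℕ)) →ₗ[ℂ] L2 d where
  toFun P := ∑ ℓ : Z, eigL (h ℓ ℓ.2) (P ℓ)
  map_add' P Q := by
    rw [← Finset.sum_add_distrib]
    refine Finset.sum_congr rfl fun ℓ _ => ?_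
    refine fn_ext ?_
    filter_upwards [eigL_coe (h ℓ ℓ.2) ((P + Q) ℓ), eigL_coe (h ℓ ℓ.2) (P ℓ),
      eigL_coe (h ℓ ℓ.2) (Q ℓ), fn_add (eigL (h ℓ ℓ.2) (P ℓ)) (eigL (h ℓ ℓ.2) (Q ℓ))] with
      x h1 h2 h3 h4
    rw [h1, h4]
    simp only [Pi.add_apply, h2, h3, Submodule.coe_add, eigf, pf_add]
    ring
  map_smul' a P := by
    rw [RingHom.id_apply, Finset.smul_sum]
    refine Finset.sum_congr rfl fun ℓ _ => ?_
    refine fn_ext ?_
    filter_upwards [eigL_coe (h ℓ ℓ.2) ((a • P) ℓ), eigL_coe (h ℓ ℓ.2) (P ℓ),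
      fn_smul a (eigL (h ℓ ℓ.2) (P ℓ))] with x h1 h2 h4
    rw [h1, h4]
    simp only [Pi.smul_apply, h2, Submodule.coe_smul, eigf, pf_smul]
    ring

lemma famMap_coe {Z : Finset ℕ} {mm : ℕ → ℕ} {c κ : ℂ} (h : ∀ ℓ ∈ Z, Mat (mm ℓ) c κ)
    (P : (ℓ : Z) → Har d (ℓ : ℕ)) :
    fn (famMap h P) =ᵐ[vol d] fun x => ∑ ℓ : Z,
      eigf (mm ℓ) c κ (P ℓ : MvPolynomial (Fin d) ℂ) x := by
  have h1 : ∀ s : Finset Z, fn (∑ ℓ ∈ s, eigL (h ℓ ℓ.2) (P ℓ)) =ᵐ[vol d] fun x => ∑ ℓ ∈ s,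
      eigf (mm ℓ) c κ (P ℓ : MvPolynomial (Fin d) ℂ) x := by
    classical
    intro s
    induction s using Finset.induction_on with
    | empty =>
      simp only [Finset.sum_empty]
      exact fn_zero
    | insert a s ha ih =>
      rw [Finset.sum_insert ha]
      filter_upwards [ih, fn_add (eigL (h a a.2) (P a)) (∑ ℓ ∈ s, eigL (h ℓ ℓ.2) (P ℓ)),
        eigL_coe (h a a.2) (P a)] with x h1 h2 h3
      rw [h2, h1, h3, Finset.sum_insert ha]
  exact h1 Finset.univ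

theorem famMap_injective {Z : Finset ℕ} {mm : ℕ → ℕ} {c κ : ℂ} (h : ∀ ℓ ∈ Z, Mat (mm ℓ) c κ) :
    Function.Injective (famMap (d := d) h) := by
  rw [← LinearMap.ker_eq_bot, LinearMap.ker_eq_bot']
  intro P hP
  -- the sum vanishes everywhere
  have hc : ∀ x : EuclideanSpace ℝ (Fin d), ∑ ℓ : Z,
      eigf (mm ℓ) c κ (P ℓ : MvPolynomial (Fin d) ℂ) x = 0 := by
    have h1 : (fun x : EuclideanSpace ℝ (Fin d) => ∑ ℓ : Z,
      eigf (mm ℓ) c κ (P ℓ : MvPolynomial (Fin d) ℂ) x) =ᵐ[volume] fun _ => 0 := by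
      filter_upwards [famMap_coe h P, fn_zero (d := d)] with x hx hx2
      rw [← hx, hP, hx2]
    have h2 : Continuous fun x : EuclideanSpace ℝ (Fin d) => ∑ ℓ : Z,
      eigf (mm ℓ) c κ (P ℓ : MvPolynomial (Fin d) ℂ) x :=
      continuous_finsetSum _ fun ℓ _ => eigf_cont (h ℓ ℓ.2) _
    exact fun x => congrFun (h2.ae_eq_iff_eq volume continuous_const |>.1 h1) x
  by_contra hne
  -- the lowest nonzero component
  have hex : ∃ ℓ : ℕ, ∃ hℓ : ℓ ∈ Z, (P ⟨ℓ, hℓ⟩ : MvPolynomial (Fin d) ℂ) ≠ 0 := by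
    by_contra hcon
    push Not at hcon
    exact hne (by
      ext ℓ : 1
      exact Subtype.ext (hcon ℓ ℓ.2))
  classical
  obtain ⟨hℓZ, hℓ0⟩ := Nat.find_spec hex
  set ℓ₀ := Nat.find hex with hℓ₀
  have hmin : ∀ ℓ : Z, (ℓ : ℕ) < ℓ₀ → (P ℓ : MvPolynomial (Fin d) ℂ) = 0 := by
    intro ℓ hℓ
    have := Nat.find_min hex hℓ
    push Not at this
    exact this ℓ.2
  apply hℓ0
  apply pf_injective
  ext x
  rw [pf_zero]
  -- scaling
  set F : ℝ → ℂ := fun t => ∑ ℓ : Z, (if (ℓ : ℕ) < ℓ₀ then 0 else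
    (t : ℂ) ^ ((ℓ : ℕ) - ℓ₀) * (pf (P ℓ : MvPolynomial (Fin d) ℂ) x *
      prof (mm ℓ) c κ ((t * ‖x‖) ^ 2))) with hF
  have hFc : Continuous F := by
    refine continuous_finsetSum _ fun ℓ _ => ?_
    split_ifs
    · exact continuous_const
    · have := prof_cont (h ℓ ℓ.2)
      fun_prop
  have hF0 : ∀ t : ℝ, 0 < t → F t = 0 := by
    intro t ht
    have h1 := hc (t • x)
    have h2 : (t : ℂ) ^ ℓ₀ * F t = ∑ ℓ : Z,
      eigf (mm ℓ) c κ (P ℓ : MvPolynomial (Fin d) ℂ) (t • x) := by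
      simp only [hF]
      rw [Finset.mul_sum]
      refine Finset.sum_congr rfl fun ℓ _ => ?_
      split_ifs with hlt
      · rw [eigf, hmin ℓ hlt, pf_zero]
        ring
      · push Not at hlt
        rw [eigf, pf_homog (mem_Har.1 (P ℓ).2).1, norm_smul, Real.norm_of_nonneg ht.le]
        rw [← mul_assoc, ← mul_assoc, ← pow_add]
        rw [show ℓ₀ + ((ℓ : ℕ) - ℓ₀) = (ℓ : ℕ) by omega]
    rw [h1] at h2
    have h3 : (t : ℂ) ^ ℓ₀ ≠ 0 := pow_ne_zero _ (by exact_mod_cast ht.ne')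
    exact (mul_eq_zero.1 h2).resolve_left h3
  have hFz : F 0 = 0 := by
    have h1 : Tendsto F (𝓝[>] 0) (𝓝 (F 0)) := (hFc.tendsto 0).mono_left nhdsWithin_le_nhds
    have h2 : Tendsto F (𝓝[>] 0) (𝓝 0) := by
      refine tendsto_const_nhds.congr' ?_
      filter_upwards [self_mem_nhdsWithin] with t ht
      exact (hF0 t ht).symm
    exact tendsto_nhds_unique h1 h2
  simp only [hF] at hFz
  rw [Finset.sum_eq_single (⟨ℓ₀, hℓZ⟩ : Z)] at hFz
  · rw [if_neg (lt_irrefl _)] at hFz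
    simp only [Nat.sub_self, pow_zero, one_mul, zero_mul] at hFz
    have h1 : prof (mm ℓ₀) c κ ((0 : ℝ) ^ 2) = 1 := by
      rw [prof, if_pos (by norm_num), pin]
      simp [Phi_zero]
    rw [h1, mul_one] at hFz
    exact hFz
  · intro ℓ _ hne'
    split_ifs with hlt
    · rfl
    · have h1 : (ℓ : ℕ) ≠ ℓ₀ := fun h => hne' (Subtype.ext h)
      have h2 : (ℓ : ℕ) - ℓ₀ ≠ 0 := by omega
      rw [Complex.ofReal_zero, zero_pow h2, zero_mul]
  · intro hn
    exact absurd (Finset.mem_univ _) hn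

/-- the lower bound for the algebraic multiplicity -/
theorem algMult_ge {Z : Finset ℕ} {mm : ℕ → ℕ} {c κ E : ℂ} {ħ : ℝ}
    (h : ∀ ℓ ∈ Z, Mat (mm ℓ) c κ) (hm : ∀ ℓ ∈ Z, mm ℓ + 2 = d + 2 * ℓ)
    (hc : (ħ : ℂ) ^ 2 * c = E - Complex.I) (hκ : (ħ : ℂ) ^ 2 * κ ^ 2 = -E) :
    ((∑ ℓ ∈ Z, Module.finrank ℂ (Har d ℓ) : ℕ) : ℕ∞) ≤ algMult (ballPot d) ħ E := by
  have hmem : ∀ P, famMap (d := d) h P ∈ ⨆ n, genEig (ballPot d) ħ E n := by
    intro P
    have h1 : famMap (d := d) h P ∈ genEig (ballPot d) ħ E 1 := by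
      refine ⟨0, Submodule.zero_mem _, ?_⟩
      rw [add_zero]
      have h2 : ∀ s : Finset Z, Acts (ballPot d) ħ (∑ ℓ ∈ s, eigL (h ℓ ℓ.2) (P ℓ))
          (E • ∑ ℓ ∈ s, eigL (h ℓ ℓ.2) (P ℓ)) := by
        classical
        intro s
        induction s using Finset.induction_on with
        | empty =>
          rw [Finset.sum_empty, smul_zero]
          exact Acts.zero _ _
        | insert a s ha ih =>
          rw [Finset.sum_insert ha, smul_add]
          exact (eigL_mem (h a a.2) (hm a a.2) hc hκ (P a)).add ih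
      exact h2 Finset.univ
    exact (le_iSup (genEig (ballPot d) ħ E) 1) h1
  have hinj : Function.Injective ((famMap (d := d) h).codRestrict _ hmem) := by
    intro P Q hPQ
    have := congrArg Subtype.val hPQ
    exact famMap_injective h this
  have hrank := LinearMap.rank_le_of_injective _ hinj
  have h3 : Module.rank ℂ ((ℓ : Z) → Har d (ℓ : ℕ)) =
      ((∑ ℓ ∈ Z, Module.finrank ℂ (Har d ℓ) : ℕ) : Cardinal) := by
    rw [← Module.finrank_eq_rank, Module.finrank_pi_fintype]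
    congr 1
    exact Finset.sum_coe_sort Z fun ℓ => Module.finrank ℂ (Har d ℓ)
  rw [h3] at hrank
  have h4 := OrderHomClass.mono Cardinal.toENat hrank
  rw [Cardinal.toENat_nat] at h4
  exact h4

end Pool.Agent.K3h97.BP
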