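import Mathlib

/-! Harmonic polynomials. -/

set_option autoImplicit false

open MvPolynomial Filter Topology Set
open scoped ContDiff

namespace Pool.Agent.K3h97.BP

variable {d : ℕ}

/-- the function on `ℝᵈ` given by a polynomial with complex coefficients -/
noncomputable def pf (P : MvPolynomial (Fin d) ℂ) (x : EuclideanSpace ℝ (Fin d)) : ℂ :=
  MvPolynomial.eval (fun i => ((x i : ℝ) : ℂ)) P

lemma pf_add (P Q : MvPolynomial (Fin d) ℂ) (x : EuclideanSpace ℝ (Fin d)) :
    pf (P + Q) x = pf P x + pf Q x := by simp [pf]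

lemma pf_mul (P Q : MvPolynomial (Fin d) ℂ) (x : EuclideanSpace ℝ (Fin d)) :
    pf (P * Q) x = pf P x * pf Q x := by simp [pf]

lemma pf_C (c : ℂ) (x : EuclideanSpace ℝ (Fin d)) : pf (C c : MvPolynomial (Fin d) ℂ) x = c := by
  simp [pf]

lemma pf_X (i : Fin d) (x : EuclideanSpace ℝ (Fin d)) :
    pf (X i : MvPolynomial (Fin d) ℂ) x = ((x i : ℝ) : ℂ) := by simp [pf]

lemma pf_smul (c : ℂ) (P : MvPolynomial (Fin d) ℂ) (x : EuclideanSpace ℝ (Fin d)) :
    pf (c • P) x = c * pf P x := by simp [pf, smul_eval]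

lemma pf_zero (x : EuclideanSpace ℝ (Fin d)) : pf (0 : MvPolynomial (Fin d) ℂ) x = 0 := by
  simp [pf]

lemma pf_sum {ι : Type*} (s : Finset ι) (P : ι → MvPolynomial (Fin d) ℂ)
    (x : EuclideanSpace ℝ (Fin d)) : pf (∑ i ∈ s, P i) x = ∑ i ∈ s, pf (P i) x := by
  simp [pf, map_sum]

lemma pf_contDiff (P : MvPolynomial (Fin d) ℂ) : ContDiff ℝ ∞ (pf P) := by
  induction P using MvPolynomial.induction_on with
  | C c =>
    have : pf (C c : MvPolynomial (Fin d) ℂ) = fun _ => c := by ext x; rw [pf_C]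
    rw [this]; exact contDiff_const
  | add P Q hP hQ =>
    have : pf (P + Q) = fun x => pf P x + pf Q x := by ext x; rw [pf_add]
    rw [this]; exact hP.add hQ
  | mul_X P i hP =>
    have : pf (P * X i) = fun x => pf P x * ((x i : ℝ) : ℂ) := by
      ext x; rw [pf_mul, pf_X]
    rw [this]
    refine hP.mul ?_
    have h1 : ContDiff ℝ ∞ fun x : EuclideanSpace ℝ (Fin d) => x i :=
      (EuclideanSpace.proj (𝕜 := ℝ) i).contDiff
    exact Complex.ofRealCLM.contDiff.comp h1

lemma pf_continuous (P : MvPolynomial (Fin d) ℂ) : Continuous (pf P) := (pf_contDiff P).continuous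

/-- the standard basis vectors -/
noncomputable abbrev ev (i : Fin d) : EuclideanSpace ℝ (Fin d) := EuclideanSpace.single i 1

lemma ev_apply (i j : Fin d) : (ev i : EuclideanSpace ℝ (Fin d)) j = if j = i then 1 else 0 := by
  simp [ev]

lemma coord_hasLineDerivAt (i j : Fin d) (x : EuclideanSpace ℝ (Fin d)) :
    HasLineDerivAt ℝ (fun x : EuclideanSpace ℝ (Fin d) => ((x j : ℝ) : ℂ))
      (if j = i then 1 else 0) x (ev i) := by
  have h1 : HasDerivAt (fun t : ℝ => (x j + t * (if j = i then 1 else 0) : ℝ))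
      (if j = i then 1 else 0 : ℝ) 0 := by
    have := ((hasDerivAt_id (0 : ℝ)).mul_const (if j = i then 1 else 0 : ℝ)).const_add (x j)
    simpa using this
  have h2 := h1.ofReal_comp
  unfold HasLineDerivAt
  have h3 : (fun t : ℝ => (((x + t • ev i) j : ℝ) : ℂ)) =
      fun t : ℝ => (((x j + t * (if j = i then 1 else 0) : ℝ)) : ℂ) := by
    ext t
    rw [PiLp.add_apply, PiLp.smul_apply, ev_apply, smul_eq_mul]
  rw [h3]
  refine h2.congr_deriv ?_
  split_ifs <;> simp

lemma HasLineDerivAt.mul' {f g : EuclideanSpace ℝ (Fin d) → ℂ} {f' g' : ℂ}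
    {x v : EuclideanSpace ℝ (Fin d)} (hf : HasLineDerivAt ℝ f f' x v)
    (hg : HasLineDerivAt ℝ g g' x v) :
    HasLineDerivAt ℝ (fun x => f x * g x) (f' * g x + f x * g') x v := by
  have h := HasDerivAt.fun_mul (c := fun t : ℝ => f (x + t • v)) (d := fun t : ℝ => g (x + t • v))
    hf hg
  simpa [HasLineDerivAt] using h

lemma HasLineDerivAt.add' {f g : EuclideanSpace ℝ (Fin d) → ℂ} {f' g' : ℂ}
    {x v : EuclideanSpace ℝ (Fin d)} (hf : HasLineDerivAt ℝ f f' x v)
    (hg : HasLineDerivAt ℝ g g' x v) :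
    HasLineDerivAt ℝ (fun x => f x + g x) (f' + g') x v :=
  HasDerivAt.fun_add (f := fun t : ℝ => f (x + t • v)) (g := fun t : ℝ => g (x + t • v)) hf hg

lemma pf_hasLineDerivAt (P : MvPolynomial (Fin d) ℂ) (i : Fin d) (x : EuclideanSpace ℝ (Fin d)) :
    HasLineDerivAt ℝ (pf P) (pf (pderiv i P) x) x (ev i) := by
  induction P using MvPolynomial.induction_on with
  | C c =>
    have : pf (C c : MvPolynomial (Fin d) ℂ) = fun _ => c := by ext x; rw [pf_C]
    rw [this, pderiv_C, pf_zero]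
    exact hasDerivAt_const _ _
  | add P Q hP hQ =>
    have : pf (P + Q) = fun x => pf P x + pf Q x := by ext x; rw [pf_add]
    rw [this, map_add, pf_add]
    exact HasLineDerivAt.add' hP hQ
  | mul_X P j hP =>
    have : pf (P * X j) = fun x => pf P x * ((x j : ℝ) : ℂ) := by
      ext x; rw [pf_mul, pf_X]
    rw [this]
    have h1 := HasLineDerivAt.mul' hP (coord_hasLineDerivAt i j x)
    have h2 : pf (pderiv i (P * X j)) x = pf (pderiv i P) x * ((x j : ℝ) : ℂ) +
        pf P x * (if j = i then 1 else 0) := by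
      rw [pderiv_mul, pf_add, pf_mul, pf_mul, pf_X, pderiv_X]
      congr 2
      rw [Pi.single_apply]
      split_ifs
      · simp [pf]
      · simp [pf]
    rw [h2]
    exact h1

lemma pf_homog {ℓ : ℕ} {P : MvPolynomial (Fin d) ℂ} (hP : P.IsHomogeneous ℓ)
    (x : EuclideanSpace ℝ (Fin d)) (t : ℝ) : pf P (t • x) = (t : ℂ) ^ ℓ * pf P x := by
  rw [pf, pf]
  have h1 : (fun i => (((t • x) i : ℝ) : ℂ)) = fun i => (t : ℂ) * ((x i : ℝ) : ℂ) := by
    ext i; simp
  rw [h1, eval_eq', eval_eq', Finset.mul_sum]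
  refine Finset.sum_congr rfl fun s hs => ?_
  have h2 : s.degree = ℓ := by
    have := hP (mem_support_iff.1 hs)
    rwa [Finsupp.degree_eq_weight_one]
  simp only [mul_pow, Finset.prod_mul_distrib]
  rw [Finset.prod_pow_eq_pow_sum]
  have h3 : ∑ i, s i = ℓ := by
    rw [← h2, Finsupp.degree_eq_sum]
  rw [h3]
  ring

lemma pf_injective : Function.Injective (pf : MvPolynomial (Fin d) ℂ → _) := by
  intro P Q h
  have h1 : ∀ x : Fin d → ℝ, eval (fun i => ((x i : ℝ) : ℂ)) (P - Q) = 0 := by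
    intro x
    have := congrFun h (WithLp.toLp 2 x)
    simp only [pf] at this
    rw [map_sub, sub_eq_zero]
    exact this
  have h2 : P - Q = 0 := by
    apply MvPolynomial.funext_set (fun _ => Set.range ((↑) : ℝ → ℂ))
      (fun _ => Set.infinite_range_of_injective Complex.ofReal_injective)
    intro x hx
    rw [map_zero]
    have h3 : ∀ i, ∃ r : ℝ, (r : ℂ) = x i := fun i => hx i (Set.mem_univ i)
    choose r hr using h3
    have := h1 r
    simpa [hr] using this
  exact sub_eq_zero.1 h2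

/-- the formal Laplacian -/
noncomputable def lap (d : ℕ) : MvPolynomial (Fin d) ℂ →ₗ[ℂ] MvPolynomial (Fin d) ℂ :=
  ∑ i : Fin d, (pderiv i).toLinearMap ∘ₗ (pderiv i).toLinearMap

lemma lap_apply (P : MvPolynomial (Fin d) ℂ) : lap d P = ∑ i : Fin d, pderiv i (pderiv i P) := by
  simp [lap]

/-- homogeneous harmonic polynomials -/
noncomputable def Har (d ℓ : ℕ) : Submodule ℂ (MvPolynomial (Fin d) ℂ) :=
  homogeneousSubmodule (Fin d) ℂ ℓ ⊓ LinearMap.ker (lap d)

lemma mem_Har {ℓ : ℕ} {P : MvPolynomial (Fin d) ℂ} : P ∈ Har d ℓ ↔ P.IsHomogeneous ℓ ∧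
    ∑ i : Fin d, pderiv i (pderiv i P) = 0 := by
  rw [Har, Submodule.mem_inf, LinearMap.mem_ker, lap_apply, mem_homogeneousSubmodule]

instance (ℓ : ℕ) : FiniteDimensional ℂ (homogeneousSubmodule (Fin d) ℂ ℓ) :=
  Module.Finite.iff_fg.2 (homogeneousSubmodule_fg (Fin d) ℂ ℓ)

instance (ℓ : ℕ) : FiniteDimensional ℂ (Har d ℓ) :=
  Submodule.finiteDimensional_of_le (inf_le_left : Har d ℓ ≤ homogeneousSubmodule (Fin d) ℂ ℓ)

/-- dimension of the homogeneous polynomials -/
noncomputable def vdim (d ℓ : ℕ) : ℕ := Module.finrank ℂ (homogeneousSubmodule (Fin d) ℂ ℓ)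

lemma vdim_le (ℓ : ℕ) : vdim d (ℓ + 2) ≤ Module.finrank ℂ (Har d (ℓ + 2)) + vdim d ℓ := by
  set V := homogeneousSubmodule (Fin d) ℂ (ℓ + 2) with hV
  set W := homogeneousSubmodule (Fin d) ℂ ℓ with hW
  have hmap : ∀ P ∈ V, lap d P ∈ W := by
    intro P hP
    rw [lap_apply]
    refine Submodule.sum_mem _ fun i _ => ?_
    have h1 : P.IsHomogeneous (ℓ + 2) := hP
    have h2 := (h1.pderiv (i := i)).pderiv (i := i)
    exact h2
  let f : V →ₗ[ℂ] W := (lap d).restrict hmap
  have h1 := LinearMap.finrank_range_add_finrank_ker f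
  have h2 : Module.finrank ℂ (LinearMap.range f) ≤ Module.finrank ℂ W := Submodule.finrank_le _
  have h3 : Module.finrank ℂ (LinearMap.ker f) ≤ Module.finrank ℂ (Har d (ℓ + 2)) := by
    let g : LinearMap.ker f →ₗ[ℂ] Har d (ℓ + 2) :=
      { toFun := fun P => ⟨P.1.1, by
          refine Submodule.mem_inf.2 ⟨P.1.2, ?_⟩
          have := P.2
          rw [LinearMap.mem_ker] at this ⊢
          exact congrArg Subtype.val this⟩
        map_add' := fun _ _ => rfl
        map_smul' := fun _ _ => rfl }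
    refine LinearMap.finrank_le_finrank_of_injective (f := g) ?_
    intro P Q h
    apply Subtype.ext
    apply Subtype.ext
    exact congrArg (fun z : Har d (ℓ + 2) => (z : MvPolynomial (Fin d) ℂ)) h
  change Module.finrank ℂ V ≤ _ + Module.finrank ℂ W
  omega

lemma vdim_low (ℓ : ℕ) (hℓ : ℓ < 2) : vdim d ℓ ≤ Module.finrank ℂ (Har d ℓ) := by
  refine Submodule.finrank_mono ?_
  intro P hP
  rw [mem_Har]
  have h1 : P.IsHomogeneous ℓ := hP
  refine ⟨h1, Finset.sum_eq_zero fun i _ => ?_⟩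
  have h2 := (h1.pderiv (i := i))
  have h3 : ℓ - 1 = 0 := by omega
  rw [h3, ← totalDegree_zero_iff_isHomogeneous, totalDegree_eq_zero_iff_eq_C] at h2
  rw [h2, pderiv_C]

lemma vdim_sum (L : ℕ) : vdim d L ≤ ∑ ℓ ∈ Finset.range (L + 1), Module.finrank ℂ (Har d ℓ) := by
  induction L using Nat.strong_induction_on with
  | _ L ih =>
    rcases Nat.lt_or_ge L 2 with h | h
    · rw [Finset.sum_range_succ]
      have := vdim_low (d := d) L h
      omega
    · obtain ⟨k, rfl⟩ : ∃ k, L = k + 2 := ⟨L - 2, by omega⟩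
      have h1 := vdim_le (d := d) k
      have h2 := ih k (by omega)
      rw [Finset.sum_range_succ, Finset.sum_range_succ]
      omega

lemma vdim_ge (L : ℕ) : (d + L - 1).choose L ≤ vdim d L := by
  classical
  set S := (Finset.univ : Finset (Fin d)).finsuppAntidiag L with hS
  have hcard : S.card = (d + L - 1).choose L := by
    rw [hS, Finset.card_finsuppAntidiag_nat_eq_choose]
    simp
  rw [← hcard]
  have hmem : ∀ s : S, (monomial (s : Fin d →₀ ℕ) (1 : ℂ)) ∈ homogeneousSubmodule (Fin d) ℂ L := by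
    intro s
    rw [mem_homogeneousSubmodule]
    refine isHomogeneous_monomial 1 ?_
    have := (Finset.mem_finsuppAntidiag.1 s.2).1
    rw [Finsupp.degree_eq_sum]
    exact this
  have hli : LinearIndependent ℂ (fun s : S => (monomial (s : Fin d →₀ ℕ) (1 : ℂ))) := by
    have := (basisMonomials (Fin d) ℂ).linearIndependent
    rw [coe_basisMonomials] at this
    exact this.comp _ Subtype.val_injective
  have hli2 : LinearIndependent ℂ (fun s : S => (⟨monomial (s : Fin d →₀ ℕ) (1 : ℂ), hmem s⟩ :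
      homogeneousSubmodule (Fin d) ℂ L)) := by
    refine LinearIndependent.of_comp (Submodule.subtype _) ?_
    exact hli
  have := hli2.fintype_card_le_finrank
  rw [Fintype.card_coe] at this
  exact this

end Pool.Agent.K3h97.BP
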